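import Pool.Agent.W207.PR.Abs2

/-! # The abstract core for a general main term -/

open Filter Topology Set MeasureTheory
open scoped BigOperators

namespace W207.PU

open W207.PR

/-- the main term -/
structure MT (g : ℝ → ℝ) (C1 : ℝ) : Prop where
  cont : Continuous g
  bd : ∀ u, 0 ≤ u → |g u| ≤ C1 * (1 + u)

/-- the set-up for the limit functions -/
structure SeqG (g : ℝ → ℝ) (F : ℕ → ℝ → ℝ) (C0 : ℝ) : Prop where
  mono : ∀ j, Monotone (F j)
  bd : ∀ j u, |F j u| ≤ C0 * (1 + |u|)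
  orth : ∀ ψ, Tst ψ → Tendsto (fun j => ∫ u in Ioi (0 : ℝ), dt ψ u * F j u) atTop
    (𝓝 (∫ u in Ioi (0 : ℝ), dt ψ u * g u))

lemma SeqG.sub {g : ℝ → ℝ} {F : ℕ → ℝ → ℝ} {C0 : ℝ} (h : SeqG g F C0) {φ : ℕ → ℕ}
    (hφ : Tendsto φ atTop atTop) : SeqG g (fun j => F (φ j)) C0 :=
  ⟨fun _ => h.mono _, fun _ => h.bd _, fun ψ hψ => (h.orth ψ hψ).comp hφ⟩

/-- the limit function -/
lemma limitG (hHELLY : S_HELLY) (hDEC : S_DEC) {g : ℝ → ℝ} {C1 : ℝ} (hg : MT g C1)
    {F : ℕ → ℝ → ℝ} {C0 : ℝ} (h : SeqG g F C0) : ∃ (φ : ℕ → ℕ) (Q : ℝ → ℝ), StrictMono φ ∧ Monotone Q ∧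
      (∀ u, ContinuousAt Q u → Tendsto (fun j => F (φ j) u) atTop (𝓝 (Q u))) ∧
      Measurable (fun u => Q u - g u) ∧
      (∀ᵐ u ∂(volume.restrict (Ioi (0 : ℝ))), |Q u - g u| ≤ (C0 + C1) * (1 + u)) ∧
      ∀ ψ, Tst ψ → ∫ u in Ioi (0 : ℝ), dt ψ u * (Q u - g u) = 0 := by
  obtain ⟨φ, Q, hφ, hQ, hlim⟩ := hHELLY F (fun u => C0 * (1 + |u|)) h.mono h.bd
  have hcnt : Set.Countable {u | ¬ ContinuousAt Q u} := hQ.countable_not_continuousAt
  have hae : ∀ᵐ u ∂(volume.restrict (Ioi (0 : ℝ))), ContinuousAt Q u :=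
    ae_restrict_of_ae (by
      rw [ae_iff]
      exact hcnt.measure_zero _)
  have hpos : ∀ᵐ u ∂(volume.restrict (Ioi (0 : ℝ))), 0 < u := ae_restrict_mem measurableSet_Ioi
  have hQb : ∀ u, ContinuousAt Q u → |Q u| ≤ C0 * (1 + |u|) := by
    intro u hu
    exact le_of_tendsto (hlim u hu).abs (Filter.Eventually.of_forall fun j => h.bd _ _)
  refine ⟨φ, Q, hφ, hQ, hlim, ?_, ?_, ?_⟩
  · exact hQ.measurable.sub hg.cont.measurable
  · filter_upwards [hae, hpos] with u h1 h2
    have h3 := hQb u h1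
    rw [abs_of_pos h2] at h3
    have h6 : |g u| ≤ C1 * (1 + u) := hg.bd u h2.le
    calc |Q u - g u| ≤ |Q u| + |g u| := abs_sub _ _
      _ ≤ C0 * (1 + u) + C1 * (1 + u) := add_le_add h3 h6
      _ = _ := by ring
  · intro ψ hψ
    obtain ⟨hder, hcont, hdec⟩ := hDEC ψ hψ
    obtain ⟨K, hK, hKb⟩ := hdec 3
    have hC0 : 0 ≤ C0 := by
      have := h.bd 0 0
      simp at this
      exact (abs_nonneg _).trans this
    -- dominating function
    have hdom : ∀ Cx : ℝ, 0 ≤ Cx → ∀ u : ℝ, 0 < u →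
        |dt ψ u| * (Cx * (1 + |u|)) ≤ K * Cx * (1 + u) ^ (-2 : ℝ) := by
      intro Cx hCx u hu
      have h1 := (hKb u).2
      rw [abs_of_pos hu] at h1 ⊢
      have h2 : 0 < 1 + u := by linarith
      have h3 : (1 + u) ^ (-2 : ℝ) = ((1 + u) ^ 2)⁻¹ := by
        rw [Real.rpow_neg h2.le]; norm_cast
      rw [h3, ← div_eq_mul_inv, le_div_iff₀ (by positivity)]
      calc |dt ψ u| * (Cx * (1 + u)) * (1 + u) ^ 2 = (|dt ψ u| * (1 + u) ^ 3) * Cx := by ring
        _ ≤ K * Cx := mul_le_mul_of_nonneg_right h1 hCx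
    have hint : ∀ Cx : ℝ, IntegrableOn (fun u : ℝ => K * Cx * (1 + u) ^ (-2 : ℝ)) (Ioi 0) := by
      intro Cx
      apply Integrable.const_mul
      have h1 := integrableOn_Ioi_rpow_of_lt (a := -2) (by norm_num) (show (0 : ℝ) < 1 by norm_num)
      have h2 : (fun u : ℝ => (1 + u) ^ (-2 : ℝ)) = fun u => (fun x : ℝ => x ^ (-2 : ℝ)) (u + 1) := by
        ext u; rw [add_comm]
      rw [h2]
      have h3 := (measurePreserving_add_right volume (1 : ℝ)).integrableOn_comp_preimage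
        (MeasurableEquiv.addRight (1 : ℝ)).measurableEmbedding
        (f := fun x : ℝ => x ^ (-2 : ℝ)) (s := Ioi 1)
      have h4 : (fun x : ℝ => x + 1) ⁻¹' Ioi 1 = Ioi 0 := by
        ext x; simp
      rw [h4] at h3
      exact h3.2 h1
    have hlimI : Tendsto (fun j => ∫ u in Ioi (0 : ℝ), dt ψ u * F (φ j) u) atTop
        (𝓝 (∫ u in Ioi (0 : ℝ), dt ψ u * Q u)) := by
      refine tendsto_integral_of_dominated_convergence
        (fun u => K * C0 * (1 + u) ^ (-2 : ℝ)) ?_ (hint C0) ?_ ?_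
      · intro j
        exact (hcont.measurable.mul (h.mono _).measurable).aestronglyMeasurable
      · intro j
        filter_upwards [hpos] with u hu
        rw [norm_mul, Real.norm_eq_abs, Real.norm_eq_abs]
        refine le_trans ?_ (hdom C0 hC0 u hu)
        exact mul_le_mul_of_nonneg_left (h.bd _ _) (abs_nonneg _)
      · filter_upwards [hae] with u hu
        exact (hlim u hu).const_mul _
    have huniq := tendsto_nhds_unique hlimI ((h.orth ψ hψ).comp hφ.tendsto_atTop)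
    have hi1 : IntegrableOn (fun u => dt ψ u * Q u) (Ioi 0) := by
      refine Integrable.mono' (hint C0)
        (hcont.measurable.mul hQ.measurable).aestronglyMeasurable ?_
      filter_upwards [hpos, hae] with u hu hu2
      rw [norm_mul, Real.norm_eq_abs, Real.norm_eq_abs]
      exact (mul_le_mul_of_nonneg_left (hQb u hu2) (abs_nonneg _)).trans (hdom C0 hC0 u hu)
    have hC1 : 0 ≤ C1 := by
      have := hg.bd 0 le_rfl
      simp at this
      exact (abs_nonneg _).trans this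
    have hi2 : IntegrableOn (fun u => dt ψ u * g u) (Ioi 0) := by
      refine Integrable.mono' (hint C1)
        (hcont.measurable.mul hg.cont.measurable).aestronglyMeasurable ?_
      filter_upwards [hpos] with u hu
      rw [norm_mul, Real.norm_eq_abs, Real.norm_eq_abs]
      refine (mul_le_mul_of_nonneg_left ?_ (abs_nonneg _)).trans (hdom C1 hC1 u hu)
      rw [abs_of_pos hu]
      exact hg.bd u hu.le
    have : ∀ u, dt ψ u * (Q u - g u) = dt ψ u * Q u - dt ψ u * g u := by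
      intro u; ring
    simp_rw [this]
    rw [integral_sub hi1 hi2, huniq, sub_self]

/-- from the vanishing of the deviation of the limit function to the limit -/
lemma concludeG {g : ℝ → ℝ} {C1 : ℝ} (hg : MT g C1) {F : ℕ → ℝ → ℝ} {φ : ℕ → ℕ} {Q : ℝ → ℝ} (hQ : Monotone Q)
    (hlim : ∀ u, ContinuousAt Q u → Tendsto (fun j => F (φ j) u) atTop (𝓝 (Q u)))
    (h0 : ∀ᵐ u ∂(volume.restrict (Ioi (0 : ℝ))), Q u - g u = 0) (u : ℝ) (hu : 0 < u) :
    Tendsto (fun j => F (φ j) u) atTop (𝓝 (g u)) := by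
  have hgc : Continuous g := hg.cont
  have h1 : ∀ u, 0 < u → Q u = g u := by
    apply mono_eq hQ hgc
    filter_upwards [h0] with v hv
    linarith
  have h2 : ContinuousAt Q u := by
    refine (hgc.continuousAt (x := u)).congr ?_
    filter_upwards [lt_mem_nhds hu] with v hv
    exact (h1 v hv).symm
  have h3 := hlim u h2
  rwa [h1 u hu] at h3

/-- **the abstract core, cumulative form** -/
theorem coreG (hHELLY : S_HELLY) (hDEC : S_DEC) (hTEST : S_TEST)
    (hDET : S_DET) (hUNIQ : S_UNIQ) {g : ℝ → ℝ} {C1 : ℝ} (hg : MT g C1)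
    {F : ℕ → ℝ → ℝ} {C0 : ℝ} (h : SeqG g F C0) (σ : ℝ)
    (hσ : σ = 1 ∨ σ = -1) (C c : ℝ) (hc : 0 < c)
    (hlow : ∀ u : ℝ, 0 < u → ∀ ε : ℝ, 0 < ε → ∀ᶠ j in atTop,
      -(C * Real.exp (-(c * u)) + ε) ≤ σ * (F j u - g u)) :
    ∀ u : ℝ, 0 < u → Tendsto (fun j => F j u) atTop (𝓝 (g u)) := by
  intro u0 hu0
  apply tendsto_of_subseq_tendsto
  intro ns hns
  have hF := h.sub hns
  obtain ⟨φ, Q, hφ, hQ, hlim, hm, hb, ho⟩ := limitG hHELLY hDEC hg hF
  refine ⟨φ, ?_⟩
  apply concludeG hg (F := fun j => F (ns j)) hQ hlim _ u0 hu0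
  have hcnt : Set.Countable {u | ¬ ContinuousAt Q u} := hQ.countable_not_continuousAt
  have hae : ∀ᵐ u ∂(volume.restrict (Ioi (0 : ℝ))), ContinuousAt Q u :=
    ae_restrict_of_ae (by
      rw [ae_iff]
      exact hcnt.measure_zero _)
  have hpos : ∀ᵐ u ∂(volume.restrict (Ioi (0 : ℝ))), 0 < u := ae_restrict_mem measurableSet_Ioi
  set C' : ℝ := max (C0 + C1) C with hC'
  have hlow2 : ∀ᵐ u ∂(volume.restrict (Ioi (0 : ℝ))),
      -(C' * Real.exp (-(c * u))) ≤ σ * (Q u - g u) := by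
    filter_upwards [hae, hpos] with u h1 h2
    have h3 : Tendsto (fun j => σ * (F (ns (φ j)) u - g u)) atTop
        (𝓝 (σ * (Q u - g u))) := ((hlim u h1).sub_const _).const_mul _
    have h4 : ∀ ε : ℝ, 0 < ε → -(C * Real.exp (-(c * u)) + ε) ≤ σ * (Q u - g u) := by
      intro ε hε
      refine ge_of_tendsto h3 ?_
      exact (hns.comp hφ.tendsto_atTop).eventually (hlow u h2 ε hε)
    have h5 : -(C * Real.exp (-(c * u))) ≤ σ * (Q u - g u) := by
      apply le_of_forall_pos_sub_le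
      intro ε hε
      have := h4 ε hε
      linarith
    have h6 : C * Real.exp (-(c * u)) ≤ C' * Real.exp (-(c * u)) :=
      mul_le_mul_of_nonneg_right (le_max_right _ _) (Real.exp_pos _).le
    linarith
  have hb2 : ∀ᵐ u ∂(volume.restrict (Ioi (0 : ℝ))),
      |σ * (Q u - g u)| ≤ C' * (1 + u) := by
    filter_upwards [hb, hpos] with u h1 h2
    have h3 : |σ| = 1 := by rcases hσ with h | h <;> rw [h] <;> norm_num
    rw [abs_mul, h3, one_mul]
    refine h1.trans (mul_le_mul_of_nonneg_right (le_max_left _ _) (by linarith))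
  have ho2 : ∀ ψ, Tst ψ → ∫ u in Ioi (0 : ℝ), dt ψ u * (σ * (Q u - g u)) = 0 := by
    intro ψ hψ
    have : ∀ u, dt ψ u * (σ * (Q u - g u)) = σ * (dt ψ u * (Q u - g u)) := by
      intro u; ring
    simp_rw [this]
    rw [integral_const_mul, ho ψ hψ, mul_zero]
  have h0 := hUNIQ hTEST hDET (fun u => σ * (Q u - g u)) (hm.const_mul _) C' c hc
    hb2 hlow2 ho2
  filter_upwards [h0] with u h1
  have h2 : σ ≠ 0 := by rcases hσ with h | h <;> rw [h] <;> norm_num
  exact (mul_eq_zero.1 h1).resolve_left h2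

/-- the odd extension of the deviation -/
noncomputable def oeG (g Q : ℝ → ℝ) (u : ℝ) : ℝ :=
  if 0 < u then Q u - g u else if u < 0 then -(Q (-u) - g (-u)) else 0

lemma oeG_pos {g Q : ℝ → ℝ} {u : ℝ} (h : 0 < u) : oeG g Q u = Q u - g u := by
  unfold oeG; rw [if_pos h]

lemma oeG_odd (g Q : ℝ → ℝ) (u : ℝ) : oeG g Q (-u) = -oeG g Q u := by
  unfold oeG
  rcases lt_trichotomy u 0 with h | h | h
  · rw [if_pos (by linarith : 0 < -u), if_neg (by linarith : ¬ 0 < u), if_pos h, neg_neg]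
  · subst h; simp
  · rw [if_neg (by linarith : ¬ 0 < -u), if_pos (by linarith : -u < 0), if_pos h, neg_neg]

lemma oeG_meas {g Q : ℝ → ℝ} (hg : Continuous g) (hQ : Monotone Q) : Measurable (oeG g Q) := by
  unfold oeG
  have h1 : Measurable fun u => Q u - g u :=
    hQ.measurable.sub hg.measurable
  refine Measurable.ite measurableSet_Ioi h1 (Measurable.ite measurableSet_Iio ?_ measurable_const)
  exact (h1.comp measurable_neg).neg

/-- one-sided bound for the windows of length `ℓ` of all limit functions -/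
def LimG (g : ℝ → ℝ) (F : ℕ → ℝ → ℝ) (ℓ σ C c : ℝ) : Prop :=
  ∀ θ : ℕ → ℕ, Tendsto θ atTop atTop → ∀ Q : ℝ → ℝ, Monotone Q →
    (∀ u, ContinuousAt Q u → Tendsto (fun j => F (θ j) u) atTop (𝓝 (Q u))) →
    ∀ a : ℝ, 0 < a → ContinuousAt Q a → ContinuousAt Q (a + ℓ) →
      -(C * Real.exp (-(c * a))) ≤
        σ * ((Q (a + ℓ) - g (a + ℓ)) - (Q a - g a))

/-- from upper bounds -/
lemma limG_upper {g : ℝ → ℝ} {F : ℕ → ℝ → ℝ} {ℓ C c : ℝ}
    (h : ∀ a : ℝ, 0 < a → ∀ ε : ℝ, 0 < ε → ∀ᶠ j in atTop,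
      F j (a + ℓ) - F j a ≤ (g (a + ℓ) - g a) + (C * Real.exp (-(c * a)) + ε)) :
    LimG g F ℓ (-1) C c := by
  intro θ hθ Q hQ hlim a ha hca hcb
  have h3 : Tendsto (fun j => F (θ j) (a + ℓ) - F (θ j) a) atTop (𝓝 (Q (a + ℓ) - Q a)) :=
    (hlim _ hcb).sub (hlim _ hca)
  have h4 : Q (a + ℓ) - Q a ≤ (g (a + ℓ) - g a) + C * Real.exp (-(c * a)) := by
    apply le_of_forall_pos_sub_le
    intro ε hε
    have h5 : Q (a + ℓ) - Q a ≤ (g (a + ℓ) - g a) + (C * Real.exp (-(c * a)) + ε) :=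
      le_of_tendsto h3 (hθ.eventually (h a ha ε hε))
    linarith
  linarith

/-- from lower bounds for closed windows -/
lemma limG_lower {g : ℝ → ℝ} {F : ℕ → ℝ → ℝ} {ℓ C c : ℝ}
    (h : ∀ a : ℝ, 0 < a → ∀ δ : ℝ, 0 < δ → ∀ ε : ℝ, 0 < ε → ∀ᶠ j in atTop,
      (g (a + ℓ) - g a) - (C * Real.exp (-(c * a)) + ε) ≤ F j (a + ℓ) - F j (a - δ)) :
    LimG g F ℓ 1 C c := by
  intro θ hθ Q hQ hlim a ha hca hcb
  have hcnt : Set.Countable {u | ¬ ContinuousAt Q u} := hQ.countable_not_continuousAt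
  have hdense : Dense {u | ContinuousAt Q u} := by
    have : {u | ContinuousAt Q u} = {u | ¬ ContinuousAt Q u}ᶜ := by
      ext u; simp
    rw [this]
    exact hcnt.dense_compl ℝ
  have h4 : ∀ ε : ℝ, 0 < ε → (g (a + ℓ) - g a) - (C * Real.exp (-(c * a)) + ε) ≤
      Q (a + ℓ) - Q a := by
    intro ε hε
    obtain ⟨r, hr, hball⟩ := Metric.continuousAt_iff.1 hca (ε / 2) (by positivity)
    obtain ⟨b, hb1, hb2⟩ := hdense.exists_mem_open isOpen_Ioo
      (show (Ioo (a - r) a).Nonempty from ⟨a - r / 2, by constructor <;> linarith⟩)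
    have hδ : 0 < a - b := by linarith [hb2.2]
    have h5 := h a ha (a - b) hδ (ε / 2) (by positivity)
    rw [show a - (a - b) = b by ring] at h5
    have h3 : Tendsto (fun j => F (θ j) (a + ℓ) - F (θ j) b) atTop (𝓝 (Q (a + ℓ) - Q b)) :=
      (hlim _ hcb).sub (hlim _ hb1)
    have h6 := ge_of_tendsto h3 (hθ.eventually h5)
    have h7 : dist (Q b) (Q a) < ε / 2 := hball (by
      rw [Real.dist_eq, abs_sub_comm, abs_of_pos hδ]; linarith [hb2.1])
    rw [Real.dist_eq] at h7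
    have h8 := (abs_lt.1 h7).1
    linarith
  have h5 : (g (a + ℓ) - g a) - C * Real.exp (-(c * a)) ≤ Q (a + ℓ) - Q a := by
    apply le_of_forall_pos_sub_le
    intro ε hε
    have := h4 ε hε
    linarith
  linarith

/-- **the abstract core, windows of fixed lengths** -/
theorem core2G (hHELLY : S_HELLY) (hDEC : S_DEC) (hTESTE : S_TESTE)
    (hDET : S_DET) (hUNIQE : S_UNIQE) (hSHIFT : S_SHIFT) (hDIFF : S_DIFF) (hDENSE : S_DENSE)
    {g : ℝ → ℝ} {C1 : ℝ} (hg : MT g C1) {F : ℕ → ℝ → ℝ} {C0 : ℝ} (h : SeqG g F C0) (L : Set ℝ) (hL : ∀ ℓ ∈ L, 0 < ℓ)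
    (hdense : Dense (AddSubgroup.closure L : Set ℝ))
    (hwin : ∀ ℓ ∈ L, ∃ σ : ℝ, (σ = 1 ∨ σ = -1) ∧ ∃ C c : ℝ, 0 < c ∧ LimG g F ℓ σ C c) :
    ∀ u : ℝ, 0 < u → Tendsto (fun j => F j u) atTop (𝓝 (g u)) := by
  intro u0 hu0
  apply tendsto_of_subseq_tendsto
  intro ns hns
  have hF := h.sub hns
  obtain ⟨φ, Q, hφ, hQ, hlim, hm, hb, ho⟩ := limitG hHELLY hDEC hg hF
  refine ⟨φ, ?_⟩
  apply concludeG hg (F := fun j => F (ns j)) hQ hlim _ u0 hu0
  have hC0 : 0 ≤ C0 := by
    have := h.bd 0 0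
    simp at this
    exact (abs_nonneg _).trans this
  have hC1 : 0 ≤ C1 := by
    have := hg.bd 0 le_rfl
    simp at this
    exact (abs_nonneg _).trans this
  have hcnt : Set.Countable {u | ¬ ContinuousAt Q u} := hQ.countable_not_continuousAt
  have hcae : ∀ᵐ u : ℝ, ContinuousAt Q u := by
    rw [ae_iff]
    exact hcnt.measure_zero _
  have hpos : ∀ᵐ u ∂(volume.restrict (Ioi (0 : ℝ))), 0 < u := ae_restrict_mem measurableSet_Ioi
  set O := oeG g Q with hO
  have hOm : Measurable O := oeG_meas hg.cont hQ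
  have hOodd : ∀ u, O (-u) = -O u := oeG_odd g Q
  have hOb : ∀ᵐ u : ℝ, |O u| ≤ (C0 + C1) * (1 + |u|) := by
    have h1 : ∀ᵐ u ∂(volume.restrict (Ioi (0 : ℝ))), |O u| ≤ (C0 + C1) * (1 + |u|) := by
      filter_upwards [hb, hpos] with u g1 g2
      rw [hO, oeG_pos g2, abs_of_pos g2]
      exact g1
    refine ae_real h1 ?_
    filter_upwards [h1] with u g1
    rw [hOodd, abs_neg, abs_neg]
    exact g1
  have hOo : ∀ ψ, Tst ψ → ∫ u in Ioi (0 : ℝ), dt ψ u * O u = 0 := by
    intro ψ hψ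
    have hfun : Set.EqOn (fun u => dt ψ u * O u) (fun u => dt ψ u * (Q u - g u))
        (Ioi (0 : ℝ)) := by
      intro u hu
      show dt ψ u * O u = dt ψ u * (Q u - g u)
      rw [hO, oeG_pos hu]
    rw [setIntegral_congr_fun measurableSet_Ioi hfun]
    exact ho ψ hψ
  -- the periods
  have hper : ∀ ℓ ∈ L, ∀ᵐ u : ℝ, O (u + ℓ) = O u := by
    intro ℓ hℓ
    have hℓ0 := hL ℓ hℓ
    obtain ⟨σ, hσ, C, c, hc, hw⟩ := hwin ℓ hℓ
    have hσ0 : σ ≠ 0 := by rcases hσ with h | h <;> rw [h] <;> norm_num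
    have hσ1 : |σ| = 1 := by rcases hσ with h | h <;> rw [h] <;> norm_num
    set s : ℝ := ℓ / 2 with hs
    have hs0 : 0 < s := by positivity
    set E : ℝ → ℝ := fun v => O (v + s) - O (v - s) with hE
    have hEm : Measurable E := (hOm.comp (measurable_add_const s)).sub
      (hOm.comp (measurable_sub_const s))
    have hEe : ∀ v, E (-v) = E v := by
      intro v
      show O (-v + s) - O (-v - s) = O (v + s) - O (v - s)
      rw [show -v + s = -(v - s) by ring, show -v - s = -(v + s) by ring, hOodd, hOodd]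
      ring
    -- translates of a.e. statements
    have htr : ∀ (p : ℝ → Prop), (∀ᵐ u : ℝ, p u) → ∀ t : ℝ, ∀ᵐ v : ℝ, p (v + t) := fun p hp t =>
      (measurePreserving_add_right volume t).quasiMeasurePreserving.ae hp
    have hEb : ∀ᵐ v ∂(volume.restrict (Ioi (0 : ℝ))), |E v| ≤ 2 * (C0 + C1) * (1 + s) * (1 + v) := by
      filter_upwards [ae_restrict_of_ae (htr _ hOb s), ae_restrict_of_ae (htr _ hOb (-s)), hpos]
        with v g1 g2 g3
      have e1 : |v + s| ≤ v + s := by rw [abs_of_pos (by linarith)]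
      have e2 : |v + -s| ≤ v + s := by
        rw [abs_le]; constructor <;> linarith
      have e3 : |E v| ≤ |O (v + s)| + |O (v + -s)| := by
        show |O (v + s) - O (v - s)| ≤ _
        rw [sub_eq_add_neg v s]
        exact abs_sub _ _
      have e4 : (C0 + C1) * (1 + |v + s|) ≤ (C0 + C1) * ((1 + s) * (1 + v)) := by
        apply mul_le_mul_of_nonneg_left _ (by linarith)
        nlinarith
      have e5 : (C0 + C1) * (1 + |v + -s|) ≤ (C0 + C1) * ((1 + s) * (1 + v)) := by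
        apply mul_le_mul_of_nonneg_left _ (by linarith)
        nlinarith
      calc |E v| ≤ (C0 + C1) * ((1 + s) * (1 + v)) + (C0 + C1) * ((1 + s) * (1 + v)) := by linarith
        _ = _ := by ring
    set C2 : ℝ := 2 * (C0 + C1) * (1 + s) with hC2
    have hC20 : 0 ≤ C2 := by positivity
    set C' : ℝ := max (C2 * (1 + s) * Real.exp (c * s)) (C * Real.exp (c * s)) with hC'
    have hC'2 : C2 ≤ C' := by
      refine le_trans ?_ (le_max_left _ _)
      have h1 : (1 : ℝ) ≤ Real.exp (c * s) := Real.one_le_exp (by positivity)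
      calc C2 = C2 * 1 * 1 := by ring
        _ ≤ C2 * (1 + s) * Real.exp (c * s) := by gcongr; linarith
    have hσEb : ∀ᵐ v ∂(volume.restrict (Ioi (0 : ℝ))), |σ * E v| ≤ C' * (1 + v) := by
      filter_upwards [hEb, hpos] with v g1 g2
      rw [abs_mul, hσ1, one_mul]
      exact g1.trans (mul_le_mul_of_nonneg_right hC'2 (by linarith))
    have hσE : ∀ᵐ v ∂(volume.restrict (Ioi (0 : ℝ))),
        -(C' * Real.exp (-(c * v))) ≤ σ * E v := by
      filter_upwards [ae_restrict_of_ae (htr _ hcae s), ae_restrict_of_ae (htr _ hcae (-s)),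
        hpos, hEb] with v g1 g2 g3 g4
      rcases le_or_gt v s with hvs | hvs
      · have h1 : |σ * E v| ≤ C2 * (1 + s) := by
          rw [abs_mul, hσ1, one_mul]
          exact g4.trans (mul_le_mul_of_nonneg_left (by linarith) hC20)
        have h2 : C2 * (1 + s) ≤ C' * Real.exp (-(c * v)) := by
          calc C2 * (1 + s) = C2 * (1 + s) * 1 := by ring
            _ ≤ C2 * (1 + s) * (Real.exp (c * s) * Real.exp (-(c * v))) := by
                apply mul_le_mul_of_nonneg_left _ (by positivity)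
                rw [← Real.exp_add]
                apply Real.one_le_exp
                nlinarith
            _ = C2 * (1 + s) * Real.exp (c * s) * Real.exp (-(c * v)) := by ring
            _ ≤ C' * Real.exp (-(c * v)) :=
                mul_le_mul_of_nonneg_right (le_max_left _ _) (Real.exp_pos _).le
        have h3 := (abs_le.1 h1).1
        linarith
      · set a : ℝ := v + -s with ha
        have ha0 : 0 < a := by rw [ha]; linarith
        have hal : a + ℓ = v + s := by rw [ha, hs]; ring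
        have hca : ContinuousAt Q a := g2
        have hcb : ContinuousAt Q (a + ℓ) := by rw [hal]; exact g1
        have h4 := hw (fun j => ns (φ j)) (hns.comp hφ.tendsto_atTop) Q hQ hlim a ha0 hca hcb
        have h5 : E v = (Q (a + ℓ) - g (a + ℓ)) - (Q a - g a) := by
          show O (v + s) - O (v - s) = _
          rw [sub_eq_add_neg v s, ← hal, ← ha, hO, oeG_pos ha0, oeG_pos (by linarith)]
        rw [h5]
        refine le_trans ?_ h4
        have h6 : C * Real.exp (-(c * a)) ≤ C' * Real.exp (-(c * v)) := by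
          have e1 : -(c * a) = c * s + -(c * v) := by rw [ha]; ring
          rw [e1, Real.exp_add, ← mul_assoc]
          exact mul_le_mul_of_nonneg_right (le_max_right _ _) (Real.exp_pos _).le
        linarith
    have hσo : ∀ ψ, Tst ψ → ∫ u in Ioi (0 : ℝ), ct ψ u * (σ * E u) = 0 := by
      intro ψ hψ
      have h1 := hDIFF hDEC hSHIFT O hOm hOodd (C0 + C1) hOb hOo s hs0 ψ hψ
      have : ∀ u, ct ψ u * (σ * E u) = σ * (ct ψ u * (O (u + s) - O (u - s))) := by
        intro u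
        show ct ψ u * (σ * (O (u + s) - O (u - s))) = _
        ring
      simp_rw [this]
      rw [integral_const_mul, h1, mul_zero]
    have h0 := hUNIQE hTESTE hDET (fun v => σ * E v) (hEm.const_mul _) C' c hc hσEb hσE hσo
    have h1 : ∀ᵐ v ∂(volume.restrict (Ioi (0 : ℝ))), E v = 0 := by
      filter_upwards [h0] with v g
      exact (mul_eq_zero.1 g).resolve_left hσ0
    have h2 : ∀ᵐ v : ℝ, E v = 0 := by
      refine ae_real h1 ?_
      filter_upwards [h1] with v g
      rw [hEe]; exact g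
    have h3 := htr _ h2 s
    filter_upwards [h3] with u g
    have g' : O (u + s + s) - O (u + s - s) = 0 := g
    rw [show u + s + s = u + ℓ by rw [hs]; ring, show u + s - s = u by ring] at g'
    linarith
  have hfin := hDENSE O Q g hOodd hQ hg.cont (fun u hu => by rw [hO, oeG_pos hu]) L hdense hper
  filter_upwards [hpos] with u hu
  rw [hfin u hu, sub_self]


end W207.PU
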