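import Pool.Agent.W335.SD.SMel
import Pool.Agent.W32.SD.SMelG
import Pool.Agent.W352.SD.SPlan
import Pool.Agent.W261.SD.SGamLow
import Pool.Agent.W356.SD.Big
import Pool.Agent.W108.SD.SRep
import Pool.Agent.W85.SD.Small
import Pool.Agent.W688.SD.SAN
import Pool.Agent.W688.SD.SFour
import Pool.Agent.W613.SD.SCsum
import Pool.Agent.W978.SD.InvZ
import Pool.Agent.W368.SD.SMo
import Pool.Agent.W557.SDSPhi
import Pool.Agent.W131.SDSMV
import Pool.Agent.W356.SD.C1
import Pool.Agent.W261.SD.SSq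
import Pool.Agent.W688.SD.SHar
import Pool.Agent.W655.SD.SC2
import Pool.Agent.W327.SD.SFar
import Pool.Agent.W32.SD.SCount
import Pool.Agent.W125.SD.SUnit
import Pool.Agent.W347.SD.SB2
import Pool.Agent.W358.PU.Good
import Pool.Agent.W469.PU.XZ
import Pool.Agent.W337.PU.MB

/-! # The moment bound for the zeros in a cell -/

set_option autoImplicit false

namespace W207.PU

open Pool.Agent.H24R2.DZ

theorem a_san : SAN := Pool.Agent.W688.SD.san (Pool.Agent.W32.SD.smelG Pool.W335.SD.smel)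
  Pool.Agent.W352.SD.splan Pool.Agent.W261.SD.sgamlow Pool.Agent.W356.SD.sbig
  Pool.Agent.W108.SD.srep Pool.Agent.W85.SD.ssmall

theorem a_smo : SMo := Pool.Agent.W368.SD.smo Pool.Agent.W688.SD.sfour Pool.Agent.W613.SD.scsum
  Pool.Agent.W978.SInvZ.sinvz

theorem a_smv1 : SMV1 := Pool.Agent.W131.SMV.smv1 a_san a_smo Pool.Agent.W557.SDSPhi.sphi

theorem a_smv2 : SMV2 := Pool.Agent.W131.SMV.smv2 a_san a_smo Pool.Agent.W557.SDSPhi.sphi

theorem a_sc1 : SC1 := Pool.Agent.W356.SD.sc1 a_smv1 a_smv2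

theorem a_sc2 : SC2 := Pool.Agent.W655.SD.sc2 Pool.Agent.W261.SD.ssq Pool.Agent.W688.SD.shar

theorem a_good : GOOD := Pool.Agent.W358.PU.good a_sc1 a_sc2
  (Pool.Agent.W32.SD.scount Pool.Agent.W347.SD.sb2) W327.SD.sfar

theorem a_mb : MB := Pool.Agent.W337.PU.mb Pool.Agent.W469.PU.xz a_good
  (Pool.Agent.W125.SD.sunit Pool.Agent.W347.SD.sb2)

end W207.PU
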