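import Pool.Agent.W207.PU.Blk2
import Pool.Agent.W605.PR.Mono

/-! # Blocks: scaled test functions -/

set_option autoImplicit false

open Complex Filter Topology Set MeasureTheory
open scoped BigOperators

namespace W207.PU

open W207.PR (Tst ct dt MM G X P D SP S_CELL S_DEC)
open H370 (Zf mult)

lemma ct_sc {ψ : ℝ → ℝ} {R : ℝ} (hR : 0 < R) (x : ℝ) : ct (sc R ψ) x = ct ψ (x / R) := by
  unfold ct sc
  have h := Measure.integral_comp_mul_left
    (fun a : ℝ => ψ a * Real.cos (2 * Real.pi * a * (x / R))) R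
  rw [smul_eq_mul, abs_of_pos (inv_pos.2 hR)] at h
  have h2 : ∫ α : ℝ, R * ψ (R * α) * Real.cos (2 * Real.pi * α * x) =
      R * ∫ α : ℝ, ψ (R * α) * Real.cos (2 * Real.pi * (R * α) * (x / R)) := by
    rw [← integral_const_mul]
    congr 1
    ext α
    rw [show 2 * Real.pi * (R * α) * (x / R) = 2 * Real.pi * α * x by field_simp]
    ring
  rw [h2, h, ← mul_assoc, mul_inv_cancel₀ hR.ne', one_mul]

lemma ctc_sc {ψ : ℝ → ℝ} {R : ℝ} (hR : 0 < R) (z : ℂ) : ctc (sc R ψ) z = ctc ψ (z / R) := by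
  unfold ctc sc
  have hRc : (R : ℂ) ≠ 0 := by exact_mod_cast hR.ne'
  have h := Measure.integral_comp_mul_left
    (fun a : ℝ => (ψ a : ℂ) * Complex.cos (2 * Real.pi * a * (z / R))) R
  rw [abs_of_pos (inv_pos.2 hR)] at h
  have h2 : ∫ α : ℝ, ((R * ψ (R * α) : ℝ) : ℂ) * Complex.cos (2 * Real.pi * α * z) =
      (R : ℂ) * ∫ α : ℝ, (ψ (R * α) : ℂ) * Complex.cos (2 * Real.pi * ((R * α : ℝ) : ℂ) * (z / R)) := by
    rw [← integral_const_mul]
    congr 1
    ext α
    rw [show 2 * (Real.pi : ℂ) * ((R * α : ℝ) : ℂ) * (z / R) = 2 * Real.pi * α * z by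
      push_cast; field_simp]
    push_cast
    ring
  rw [h2, h, Complex.real_smul, ← mul_assoc]
  push_cast
  rw [mul_inv_cancel₀ hRc, one_mul]

theorem blk1 : S_BLK1 := by
  classical
  intro hMB hSCH hAN hBLKC ψ hψ
  obtain ⟨κ, C, V0, hκ, hC0, hV0, hcells⟩ := cells hMB
  obtain ⟨Cs, hCs, hsch⟩ := hSCH
  have hpi := Real.pi_pos
  have hpi3 := Real.pi_gt_three
  obtain ⟨μ, hμ0, hμ1, hsupp⟩ := hψ.supp
  obtain ⟨Ca, hCa, han⟩ := hAN ψ μ hψ hμ0 hμ1 hsupp
  set K : ℝ := 8 * Ca / κ ^ 2 with hK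
  have hK0 : 0 < K := by positivity
  refine ⟨K * Cs * (2 * Real.pi) ^ 2 * C + 1, max 1 (2 / κ), by positivity, le_max_left _ _,
    fun R hRm => ?_⟩
  have hR1 : 1 ≤ R := (le_max_left _ _).trans hRm
  have hRκ : 2 / κ ≤ R := (le_max_right _ _).trans hRm
  have hR0 : 0 < R := by linarith
  have hψR : Tst (sc R ψ) := Pool.Agent.W605.PR.tst_scale hψ hR1
  have hBC := hBLKC (sc R ψ) hψR
  rw [Metric.tendsto_nhds] at hBC
  filter_upwards [hBC (1 / R) (by positivity), eventually_ge_atTop V0,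
    Real.tendsto_log_atTop.eventually_ge_atTop (2 * Real.pi * R)] with V hb hVV0 hL2
  have hV10 : 10 ≤ V := hV0.trans hVV0
  set L := Real.log V with hL
  have hL0 : 0 < L := Real.log_pos (by linarith)
  have hX : 0 < X V := by unfold X; positivity
  set Z := Zf riemannZeta (V + 1) (2 * V - 1) with hZ
  set lam : ℝ := L / (2 * Real.pi * R) with hlam
  have hlam1 : 1 ≤ lam := by rw [hlam, le_div_iff₀ (by positivity)]; linarith
  obtain ⟨hc4, hc2, hcc⟩ := hcells V hVV0
  have hwt : ∀ s : ℂ, 0 ≤ wt κ V s := fun s => by unfold wt; positivity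
  have hsum := hsch Z (fun s => s.im * L) (wt κ V) hwt (2 * Real.pi * R) (by nlinarith)
  set E : ℝ := ∑ s ∈ Z, ∑ s' ∈ Z, wt κ V s * wt κ V s' *
    ((1 + |s.im * L - s'.im * L| / (2 * Real.pi * R))⁻¹) ^ 2 with hE
  have hE1 : E ≤ Cs * (2 * Real.pi * R) * (C * (V * L)) := by
    refine hsum.trans ?_
    apply mul_le_mul_of_nonneg_left hc2 (by positivity)
  -- the pairs
  have hpair : ∀ s s' : ℂ, s ∈ Z → s' ∈ Z →
      |(mult riemannZeta s : ℝ) * (mult riemannZeta s' : ℝ) *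
        (hR ψ lam (s.im - s'.im) - hC ψ lam (s.im - s'.im) (s.re - s'.re))| ≤
      K / R ^ 2 * (wt κ V s * wt κ V s' *
        ((1 + |s.im * L - s'.im * L| / (2 * Real.pi * R))⁻¹) ^ 2) := by
    intro s s' hs hs'
    have hm1 : (0 : ℝ) ≤ (mult riemannZeta s : ℝ) := Nat.cast_nonneg _
    have hm2 : (0 : ℝ) ≤ (mult riemannZeta s' : ℝ) := Nat.cast_nonneg _
    have hr1 := (H332B.Step.mem_Zb (V + 1) (2 * V - 1) (by linarith) s).1 hs
    have hr2 := (H332B.Step.mem_Zb (V + 1) (2 * V - 1) (by linarith) s').1 hs'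
    have hb1 : |s.re - s'.re| ≤ 1 := by
      rw [abs_le]; constructor <;> linarith [hr1.1, hr1.2.1, hr2.1, hr2.2.1]
    obtain ⟨a1, -, -⟩ := han lam (s.im - s'.im) (s.re - s'.re) hlam1 hb1
    rw [abs_mul, abs_of_nonneg (mul_nonneg hm1 hm2), abs_sub_comm]
    set b : ℝ := |s.re - s'.re| with hbdef
    have hb0 : 0 ≤ b := abs_nonneg _
    -- the exponential factor
    have h1 : ((s.re - s'.re) * lam) ^ 2 ≤ 8 / κ ^ 2 / R ^ 2 * Real.exp (κ / 2 * L * b) := by
      have h2 : ((s.re - s'.re) * lam) ^ 2 = (b * L) ^ 2 / (2 * Real.pi * R) ^ 2 := by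
        rw [hlam, hbdef, mul_pow, mul_pow, sq_abs]
        field_simp
      rw [h2]
      have hx : 0 ≤ κ / 2 * L * b := by positivity
      have h3 : (κ / 2 * L * b) ^ 2 ≤ 2 * Real.exp (κ / 2 * L * b) := by
        have := Real.quadratic_le_exp_of_nonneg hx
        nlinarith
      have h4 : (b * L) ^ 2 = 4 / κ ^ 2 * (κ / 2 * L * b) ^ 2 := by field_simp; ring
      rw [h4]
      calc 4 / κ ^ 2 * (κ / 2 * L * b) ^ 2 / (2 * Real.pi * R) ^ 2 ≤
          4 / κ ^ 2 * (2 * Real.exp (κ / 2 * L * b)) / R ^ 2 := by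
            have h5 : R ^ 2 ≤ (2 * Real.pi * R) ^ 2 := by
              apply pow_le_pow_left₀ hR0.le
              nlinarith
            gcongr
        _ = _ := by ring
    have h2 : Real.exp (2 * Real.pi * μ * lam * b) ≤ Real.exp (κ / 2 * L * b) := by
      apply Real.exp_le_exp.2
      have h3 : 2 * Real.pi * μ * lam * b = μ / R * (L * b) := by
        rw [hlam]; field_simp
      have h4 : μ / R ≤ κ / 2 := by
        rw [div_le_iff₀ hR0]
        rw [div_le_iff₀ hκ] at hRκ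
        nlinarith
      rw [h3]
      calc μ / R * (L * b) ≤ κ / 2 * (L * b) := by gcongr
        _ = _ := by ring
    have h3 : Real.exp (κ / 2 * L * b) * Real.exp (κ / 2 * L * b) ≤
        Real.exp (κ * |s.re - 1 / 2| * L) * Real.exp (κ * |s'.re - 1 / 2| * L) := by
      rw [← Real.exp_add, ← Real.exp_add]
      apply Real.exp_le_exp.2
      have h10 := re_diff s s'
      calc κ / 2 * L * b + κ / 2 * L * b = κ * L * b := by ring
        _ ≤ κ * L * (|s.re - 1 / 2| + |s'.re - 1 / 2|) := by gcongr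
        _ = _ := by ring
    have h4 : 1 + lam * |s.im - s'.im| = 1 + |s.im * L - s'.im * L| / (2 * Real.pi * R) := by
      rw [← sub_mul, abs_mul, abs_of_pos hL0, hlam]
      ring
    rw [h4] at a1
    set y : ℝ := ((1 + |s.im * L - s'.im * L| / (2 * Real.pi * R))⁻¹) ^ 2 with hy
    have hy0 : 0 ≤ y := sq_nonneg _
    calc (mult riemannZeta s : ℝ) * (mult riemannZeta s' : ℝ) *
        |hC ψ lam (s.im - s'.im) (s.re - s'.re) - hR ψ lam (s.im - s'.im)| ≤
        (mult riemannZeta s : ℝ) * (mult riemannZeta s' : ℝ) *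
          (Ca * ((s.re - s'.re) * lam) ^ 2 * Real.exp (2 * Real.pi * μ * lam * b) * y) :=
          mul_le_mul_of_nonneg_left a1 (mul_nonneg hm1 hm2)
      _ ≤ (mult riemannZeta s : ℝ) * (mult riemannZeta s' : ℝ) *
          (Ca * (8 / κ ^ 2 / R ^ 2 * Real.exp (κ / 2 * L * b)) *
            Real.exp (κ / 2 * L * b) * y) := by gcongr
      _ = (mult riemannZeta s : ℝ) * (mult riemannZeta s' : ℝ) *
          (Ca * (8 / κ ^ 2 / R ^ 2) * (Real.exp (κ / 2 * L * b) *
            Real.exp (κ / 2 * L * b)) * y) := by ring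
      _ ≤ (mult riemannZeta s : ℝ) * (mult riemannZeta s' : ℝ) *
          (Ca * (8 / κ ^ 2 / R ^ 2) * (Real.exp (κ * |s.re - 1 / 2| * L) *
            Real.exp (κ * |s'.re - 1 / 2| * L)) * y) := by gcongr
      _ = K / R ^ 2 * (((mult riemannZeta s : ℝ) * Real.exp (κ * |s.re - 1 / 2| * L)) *
            ((mult riemannZeta s' : ℝ) * Real.exp (κ * |s'.re - 1 / 2| * L)) * y) := by
          rw [hK]; ring
      _ = _ := rfl
  have hdiff : |W201FW.SS (ct (sc R ψ)) (V + 1) (2 * V - 1) L -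
      SC (sc R ψ) (L / (2 * Real.pi)) (V + 1) (2 * V - 1)| ≤ K / R ^ 2 * E := by
    rw [SS_sub_SC ψ (sc R ψ) (V + 1) (2 * V - 1) L lam (L / (2 * Real.pi))]
    · refine (Finset.abs_sum_le_sum_abs _ _).trans ?_
      rw [hE, Finset.mul_sum]
      refine Finset.sum_le_sum fun s hs => ?_
      refine (Finset.abs_sum_le_sum_abs _ _).trans ?_
      rw [Finset.mul_sum]
      exact Finset.sum_le_sum fun s' hs' => hpair s s' hs hs'
    · intro d
      rw [ct_sc hR0, hlam]
      congr 1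
      field_simp
    · intro d b
      unfold hC
      rw [ctc_sc hR0]
      congr 3
      rw [hlam]
      push_cast
      have hRc : (R : ℂ) ≠ 0 := by exact_mod_cast hR0.ne'
      have hpc : (Real.pi : ℂ) ≠ 0 := by exact_mod_cast hpi.ne'
      field_simp
  rw [Real.dist_eq] at hb
  have h1 : |W201FW.SS (ct (sc R ψ)) (V + 1) (2 * V - 1) L / X V -
      SC (sc R ψ) (L / (2 * Real.pi)) (V + 1) (2 * V - 1) / X V| ≤
      K * Cs * (2 * Real.pi) ^ 2 * C / R := by
    rw [← sub_div, abs_div, abs_of_pos hX, div_le_iff₀ hX]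
    refine hdiff.trans ?_
    calc K / R ^ 2 * E ≤ K / R ^ 2 * (Cs * (2 * Real.pi * R) * (C * (V * L))) := by gcongr
      _ = K * Cs * (2 * Real.pi) ^ 2 * C / R * X V := by
        unfold X
        rw [← hL]
        field_simp
  calc |W201FW.SS (ct (sc R ψ)) (V + 1) (2 * V - 1) L / X V - MM (sc R ψ)| =
      |(W201FW.SS (ct (sc R ψ)) (V + 1) (2 * V - 1) L / X V -
        SC (sc R ψ) (L / (2 * Real.pi)) (V + 1) (2 * V - 1) / X V) +
        (SC (sc R ψ) (L / (2 * Real.pi)) (V + 1) (2 * V - 1) / X V - MM (sc R ψ))| := by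
          congr 1; ring
    _ ≤ _ := abs_add_le _ _
    _ ≤ K * Cs * (2 * Real.pi) ^ 2 * C / R + 1 / R := add_le_add h1 hb.le
    _ = _ := by ring

end W207.PU
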