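import Pool.Agent.W207.PU.Det

/-! Montgomery's theorem for a block, unconditional. -/

open Complex Filter Topology Set MeasureTheory
open scoped BigOperators ComplexConjugate

namespace W207.PU

open H370 H370.A2
open W207.PR (Tst ct dt MM G X)

lemma ctc_exp {ψ : ℝ → ℝ} (hψ : Tst ψ) (θ : ℂ) :
    (Integrable fun α : ℝ => (ψ α : ℂ) * cexp (I * (α * θ))) ∧
    ∫ α : ℝ, (ψ α : ℂ) * cexp (I * (α * θ)) = ctc ψ (θ / (2 * Real.pi)) := by
  obtain ⟨μ, hμ0, hμ1, hsupp⟩ := hψ.supp
  have hcont : Continuous ψ := (hψ.smooth 1).continuous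
  have hcs : HasCompactSupport ψ := by
    apply HasCompactSupport.intro (isCompact_Icc (a := -μ) (b := μ))
    intro x hx
    apply hsupp
    by_contra hc
    push Not at hc
    exact hx (abs_le.1 hc.le)
  have hcs' : HasCompactSupport fun x => (ψ x : ℂ) := hcs.comp_left (g := fun y : ℝ => (y : ℂ)) (by simp)
  have hint : ∀ g : ℝ → ℂ, Continuous g → Integrable fun α : ℝ => (ψ α : ℂ) * g α := by
    intro g hg
    exact Continuous.integrable_of_hasCompactSupport (by fun_prop) (hcs'.mul_right)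
  have h1 := hint (fun α => cexp (I * (α * θ))) (by fun_prop)
  refine ⟨h1, ?_⟩
  have hpi : (Real.pi : ℂ) ≠ 0 := by exact_mod_cast Real.pi_ne_zero
  have hcos := hint (fun α => Complex.cos (α * θ)) (by fun_prop)
  have hsin := hint (fun α => Complex.sin (α * θ)) (by fun_prop)
  have hs0 : ∫ α : ℝ, (ψ α : ℂ) * Complex.sin (α * θ) = 0 := by
    have h2 : ∫ α : ℝ, (ψ α : ℂ) * Complex.sin (α * θ) =
        ∫ α : ℝ, (ψ (-α) : ℂ) * Complex.sin (((-α : ℝ) : ℂ) * θ) :=
      (integral_neg_eq_self (fun α : ℝ => (ψ α : ℂ) * Complex.sin (α * θ)) volume).symm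
    have h3 : ∫ α : ℝ, (ψ (-α) : ℂ) * Complex.sin (((-α : ℝ) : ℂ) * θ) =
        -∫ α : ℝ, (ψ α : ℂ) * Complex.sin (α * θ) := by
      rw [← integral_neg]
      congr 1
      ext α
      rw [hψ.even]
      push_cast
      rw [neg_mul, Complex.sin_neg]
      ring
    rw [h3] at h2
    have h4 : (2 : ℂ) * ∫ α : ℝ, (ψ α : ℂ) * Complex.sin (α * θ) = 0 := by
      linear_combination h2
    simpa using h4
  have h5 : ∀ α : ℝ, (ψ α : ℂ) * cexp (I * (α * θ)) =
      (ψ α : ℂ) * Complex.cos (α * θ) + I * ((ψ α : ℂ) * Complex.sin (α * θ)) := by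
    intro α
    rw [mul_comm I, Complex.exp_mul_I]
    ring
  simp_rw [h5]
  rw [integral_add hcos (hsin.const_mul I), integral_const_mul, hs0, mul_zero, add_zero]
  unfold ctc
  congr 1
  ext α
  congr 2
  field_simp

lemma int_SC {ψ : ℝ → ℝ} (hψ : Tst ψ) {A B : ℝ} (hA : 1 ≤ A) (L : ℝ) :
    ∫ α : ℝ, ψ α * JN riemannZeta A B (α * L) = SC ψ (L / (2 * Real.pi)) A B := by
  have hpi : Real.sqrt Real.pi ≠ 0 := by positivity
  have hJN : ∀ u : ℝ, JN riemannZeta A B u = ∑ s ∈ Zf riemannZeta A B, ∑ s' ∈ Zf riemannZeta A B,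
      (((mult riemannZeta s : ℝ) * (mult riemannZeta s' : ℝ) : ℝ) *
        (cexp (I * u * (zz s - zz s')) * cexp (-(zz s - zz s') ^ 2 / 4)) : ℂ).re := by
    intro u
    have h1 := congrArg Complex.re (JJ_eq (U2 := B) good_zeta hA u)
    rw [Complex.ofReal_re, Complex.re_ofReal_mul, Complex.re_sum] at h1
    unfold JN
    rw [h1, mul_div_assoc, mul_comm, div_mul_cancel₀ _ hpi]
    refine Finset.sum_congr rfl fun s hs => ?_
    rw [Complex.re_sum]
    refine Finset.sum_congr rfl fun s' hs' => ?_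
    push_cast
    rfl
  have hzz : ∀ s s' : ℂ, zz s - zz s' = ((s.im - s'.im : ℝ) : ℂ) - ((s.re - s'.re : ℝ) : ℂ) * I := by
    intro s s'
    unfold zz
    apply Complex.ext
    · simp
      ring
    · simp
  have hpair : ∀ s s' : ℂ,
      (Integrable fun α : ℝ => ψ α * (((mult riemannZeta s : ℝ) * (mult riemannZeta s' : ℝ) : ℝ) *
        (cexp (I * (α * L : ℝ) * (zz s - zz s')) * cexp (-(zz s - zz s') ^ 2 / 4)) : ℂ).re) ∧
      ∫ α : ℝ, ψ α * (((mult riemannZeta s : ℝ) * (mult riemannZeta s' : ℝ) : ℝ) *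
        (cexp (I * (α * L : ℝ) * (zz s - zz s')) * cexp (-(zz s - zz s') ^ 2 / 4)) : ℂ).re =
      (mult riemannZeta s : ℝ) * (mult riemannZeta s' : ℝ) *
        hC ψ (L / (2 * Real.pi)) (s.im - s'.im) (s.re - s'.re) := by
    intro s s'
    set m : ℝ := (mult riemannZeta s : ℝ) * (mult riemannZeta s' : ℝ) with hm
    set E : ℂ := cexp (-(zz s - zz s') ^ 2 / 4) with hE
    obtain ⟨g1, g2⟩ := ctc_exp hψ (L * (zz s - zz s'))
    have e1 : ∀ α : ℝ, ψ α * ((m : ℂ) * (cexp (I * (α * L : ℝ) * (zz s - zz s')) * E)).re =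
        (((m : ℂ) * E) * ((ψ α : ℂ) * cexp (I * (α * (L * (zz s - zz s')))))).re := by
      intro α
      rw [← Complex.re_ofReal_mul]
      congr 1
      have : I * ((α * L : ℝ) : ℂ) * (zz s - zz s') = I * (α * (L * (zz s - zz s'))) := by
        push_cast; ring
      rw [this]
      ring
    have g3 : Integrable fun α : ℝ =>
        ((m : ℂ) * E) * ((ψ α : ℂ) * cexp (I * (α * (L * (zz s - zz s'))))) := g1.const_mul _
    constructor
    · simp_rw [e1]
      exact g3.re
    · simp_rw [e1]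
      have h6 := integral_re g3
      simp only [RCLike.re_to_complex] at h6
      rw [h6, integral_const_mul, g2]
      unfold hC
      rw [← hzz, mul_assoc, Complex.re_ofReal_mul]
      congr 2
      rw [mul_comm]
      congr 2
      have hpi' : (Real.pi : ℂ) ≠ 0 := by exact_mod_cast Real.pi_ne_zero
      push_cast
      ring
  simp_rw [hJN, Finset.mul_sum]
  rw [integral_finsetSum _ fun s _ => integrable_finsetSum _ fun s' _ => (hpair s s').1]
  unfold SC
  refine Finset.sum_congr rfl fun s _ => ?_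
  rw [integral_finsetSum _ fun s' _ => (hpair s s').1]
  exact Finset.sum_congr rfl fun s' _ => (hpair s s').2

theorem blkc : S_BLKC := by
  intro ψ hψ
  have hpi := Real.pi_pos
  obtain ⟨μ, hμ0, hμ1, hsupp⟩ := hψ.supp
  have hcont : Continuous ψ := (hψ.smooth 1).continuous
  have hdiff : Differentiable ℝ ψ := (hψ.smooth 1).differentiable (by norm_num)
  have hcd : Continuous (deriv ψ) := (hψ.smooth 1).continuous_deriv (by norm_num)
  have hcs : HasCompactSupport ψ := by
    apply HasCompactSupport.intro (isCompact_Icc (a := -μ) (b := μ))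
    intro x hx
    apply hsupp
    by_contra hc
    push Not at hc
    exact hx (abs_le.1 hc.le)
  obtain ⟨K, hK⟩ := hcd.bounded_above_of_compact_support hcs.deriv
  have hlip : ∀ x y, |ψ x - ψ y| ≤ K * |x - y| := by
    intro x y
    have := Convex.norm_image_sub_le_of_norm_deriv_le (f := ψ) (s := Set.univ) (C := K)
      (fun z _ => hdiff z) (fun z _ => hK z) convex_univ (Set.mem_univ y) (Set.mem_univ x)
    simpa [Real.norm_eq_abs] using this
  -- integrals over `ℝ` and over `(-μ, μ)`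
  have hI : ∀ f : ℝ → ℝ, (∫ x in (-μ)..μ, ψ x * f x) = ∫ x, ψ x * f x := by
    intro f
    rw [intervalIntegral.integral_of_le (by linarith)]
    apply setIntegral_eq_integral_of_forall_compl_eq_zero
    intro x hx
    have : μ ≤ |x| := by
      by_contra hc
      push Not at hc
      obtain ⟨h1, h2⟩ := abs_lt.1 hc
      exact hx ⟨h1, h2.le⟩
    rw [hsupp x this, zero_mul]
  have hMM : ψ 0 + ∫ α in (-μ)..μ, |α| * ψ α = MM ψ := by
    unfold MM
    congr 1
    have := hI (fun x => |x|)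
    simp only [mul_comm (ψ _)] at this
    exact this
  rw [Metric.tendsto_nhds]
  intro ε hε
  obtain ⟨T0, hT0, hdet⟩ := det_psi μ (ε / 2) hμ0 hμ1 (by positivity) ψ K hlip hsupp
  have hlim : Tendsto (fun T : ℝ => (T - 2) / T * MM ψ) atTop (𝓝 (MM ψ)) := by
    have h1 : Tendsto (fun T : ℝ => (1 - 2 / T) * MM ψ) atTop (𝓝 ((1 - 0) * MM ψ)) :=
      (tendsto_const_nhds.sub (tendsto_const_nhds.div_atTop tendsto_id)).mul tendsto_const_nhds
    rw [sub_zero, one_mul] at h1
    refine h1.congr' ?_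
    filter_upwards [eventually_gt_atTop (0 : ℝ)] with T hT
    field_simp
  filter_upwards [eventually_ge_atTop T0, eventually_ge_atTop (10 : ℝ),
    (Metric.tendsto_nhds.1 hlim (ε / 2) (by positivity))] with T hT1 hT2 hT3
  have h := hdet T hT1
  rw [hI, int_SC hψ (by linarith : (1 : ℝ) ≤ T + 1), hMM] at h
  have hlog : 0 < Real.log T := Real.log_pos (by linarith)
  have hX : 0 < X T := by
    unfold X
    positivity
  have e1 : (2 * T - 1 - (T + 1)) * Real.log T / (2 * Real.pi) = (T - 2) / T * X T := by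
    unfold X
    field_simp
    ring
  rw [e1] at h
  rw [Real.dist_eq]
  rw [Real.dist_eq] at hT3
  set S := SC ψ (Real.log T / (2 * Real.pi)) (T + 1) (2 * T - 1)
  have h4 : |S / X T - (T - 2) / T * MM ψ| ≤ ε / 2 := by
    have e3 : S / X T - (T - 2) / T * MM ψ = (S - (T - 2) / T * X T * MM ψ) / X T := by
      field_simp
    rw [e3, abs_div, abs_of_pos hX, div_le_iff₀ hX]
    refine h.trans ?_
    have h5 : (T - 2) / T ≤ 1 := by
      rw [div_le_one (by linarith)]
      linarith
    have h6 : 0 ≤ (T - 2) / T := div_nonneg (by linarith) (by linarith)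
    have : (T - 2) / T * X T ≤ X T := by nlinarith
    nlinarith
  calc |S / X T - MM ψ| ≤ |S / X T - (T - 2) / T * MM ψ| + |(T - 2) / T * MM ψ - MM ψ| :=
        abs_sub_le _ _ _
    _ < ε := by linarith

end W207.PU
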