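import Pool.Agent.W207.PU.WinU
import Pool.Agent.W207.PU.Blk1
import Pool.Agent.W207.PU.Blkc
import Pool.Agent.W207.PU.AllA
import Pool.Agent.W333.PR.Cell
import Pool.Agent.W578.PR.Dec
import Pool.Agent.W32.PR.Ibg
import Pool.Agent.W973.PR.Helly
import Pool.Agent.W613.PR.Test
import Pool.Agent.W125.PR.Det
import Pool.Agent.W417.PR.Uniq
import Pool.Agent.W345.PR.Ibp
import Pool.Agent.W340.PR.TestE
import Pool.Agent.W346.PR.Shift
import Pool.Agent.W417.PR.UniqE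
import Pool.Agent.W515.PR.Dense
import Pool.Agent.W335.PU.SCH
import Pool.Agent.W347.PU.An

/-! # The unconditional theorems -/

open Complex Filter Topology Set MeasureTheory
open scoped BigOperators

namespace W207.PU

open W207.PR

theorem inp : Inp :=
  ⟨W333.PR.cell, ubu W333.PR.cell (ub1 a_mb), Pool.Agent.W578.PR.dec, Pool.Agent.W345.PR.ibp,
    Pool.Agent.W32.PR.ibg, W973.PR.helly, Pool.Agent.W613.PR.test, W125.PR.det,
    Pool.Agent.W417.PR.uniq, blk1 a_mb Pool.W335.PU.sch Pool.Agent.W347.PU.an blkc,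
    blk2 a_mb Pool.W335.PU.scho Pool.Agent.W347.PU.an blkc⟩

theorem inpW : InpW :=
  ⟨Pool.Agent.W340.PR.teste, Pool.Agent.W417.PR.uniqe, Pool.Agent.W346.PR.shift,
    Pool.Agent.W346.PR.diff, Pool.Agent.W515.PR.dense_periods⟩

theorem mainU (l : Filter ℝ) [l.IsCountablyGenerated] (hl : l ≤ atTop) :
    (PCC l ↔ Lower l) ∧ (PCC l ↔ (AL l ∧ UpperU l)) ∧
    (PCC l → Tendsto (fun T => (Nso T : ℝ) / Nal T) l (𝓝 1)) := finalU inp l hl

theorem mainS (a₀ A ε : ℝ) (ha₀ : 0 < a₀) (hA : 0 < A) (hε : 0 < ε) :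
    ∃ B δ T₀ : ℝ, 0 < δ ∧ ∀ T : ℝ, T₀ ≤ T →
      (∀ a : ℝ, A ≤ a → a ≤ B → (gg a - δ) * (T * Real.log T) ≤ Nst T a) →
      |(Nst T a₀ : ℝ) / (T * Real.log T) - gg a₀| ≤ ε ∧ (1 - ε) * (Nal T : ℝ) ≤ Nso T := by
  refine singleU (fun l hc hl hlow => ?_) a₀ A ε ha₀ hA hε
  have := hc
  obtain ⟨h1, h2, h3⟩ := mainU l hl
  exact ⟨h1.2 hlow, h3 (h1.2 hlow)⟩

theorem mainW (l : Filter ℝ) [l.IsCountablyGenerated] (hl : l ≤ atTop)
    (L : Set ℝ) (hL : ∀ ℓ ∈ L, 0 < ℓ) (hd : Dense (AddSubgroup.closure L : Set ℝ)) :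
    WC l ↔ (AL l ∧ ∀ ℓ ∈ L, WL l ℓ ∨ WU l ℓ) := finalW inp inpW l hl L hL hd

end W207.PU
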