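import Pool.Agent.W207.PU.Ub1

/-! # Blocks: comparison of the real and the complex pair sums -/

set_option autoImplicit false

open Complex Filter Topology Set MeasureTheory
open scoped BigOperators

namespace W207.PU

open W207.PR (Tst ct dt MM G X P D SP S_CELL S_DEC)
open H370 (Zf mult)

/-- the cells of a block -/
lemma cells (hMB : MB) : ∃ κ C V0 : ℝ, 0 < κ ∧ 0 < C ∧ 10 ≤ V0 ∧ ∀ V : ℝ, V0 ≤ V →
    (∑ k ∈ (Zf riemannZeta (V + 1) (2 * V - 1)).image (fun s : ℂ => ⌊s.im * Real.log V⌋),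
      (∑ s ∈ Zf riemannZeta (V + 1) (2 * V - 1) with ⌊s.im * Real.log V⌋ = k, wt κ V s) ^ 4 ≤
        C * (V * Real.log V)) ∧
    (∑ k ∈ (Zf riemannZeta (V + 1) (2 * V - 1)).image (fun s : ℂ => ⌊s.im * Real.log V⌋),
      (∑ s ∈ Zf riemannZeta (V + 1) (2 * V - 1) with ⌊s.im * Real.log V⌋ = k, wt κ V s) ^ 2 ≤
        C * (V * Real.log V)) ∧
    (((Zf riemannZeta (V + 1) (2 * V - 1)).image
      (fun s : ℂ => ⌊s.im * Real.log V⌋)).card : ℝ) ≤ C * (V * Real.log V) := by
  classical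
  obtain ⟨κ, C, V0, hκ, hC, hV0, hMB⟩ := hMB
  refine ⟨κ, C, V0, hκ, hC, hV0, fun V hV => ?_⟩
  have hV10 : 10 ≤ V := hV0.trans hV
  have hlog : 0 < Real.log V := Real.log_pos (by linarith)
  set Z := Zf riemannZeta (V + 1) (2 * V - 1) with hZ
  have hmem : ∀ s ∈ Z, 0 < s.re ∧ s.re < 1 ∧ V + 1 < s.im ∧ s.im ≤ 2 * V - 1 ∧
      riemannZeta s = 0 := fun s hs =>
    (H332B.Step.mem_Zb (V + 1) (2 * V - 1) (by linarith) s).1 hs
  have hZ' : ∀ s ∈ Z, s ∈ H332B.Zb V (2 * V) := by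
    intro s hs
    obtain ⟨h1, h2, h3, h4, h5⟩ := hmem s hs
    rw [H332B.Step.mem_Zb V (2 * V) (by linarith)]
    exact ⟨h1, h2, by linarith, by linarith, h5⟩
  have hone : ∀ s ∈ Z, 1 ≤ wt κ V s := by
    intro s hs
    have h1 := UB1.mz_ge' (by linarith) (hZ' s hs)
    have h7 : 1 ≤ Real.exp (κ * |s.re - 1 / 2| * Real.log V) := by
      apply Real.one_le_exp
      have := abs_nonneg (s.re - 1 / 2)
      positivity
    unfold wt
    have h8 : (analyticOrderNatAt riemannZeta s : ℝ) = Pool.Agent.W338.PR.mz s := rfl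
    rw [h8]
    nlinarith
  have hnn : ∀ s : ℂ, 0 ≤ wt κ V s := by
    intro s
    unfold wt
    positivity
  have h2 := hMB V hV Z (fun s hs => by
    obtain ⟨h1, h2, h3, h4, h5⟩ := hmem s hs
    exact ⟨h5, h1, h2, by linarith, by linarith⟩)
  have hci : (fun s : ℂ => ⌊s.im * Real.log V⌋) = ci V := rfl
  have hM : ∀ k ∈ Z.image (ci V), 1 ≤ ∑ s ∈ Z with ci V s = k, wt κ V s := by
    intro k hk
    obtain ⟨s0, hs0, hk0⟩ := Finset.mem_image.1 hk
    exact (hone s0 hs0).trans (Finset.single_le_sum (fun s _ => hnn s)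
      (Finset.mem_filter.2 ⟨hs0, hk0⟩))
  rw [hci]
  refine ⟨h2, ?_, ?_⟩
  · refine le_trans (Finset.sum_le_sum fun k hk => ?_) h2
    exact pow_le_pow_right₀ (hM k hk) (by norm_num)
  · refine le_trans ?_ h2
    rw [Finset.card_eq_sum_ones]
    push_cast
    refine Finset.sum_le_sum fun k hk => ?_
    exact one_le_pow₀ (hM k hk)

/-- the multiplicity is at most the weight -/
lemma mult_wt {κ V : ℝ} (hκ : 0 < κ) (hV : 1 ≤ V) (s : ℂ) :
    (mult riemannZeta s : ℝ) * Real.exp (κ * |s.re - 1 / 2| * Real.log V) = wt κ V s ∧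
    (mult riemannZeta s : ℝ) ≤ wt κ V s := by
  have e : (mult riemannZeta s : ℝ) * Real.exp (κ * |s.re - 1 / 2| * Real.log V) = wt κ V s := rfl
  refine ⟨e, ?_⟩
  rw [← e]
  have h7 : 1 ≤ Real.exp (κ * |s.re - 1 / 2| * Real.log V) := by
    apply Real.one_le_exp
    have := abs_nonneg (s.re - 1 / 2)
    have := Real.log_nonneg hV
    positivity
  have h8 : (0 : ℝ) ≤ (mult riemannZeta s : ℝ) := Nat.cast_nonneg _
  nlinarith

/-- the difference of the real parts -/
lemma re_diff (s s' : ℂ) : |s.re - s'.re| ≤ |s.re - 1 / 2| + |s'.re - 1 / 2| := by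
  have : s.re - s'.re = (s.re - 1 / 2) - (s'.re - 1 / 2) := by ring
  rw [this]
  exact abs_sub _ _

/-- the two pair sums -/
lemma SS_sub_SC (ψ χ : ℝ → ℝ) (A B L lam lam' : ℝ)
    (h1 : ∀ d : ℝ, ct χ (d * L / (2 * Real.pi)) = ct ψ (d * lam))
    (h2 : ∀ d b : ℝ, hC χ lam' d b = hC ψ lam d b) :
    W201FW.SS (ct χ) A B L - SC χ lam' A B =
      ∑ s ∈ Zf riemannZeta A B, ∑ s' ∈ Zf riemannZeta A B,
        (mult riemannZeta s : ℝ) * (mult riemannZeta s' : ℝ) *
          (hR ψ lam (s.im - s'.im) - hC ψ lam (s.im - s'.im) (s.re - s'.re)) := by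
  unfold W201FW.SS SC
  rw [← Finset.sum_sub_distrib]
  refine Finset.sum_congr rfl fun s _ => ?_
  rw [← Finset.sum_sub_distrib]
  refine Finset.sum_congr rfl fun s' _ => ?_
  rw [h1, h2, ← mul_sub]
  rfl

theorem blk2 : S_BLK2 := by
  classical
  intro hMB hSCHO hAN hBLKC
  obtain ⟨κ, C, V0, hκ, hC0, hV0, hcells⟩ := cells hMB
  obtain ⟨Cs, hCs, hsch⟩ := hSCHO
  have hpi := Real.pi_pos
  have hpi3 := Real.pi_gt_three
  set μ : ℝ := min (1 / 2) κ with hμ
  have hμ0 : 0 < μ := lt_min (by norm_num) hκ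
  have hμ1 : μ < 1 := lt_of_le_of_lt (min_le_left _ _) (by norm_num)
  have hμκ : μ ≤ κ := min_le_right _ _
  refine ⟨μ, hμ0, hμ1, fun ψ hψ hsupp ε hε => ?_⟩
  obtain ⟨Ca, hCa, han⟩ := hAN ψ μ hψ hμ0 hμ1 hsupp
  have hBC := hBLKC ψ hψ
  rw [Metric.tendsto_nhds] at hBC
  obtain ⟨V1, hV1⟩ := eventually_atTop.1 ((hBC (ε / 2) (by positivity)).and
    (Real.tendsto_log_atTop.eventually_ge_atTop (2 * Real.pi)))
  -- the constants
  set K : ℝ := 2 * Ca * (2 * Real.pi) ^ 2 with hK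
  have hK0 : 0 < K := by positivity
  set η : ℝ := ε / (8 * Real.pi * K) with hη
  have hη0 : 0 < η := by positivity
  set δ : ℝ := 2 * Real.pi * η ^ 4 / (Cs * C ^ 3) with hδ
  have hδ0 : 0 < δ := by positivity
  refine ⟨δ, max V0 V1, hδ0, hV0.trans (le_max_left _ _), fun V hV hoff => ?_⟩
  have hVV0 : V0 ≤ V := (le_max_left _ _).trans hV
  have hV10 : 10 ≤ V := hV0.trans hVV0
  obtain ⟨hb, hL2⟩ := hV1 V ((le_max_right _ _).trans hV)
  set L := Real.log V with hL
  have hL0 : 0 < L := Real.log_pos (by linarith)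
  have hX : 0 < X V := by unfold X; positivity
  set Z := Zf riemannZeta (V + 1) (2 * V - 1) with hZ
  set O := Z.filter (fun s => s.re ≠ 1 / 2) with hO
  set lam : ℝ := L / (2 * Real.pi) with hlam
  have hlam1 : 1 ≤ lam := by rw [hlam, le_div_iff₀ (by positivity)]; linarith
  obtain ⟨hc4, hc2, hcc⟩ := hcells V hVV0
  have hsum := hsch Z O (fun s => s.im * L) (wt κ V) (fun s => by unfold wt; positivity)
    (Finset.filter_subset _ _)
  set E : ℝ := ∑ s ∈ O, ∑ s' ∈ Z, wt κ V s * wt κ V s' *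
    ((1 + |s.im * L - s'.im * L|)⁻¹) ^ 2 with hE
  have hwt : ∀ s : ℂ, 0 ≤ wt κ V s := fun s => by unfold wt; positivity
  have hg : ∀ s s' : ℂ, 0 ≤ wt κ V s * wt κ V s' * ((1 + |s.im * L - s'.im * L|)⁻¹) ^ 2 :=
    fun s s' => mul_nonneg (mul_nonneg (hwt _) (hwt _)) (sq_nonneg _)
  have hE0 : 0 ≤ E := Finset.sum_nonneg fun s _ => Finset.sum_nonneg fun s' _ => hg s s'
  have hE1 : E ≤ η * (V * L) := by
    have h1 : (O.card : ℝ) ≤ δ * X V := hoff
    have h2 : E ^ 4 ≤ (η * (V * L)) ^ 4 := by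
      refine hsum.trans ?_
      calc Cs * (O.card : ℝ) * ((Z.image (fun s : ℂ => ⌊s.im * L⌋)).card : ℝ) *
          (∑ k ∈ Z.image (fun s : ℂ => ⌊s.im * L⌋),
            (∑ s ∈ Z with ⌊s.im * L⌋ = k, wt κ V s) ^ 4) ^ 2 ≤
          Cs * (δ * X V) * (C * (V * L)) * (C * (V * L)) ^ 2 := by
            have h3 : 0 ≤ ∑ k ∈ Z.image (fun s : ℂ => ⌊s.im * L⌋),
              (∑ s ∈ Z with ⌊s.im * L⌋ = k, wt κ V s) ^ 4 :=
              Finset.sum_nonneg fun k _ => by positivity
            gcongr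
        _ = (η * (V * L)) ^ 4 := by
            rw [hδ]
            unfold X
            rw [← hL]
            field_simp
    exact le_of_pow_le_pow_left₀ (by norm_num) (by positivity) h2
  -- the pairs
  have hpair : ∀ s s' : ℂ, s ∈ Z → s' ∈ Z →
      |(mult riemannZeta s : ℝ) * (mult riemannZeta s' : ℝ) *
        (hR ψ lam (s.im - s'.im) - hC ψ lam (s.im - s'.im) (s.re - s'.re))| ≤
      K * ((if s ∈ O then wt κ V s * wt κ V s' * ((1 + |s.im * L - s'.im * L|)⁻¹) ^ 2 else 0) +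
        (if s' ∈ O then wt κ V s * wt κ V s' * ((1 + |s.im * L - s'.im * L|)⁻¹) ^ 2 else 0)) := by
    intro s s' hs hs'
    have hm1 : (0 : ℝ) ≤ (mult riemannZeta s : ℝ) := Nat.cast_nonneg _
    have hm2 : (0 : ℝ) ≤ (mult riemannZeta s' : ℝ) := Nat.cast_nonneg _
    have hr1 := (H332B.Step.mem_Zb (V + 1) (2 * V - 1) (by linarith) s).1 hs
    have hr2 := (H332B.Step.mem_Zb (V + 1) (2 * V - 1) (by linarith) s').1 hs'
    have hb1 : |s.re - s'.re| ≤ 1 := by
      rw [abs_le]; constructor <;> linarith [hr1.1, hr1.2.1, hr2.1, hr2.2.1]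
    obtain ⟨a1, a2, a3⟩ := han lam (s.im - s'.im) (s.re - s'.re) hlam1 hb1
    rw [abs_mul, abs_of_nonneg (mul_nonneg hm1 hm2)]
    by_cases h0 : s ∈ O ∨ s' ∈ O
    · have h5 : |hR ψ lam (s.im - s'.im) - hC ψ lam (s.im - s'.im) (s.re - s'.re)| ≤
          2 * Ca * Real.exp (2 * Real.pi * μ * lam * |s.re - s'.re|) *
            ((1 + lam * |s.im - s'.im|)⁻¹) ^ 2 := by
        have h6 : 1 ≤ Real.exp (2 * Real.pi * μ * lam * |s.re - s'.re|) := by
          apply Real.one_le_exp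
          have := abs_nonneg (s.re - s'.re)
          positivity
        have h7 : 0 ≤ Ca * ((1 + lam * |s.im - s'.im|)⁻¹) ^ 2 := by positivity
        calc |hR ψ lam (s.im - s'.im) - hC ψ lam (s.im - s'.im) (s.re - s'.re)| ≤
            |hR ψ lam (s.im - s'.im)| + |hC ψ lam (s.im - s'.im) (s.re - s'.re)| := abs_sub _ _
          _ ≤ Ca * ((1 + lam * |s.im - s'.im|)⁻¹) ^ 2 +
              Ca * Real.exp (2 * Real.pi * μ * lam * |s.re - s'.re|) *
                ((1 + lam * |s.im - s'.im|)⁻¹) ^ 2 := add_le_add a3 a2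
          _ ≤ _ := by nlinarith
      have h8 : Real.exp (2 * Real.pi * μ * lam * |s.re - s'.re|) ≤
          Real.exp (κ * |s.re - 1 / 2| * L) * Real.exp (κ * |s'.re - 1 / 2| * L) := by
        rw [← Real.exp_add]
        apply Real.exp_le_exp.2
        have h9 : 2 * Real.pi * μ * lam * |s.re - s'.re| = μ * L * |s.re - s'.re| := by
          rw [hlam]; field_simp
        rw [h9]
        have h10 := re_diff s s'
        calc μ * L * |s.re - s'.re| ≤ κ * L * (|s.re - 1 / 2| + |s'.re - 1 / 2|) := by gcongr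
          _ = _ := by ring
      have h11 : ((1 + lam * |s.im - s'.im|)⁻¹) ^ 2 ≤
          (2 * Real.pi) ^ 2 * ((1 + |s.im * L - s'.im * L|)⁻¹) ^ 2 := by
        rw [← mul_pow]
        apply pow_le_pow_left₀ (by positivity)
        rw [← sub_mul, abs_mul, abs_of_pos hL0, ← div_eq_mul_inv, inv_eq_one_div,
          div_le_div_iff₀ (by positivity) (by positivity)]
        have h12 : 2 * Real.pi * (1 + lam * |s.im - s'.im|) =
            2 * Real.pi + |s.im - s'.im| * L := by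
          rw [hlam]; field_simp
        rw [h12]
        linarith
      have h13 : (mult riemannZeta s : ℝ) * (mult riemannZeta s' : ℝ) *
          |hR ψ lam (s.im - s'.im) - hC ψ lam (s.im - s'.im) (s.re - s'.re)| ≤
          K * (wt κ V s * wt κ V s' * ((1 + |s.im * L - s'.im * L|)⁻¹) ^ 2) := by
        calc (mult riemannZeta s : ℝ) * (mult riemannZeta s' : ℝ) *
            |hR ψ lam (s.im - s'.im) - hC ψ lam (s.im - s'.im) (s.re - s'.re)| ≤
            (mult riemannZeta s : ℝ) * (mult riemannZeta s' : ℝ) *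
            (2 * Ca * Real.exp (2 * Real.pi * μ * lam * |s.re - s'.re|) *
            ((1 + lam * |s.im - s'.im|)⁻¹) ^ 2) :=
              mul_le_mul_of_nonneg_left h5 (mul_nonneg hm1 hm2)
          _ ≤ (mult riemannZeta s : ℝ) * (mult riemannZeta s' : ℝ) *
            (2 * Ca * (Real.exp (κ * |s.re - 1 / 2| * L) * Real.exp (κ * |s'.re - 1 / 2| * L)) *
            ((2 * Real.pi) ^ 2 * ((1 + |s.im * L - s'.im * L|)⁻¹) ^ 2)) := by
              gcongr
          _ = K * (((mult riemannZeta s : ℝ) * Real.exp (κ * |s.re - 1 / 2| * L)) *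
            ((mult riemannZeta s' : ℝ) * Real.exp (κ * |s'.re - 1 / 2| * L)) *
            ((1 + |s.im * L - s'.im * L|)⁻¹) ^ 2) := by
              rw [hK]; ring
          _ = _ := rfl
      refine h13.trans ?_
      apply mul_le_mul_of_nonneg_left _ hK0.le
      have hg0 := hg s s'
      rcases h0 with h0 | h0
      · rw [if_pos h0]
        have : 0 ≤ if s' ∈ O then wt κ V s * wt κ V s' * ((1 + |s.im * L - s'.im * L|)⁻¹) ^ 2
          else 0 := by split_ifs <;> [exact hg0; exact le_rfl]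
        linarith
      · rw [if_pos h0]
        have : 0 ≤ if s ∈ O then wt κ V s * wt κ V s' * ((1 + |s.im * L - s'.im * L|)⁻¹) ^ 2
          else 0 := by split_ifs <;> [exact hg0; exact le_rfl]
        linarith
    · push Not at h0
      have h1 : s.re = 1 / 2 := by
        by_contra h
        exact h0.1 (Finset.mem_filter.2 ⟨hs, h⟩)
      have h2 : s'.re = 1 / 2 := by
        by_contra h
        exact h0.2 (Finset.mem_filter.2 ⟨hs', h⟩)
      have h3 : s.re - s'.re = 0 := by rw [h1, h2, sub_self]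
      rw [h3] at a1
      have h4 : |hR ψ lam (s.im - s'.im) - hC ψ lam (s.im - s'.im) (s.re - s'.re)| = 0 := by
        rw [h3]
        rw [abs_sub_comm]
        apply le_antisymm _ (abs_nonneg _)
        refine a1.trans (le_of_eq ?_)
        ring
      rw [h4, mul_zero]
      apply mul_nonneg hK0.le
      rw [if_neg h0.1, if_neg h0.2, add_zero]
  have hdiff : |W201FW.SS (ct ψ) (V + 1) (2 * V - 1) L - SC ψ lam (V + 1) (2 * V - 1)| ≤
      2 * K * E := by
    rw [SS_sub_SC ψ ψ (V + 1) (2 * V - 1) L lam lam (fun d => by rw [hlam, mul_div_assoc])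
      (fun d b => rfl)]
    refine (Finset.abs_sum_le_sum_abs _ _).trans ?_
    have h1 : ∀ s ∈ Z, |∑ s' ∈ Z, (mult riemannZeta s : ℝ) * (mult riemannZeta s' : ℝ) *
        (hR ψ lam (s.im - s'.im) - hC ψ lam (s.im - s'.im) (s.re - s'.re))| ≤
        ∑ s' ∈ Z, K * ((if s ∈ O then wt κ V s * wt κ V s' *
          ((1 + |s.im * L - s'.im * L|)⁻¹) ^ 2 else 0) +
        (if s' ∈ O then wt κ V s * wt κ V s' * ((1 + |s.im * L - s'.im * L|)⁻¹) ^ 2 else 0)) := by
      intro s hs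
      exact (Finset.abs_sum_le_sum_abs _ _).trans (Finset.sum_le_sum fun s' hs' =>
        hpair s s' hs hs')
    refine (Finset.sum_le_sum h1).trans (le_of_eq ?_)
    have h2 : ∑ s ∈ Z, ∑ s' ∈ Z, (if s ∈ O then wt κ V s * wt κ V s' *
          ((1 + |s.im * L - s'.im * L|)⁻¹) ^ 2 else 0) = E := by
      rw [hE, hO, Finset.sum_filter]
      refine Finset.sum_congr rfl fun s hs => ?_
      by_cases h : s.re ≠ 1 / 2
      · rw [if_pos h]
        refine Finset.sum_congr rfl fun s' _ => ?_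
        rw [if_pos (Finset.mem_filter.2 ⟨hs, h⟩)]
      · rw [if_neg h]
        refine Finset.sum_eq_zero fun s' _ => ?_
        have h4 : s ∉ Z.filter (fun s => s.re ≠ 1 / 2) := fun h' => h (Finset.mem_filter.1 h').2
        rw [if_neg h4]
    have h3 : ∑ s ∈ Z, ∑ s' ∈ Z, (if s' ∈ O then wt κ V s * wt κ V s' *
          ((1 + |s.im * L - s'.im * L|)⁻¹) ^ 2 else 0) = E := by
      rw [Finset.sum_comm, ← h2]
      refine Finset.sum_congr rfl fun s hs => Finset.sum_congr rfl fun s' hs' => ?_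
      by_cases h : s ∈ O
      · rw [if_pos h, if_pos h, abs_sub_comm]
        ring
      · rw [if_neg h, if_neg h]
    simp_rw [mul_add, Finset.sum_add_distrib, ← Finset.mul_sum]
    rw [h2, h3]
    ring
  have hb' : |SC ψ lam (V + 1) (2 * V - 1) / X V - MM ψ| ≤ ε / 2 := by
    rw [Real.dist_eq] at hb
    exact hb.le
  have h1 : |W201FW.SS (ct ψ) (V + 1) (2 * V - 1) L / X V -
      SC ψ lam (V + 1) (2 * V - 1) / X V| ≤ ε / 2 := by
    rw [← sub_div, abs_div, abs_of_pos hX, div_le_iff₀ hX]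
    refine hdiff.trans ?_
    calc 2 * K * E ≤ 2 * K * (η * (V * L)) := by gcongr
      _ = ε / 2 * X V := by
        rw [hη]
        unfold X
        rw [← hL]
        field_simp
        ring
  calc |W201FW.SS (ct ψ) (V + 1) (2 * V - 1) L / X V - MM ψ| =
      |(W201FW.SS (ct ψ) (V + 1) (2 * V - 1) L / X V - SC ψ lam (V + 1) (2 * V - 1) / X V) +
        (SC ψ lam (V + 1) (2 * V - 1) / X V - MM ψ)| := by congr 1; ring
    _ ≤ _ := abs_add_le _ _
    _ ≤ ε := by linarith

end W207.PU
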