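import Pool.Agent.H24R2.DZ.Spec
import Pool.Agent.W207.PR.A0

/-!
# One-sided pair correlation without the Riemann hypothesis: tasks that do not use the zero sums

`XX z = 8 ξ(1/2 + z)`; project SD of helper186 (Props in `Pool.Agent.H24R2.DZ.Spec`) gives few bad
heights at every scale.
-/

set_option autoImplicit false

open Complex Filter Topology Set MeasureTheory
open scoped BigOperators

namespace W207.PU

open Pool.Agent.H24R2.JP (XX HH Om)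
open Pool.Agent.H24R2.DZ (ra NN SC1 SC2 SCount SFar SUnit)

/-! ### A. Local distribution of the zeros -/

/-- the height `t` is good at scale `a`: all zeros at distance at most `ra T a` in height are within
`ra T a` of the critical line and there are at most `C a` of them -/
def GH (C T a t : ℝ) : Prop :=
  (∀ s : ℂ, XX s = 0 → |s.im - t| ≤ ra T a → |s.re| ≤ ra T a) ∧
  ∀ S : Finset ℂ, (∀ s ∈ S, XX s = 0 ∧ |s.im - t| ≤ ra T a) →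
    ∑ s ∈ S, (analyticOrderNatAt XX s : ℝ) ≤ C * a

/-- few heights are bad -/
def S_GOOD : Prop := SC1 → SC2 → SCount → SFar → ∃ c C a0 T0 : ℝ, 0 < c ∧ 0 < C ∧ 1 ≤ a0 ∧ 2 ≤ T0 ∧
  ∀ T a : ℝ, T0 ≤ T → a0 ≤ a → a ≤ Real.log T / 400 →
  volume {t : ℝ | T / 2 ≤ t ∧ t ≤ 3 * T ∧ ¬ GH C T a t} ≤
    ENNReal.ofReal (C * T * Real.exp (-(c * a)))

/-- the conclusion of `S_GOOD` -/
def GOOD : Prop := ∃ c C a0 T0 : ℝ, 0 < c ∧ 0 < C ∧ 1 ≤ a0 ∧ 2 ≤ T0 ∧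
  ∀ T a : ℝ, T0 ≤ T → a0 ≤ a → a ≤ Real.log T / 400 →
  volume {t : ℝ | T / 2 ≤ t ∧ t ≤ 3 * T ∧ ¬ GH C T a t} ≤
    ENNReal.ofReal (C * T * Real.exp (-(c * a)))

/-- the weight of a zero of zeta at height about `V` -/
noncomputable def wt (κ V : ℝ) (s : ℂ) : ℝ :=
  (analyticOrderNatAt riemannZeta s : ℝ) * Real.exp (κ * |s.re - 1 / 2| * Real.log V)

/-- the cell of `s`: cells have height `1 / log V` -/
noncomputable def ci (V : ℝ) (s : ℂ) : ℤ := ⌊s.im * Real.log V⌋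

/-- fourth moment of the weighted number of zeros in a cell -/
def MB : Prop := ∃ κ C V0 : ℝ, 0 < κ ∧ 0 < C ∧ 10 ≤ V0 ∧ ∀ V : ℝ, V0 ≤ V → ∀ Z : Finset ℂ,
  (∀ s ∈ Z, riemannZeta s = 0 ∧ 0 < s.re ∧ s.re < 1 ∧ V ≤ s.im ∧ s.im ≤ 2 * V) →
  ∑ k ∈ Z.image (ci V), (∑ s ∈ Z with ci V s = k, wt κ V s) ^ 4 ≤ C * (V * Real.log V)

/-- zeros of zeta and of `XX` -/
def S_XZ : Prop := ∀ s : ℂ, 0 < s.im → 0 < s.re → s.re < 1 →
  (riemannZeta s = 0 ↔ XX (s - 1 / 2) = 0) ∧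
  analyticOrderNatAt riemannZeta s = analyticOrderNatAt XX (s - 1 / 2)

/-- the moment bound -/
def S_MB : Prop := S_XZ → GOOD → SUnit → MB

/-! ### B. Discrete lemmas -/

/-- Schur test for cells -/
def S_SCH : Prop := ∃ C : ℝ, 0 < C ∧ ∀ (Z : Finset ℂ) (x w : ℂ → ℝ), (∀ s, 0 ≤ w s) →
  ∀ R : ℝ, 1 ≤ R →
  ∑ s ∈ Z, ∑ s' ∈ Z, w s * w s' * ((1 + |x s - x s'| / R)⁻¹) ^ 2 ≤
    C * R * ∑ k ∈ Z.image (fun s => ⌊x s⌋), (∑ s ∈ Z with ⌊x s⌋ = k, w s) ^ 2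

/-- the same for a small subset `O` -/
def S_SCHO : Prop := ∃ C : ℝ, 0 < C ∧ ∀ (Z O : Finset ℂ) (x w : ℂ → ℝ), (∀ s, 0 ≤ w s) → O ⊆ Z →
  (∑ s ∈ O, ∑ s' ∈ Z, w s * w s' * ((1 + |x s - x s'|)⁻¹) ^ 2) ^ 4 ≤
    C * (O.card : ℝ) * ((Z.image (fun s => ⌊x s⌋)).card : ℝ) *
      (∑ k ∈ Z.image (fun s => ⌊x s⌋), (∑ s ∈ Z with ⌊x s⌋ = k, w s) ^ 4) ^ 2

/-! ### C. The transforms at complex arguments -/

open W207.PR (Tst ct dt MM G)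

/-- the transform at a complex argument -/
noncomputable def ctc (ψ : ℝ → ℝ) (z : ℂ) : ℂ :=
  ∫ α : ℝ, (ψ α : ℂ) * Complex.cos (2 * Real.pi * α * z)

/-- a pair of zeros, complex version: `d` is the difference of the ordinates, `b` the difference of
the real parts -/
noncomputable def hC (ψ : ℝ → ℝ) (lam d b : ℝ) : ℝ :=
  (ctc ψ (((d : ℂ) - b * I) * lam) * cexp (-((d : ℂ) - b * I) ^ 2 / 4)).re

/-- a pair of zeros, real version -/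
noncomputable def hR (ψ : ℝ → ℝ) (lam d : ℝ) : ℝ := ct ψ (d * lam) * Real.exp (-d ^ 2 / 4)

/-- comparison of the two versions -/
def S_AN : Prop := ∀ (ψ : ℝ → ℝ) (μ : ℝ), Tst ψ → 0 < μ → μ < 1 → (∀ x, μ ≤ |x| → ψ x = 0) →
  ∃ C : ℝ, 0 < C ∧ ∀ lam d b : ℝ, 1 ≤ lam → |b| ≤ 1 →
    |hC ψ lam d b - hR ψ lam d| ≤ C * (b * lam) ^ 2 * Real.exp (2 * Real.pi * μ * lam * |b|) *
      ((1 + lam * |d|)⁻¹) ^ 2 ∧
    |hC ψ lam d b| ≤ C * Real.exp (2 * Real.pi * μ * lam * |b|) * ((1 + lam * |d|)⁻¹) ^ 2 ∧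
    |hR ψ lam d| ≤ C * ((1 + lam * |d|)⁻¹) ^ 2

/-! ### D. Small support -/

/-- many test functions of small support -/
def S_TESTS : Prop := W207.PR.S_TEST → ∀ μ U : ℝ, 0 < μ → 0 < U → ∃ h : ℝ → ℝ, Continuous h ∧
  (∀ u, 0 ≤ h u ∧ h u ≤ 1) ∧ (∀ u, |u| ≤ U → 1 / 4 ≤ h u) ∧
  (∀ n : ℕ, ∃ K : ℝ, ∀ u, h u * (1 + |u|) ^ n ≤ K) ∧
  ∀ k : ℕ, ∃ ψ : ℝ → ℝ, Tst ψ ∧ (∀ x, μ ≤ |x| → ψ x = 0) ∧ ∀ u, dt ψ u = -(u ^ (2 * k + 1) * h u)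

end W207.PU
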