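import Pool.Agent.W207.PR.Stmts
import Pool.Agent.W207.PU.SpecA

/-!
# One-sided pair correlation without the Riemann hypothesis: tasks on the zero sums
-/

set_option autoImplicit false

open Complex Filter Topology Set MeasureTheory
open scoped BigOperators

namespace W207.PU

open W207.PR (Tst ct dt MM G X P D SP ZT mz S_CELL S_DEC)
open H370 (Zf mult)

/-- the scaled test function -/
noncomputable def sc (R : ℝ) (ψ : ℝ → ℝ) : ℝ → ℝ := fun a => R * ψ (R * a)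

/-- the complex pair sum of a block -/
noncomputable def SC (ψ : ℝ → ℝ) (lam A B : ℝ) : ℝ :=
  ∑ s ∈ Zf riemannZeta A B, ∑ s' ∈ Zf riemannZeta A B,
    (mult riemannZeta s : ℝ) * (mult riemannZeta s' : ℝ) * hC ψ lam (s.im - s'.im) (s.re - s'.re)

/-- Montgomery's theorem for a block, unconditional, complex differences -/
def S_BLKC : Prop := ∀ ψ : ℝ → ℝ, Tst ψ →
  Tendsto (fun V : ℝ => SC ψ (Real.log V / (2 * Real.pi)) (V + 1) (2 * V - 1) / X V) atTop (𝓝 (MM ψ))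

/-- the number of zeros of the block off the critical line -/
noncomputable def off (A B : ℝ) : ℝ :=
  (((Zf riemannZeta A B).filter (fun s => s.re ≠ 1 / 2)).card : ℝ)

/-- scaled test functions: the real pair sum is close to the main term -/
def S_BLK1 : Prop := MB → S_SCH → S_AN → S_BLKC → ∀ ψ : ℝ → ℝ, Tst ψ → ∃ C R0 : ℝ, 0 < C ∧ 1 ≤ R0 ∧
  ∀ R : ℝ, R0 ≤ R → ∀ᶠ V : ℝ in atTop,
    |W201FW.SS (ct (sc R ψ)) (V + 1) (2 * V - 1) (Real.log V) / X V - MM (sc R ψ)| ≤ C / R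

/-- few zeros off the line: Montgomery's theorem for test functions of small support -/
def S_BLK2 : Prop := MB → S_SCHO → S_AN → S_BLKC → ∃ μ : ℝ, 0 < μ ∧ μ < 1 ∧ ∀ ψ : ℝ → ℝ, Tst ψ →
  (∀ x, μ ≤ |x| → ψ x = 0) → ∀ ε : ℝ, 0 < ε → ∃ δ V0 : ℝ, 0 < δ ∧ 10 ≤ V0 ∧ ∀ V : ℝ, V0 ≤ V →
    off (V + 1) (2 * V - 1) ≤ δ * X V →
    |W201FW.SS (ct ψ) (V + 1) (2 * V - 1) (Real.log V) / X V - MM ψ| ≤ ε

/-- uniform bound at one mean spacing -/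
def S_UB1 : Prop := MB → ∃ C T0 : ℝ, 0 < C ∧ 10 ≤ T0 ∧ ∀ T : ℝ, T0 ≤ T → P T 1 ≤ C

/-- uniform bound for the pair counts -/
def UBU : Prop := ∃ C T0 : ℝ, 0 < C ∧ 10 ≤ T0 ∧ ∀ T : ℝ, T0 ≤ T → ∀ u : ℝ, 0 ≤ u → P T u ≤ C * (1 + u)

/-- from blocks to the sum up to height `T` -/
def S_SUML : Prop := S_CELL → UBU → S_DEC → ∀ ψ : ℝ → ℝ, Tst ψ → ∀ η ε : ℝ, 0 ≤ η → 0 < ε →
  ∃ δ T0 : ℝ, 0 < δ ∧ 10 ≤ T0 ∧ ∀ T : ℝ, T0 ≤ T →
    (∀ V : ℝ, δ * T ≤ V → V ≤ T / 2 →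
      |W201FW.SS (ct ψ) (V + 1) (2 * V - 1) (Real.log V) / X V - MM ψ| ≤ η) →
    |SP ψ T / X T - MM ψ| ≤ η + ε

end W207.PU
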