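import Pool.Agent.W207.PR.Fin
import Pool.Agent.W207.PU.SpecB
import Pool.Agent.H370R2.DirGood

/-! # From the pair counts to `N*(T, a)`, without the Riemann hypothesis -/

open Complex Filter Topology Set MeasureTheory
open scoped BigOperators

namespace W207.PU

open W207.PR

/-- the number of pairs with `γ = γ'` -/
noncomputable def Neu (T : ℝ) : ℕ :=
  ∑ᶠ s ∈ Zs T, ∑ᶠ s' ∈ {s' : ℂ | s' ∈ Zs T ∧ s'.im = s.im}, mu s * mu s'

/-- the number of zeros off the critical line -/
noncomputable def Nof (T : ℝ) : ℕ := ∑ᶠ s ∈ {s : ℂ | s ∈ Zs T ∧ s.re ≠ 1 / 2}, mu s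

/-- the number of simple zeros on the critical line -/
noncomputable def Nso (T : ℝ) : ℕ := {s : ℂ | s ∈ Zs T ∧ s.re = 1 / 2 ∧ mu s = 1}.ncard

open Classical in
lemma Neu_eq (T : ℝ) : (Neu T : ℝ) = ∑ s ∈ ZT T, ∑ s' ∈ ZT T,
    if s'.im = s.im then mz s * mz s' else 0 := by
  unfold Neu
  rw [finsum_mem_eq_finite_toFinset_sum _ (Zs_finite T), Zs_toFinset]
  push_cast
  refine Finset.sum_congr rfl fun s _ => ?_
  have hfin : {s' : ℂ | s' ∈ Zs T ∧ s'.im = s.im}.Finite := (Zs_finite T).subset fun _ h => h.1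
  rw [finsum_mem_eq_finite_toFinset_sum _ hfin]
  push_cast
  rw [← Finset.sum_filter]
  apply Finset.sum_congr
  · ext s'
    rw [Set.Finite.mem_toFinset, Finset.mem_filter, mem_ZT]
    simp only [Set.mem_ofPred_eq]
  · intro s' _
    rfl

open Classical in
lemma Nof_eq (T : ℝ) : (Nof T : ℝ) = ∑ s ∈ (ZT T).filter (fun s => s.re ≠ 1 / 2), mz s := by
  unfold Nof
  have hfin : {s : ℂ | s ∈ Zs T ∧ s.re ≠ 1 / 2}.Finite := (Zs_finite T).subset fun _ h => h.1
  rw [finsum_mem_eq_finite_toFinset_sum _ hfin]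
  push_cast
  apply Finset.sum_congr
  · ext s
    rw [Set.Finite.mem_toFinset, Finset.mem_filter, mem_ZT]
    simp only [Set.mem_ofPred_eq]
  · intro s _
    rfl

open Classical in
lemma Nso_eq (T : ℝ) : (Nso T : ℝ) = ∑ s ∈ ZT T, if s.re = 1 / 2 ∧ mu s = 1 then (1 : ℝ) else 0 := by
  have h1 : {s : ℂ | s ∈ Zs T ∧ s.re = 1 / 2 ∧ mu s = 1} =
      ((ZT T).filter (fun s => s.re = 1 / 2 ∧ mu s = 1) : Finset ℂ) := by
    ext s
    simp only [Set.mem_ofPred_eq, Finset.coe_filter, mem_ZT]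
  unfold Nso
  rw [h1, Set.ncard_coe_finset, Finset.card_filter]
  push_cast
  rfl

/-- `N2 = N_= + 2 N_>` -/
lemma N2_splitU (T : ℝ) {w : ℝ} (hw : 0 ≤ w) : H332B.N2 T w = Neu T + 2 * Npos T w := by
  classical
  have h1 : H332B.N2 T w = ∑ s ∈ ZT T, ∑ s' ∈ ZT T,
      ((if s'.im = s.im then mz s * mz s' else 0) +
        (if 0 < s.im - s'.im ∧ s.im - s'.im ≤ w then mz s * mz s' else 0) +
        (if 0 < s'.im - s.im ∧ s'.im - s.im ≤ w then mz s' * mz s else 0)) := by
    unfold H332B.N2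
    refine Finset.sum_congr rfl fun s hs => Finset.sum_congr rfl fun s' hs' => ?_
    rcases lt_trichotomy s.im s'.im with h | h | h
    · have e1 : ¬ s'.im = s.im := fun e => by linarith
      have e2 : ¬ (0 < s.im - s'.im ∧ s.im - s'.im ≤ w) := fun e => by linarith [e.1]
      have e3 : |s.im - s'.im| = s'.im - s.im := by
        rw [abs_sub_comm, abs_of_pos (by linarith)]
      rw [if_neg e1, if_neg e2, e3, zero_add, zero_add]
      by_cases h4 : s'.im - s.im ≤ w
      · rw [if_pos h4, if_pos ⟨by linarith, h4⟩, mul_comm]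
      · rw [if_neg h4, if_neg (fun e => h4 e.2)]
    · rw [h]
      simp [hw]
    · have e1 : ¬ s'.im = s.im := fun e => by linarith
      have e2 : ¬ (0 < s'.im - s.im ∧ s'.im - s.im ≤ w) := fun e => by linarith [e.1]
      have e3 : |s.im - s'.im| = s.im - s'.im := abs_of_pos (by linarith)
      rw [if_neg e1, if_neg e2, e3, zero_add, add_zero]
      by_cases h4 : s.im - s'.im ≤ w
      · rw [if_pos h4, if_pos ⟨by linarith, h4⟩]
      · rw [if_neg h4, if_neg (fun e => h4 e.2)]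
  rw [h1]
  simp_rw [Finset.sum_add_distrib]
  have h3 : ∑ s ∈ ZT T, ∑ s' ∈ ZT T,
      (if 0 < s'.im - s.im ∧ s'.im - s.im ≤ w then mz s' * mz s else 0) = Npos T w := by
    unfold Npos
    rw [Finset.sum_comm]
  rw [← Neu_eq, h3]
  unfold Npos
  ring

/-- the pair count in terms of `N*` -/
lemma L1U (u : ℝ) (hu : 0 < u) :
    Tendsto (fun T => P T u - (Neu T / X T + 2 * (Nst T u / X T))) atTop (𝓝 0) := by
  obtain ⟨K, hK⟩ := Rem_le
  have hpi := Real.pi_pos
  have hw : Tendsto (fun T : ℝ => 2 * Real.pi * u / Real.log T) atTop (𝓝 0) :=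
    tendsto_const_nhds.div_atTop Real.tendsto_log_atTop
  have h1 : ∀ᶠ T : ℝ in atTop, 2 * Real.pi * u / Real.log T ≤ 1 :=
    (hw.eventually (gt_mem_nhds zero_lt_one)).mono fun _ h => h.le
  have h2 : Tendsto (fun T => 2 * K / X T) atTop (𝓝 0) := tendsto_const_nhds.div_atTop X_tendsto
  have h3 : Tendsto (fun T => -(2 * K / X T)) atTop (𝓝 0) := by simpa using h2.neg
  refine tendsto_of_tendsto_of_tendsto_of_le_of_le' h3 tendsto_const_nhds ?_ ?_
  all_goals
    filter_upwards [h1, eventually_ge_atTop (10 : ℝ)] with T hT1 hT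
    have hX := W207.PR.X_pos hT
    have hlog : 0 < Real.log T := Real.log_pos (by linarith)
    have e1 : P T u - (Neu T / X T + 2 * (Nst T u / X T)) =
        -(2 * Rem T (2 * Real.pi * u / Real.log T) / X T) := by
      unfold P
      rw [N2_splitU T (by positivity), Nst_split]
      field_simp
      ring
    rw [e1]
  · have h4 := hK T _ hT1
    have : 2 * Rem T (2 * Real.pi * u / Real.log T) / X T ≤ 2 * K / X T := by
      apply div_le_div_of_nonneg_right _ hX.le
      linarith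
    linarith
  · have h4 := Rem_nonneg T (2 * Real.pi * u / Real.log T)
    have : 0 ≤ 2 * Rem T (2 * Real.pi * u / Real.log T) / X T := by positivity
    linarith

lemma Neu_le_P {T u : ℝ} (hT : 10 ≤ T) (hu : 0 ≤ u) : Neu T / X T ≤ P T u := by
  have hX := W207.PR.X_pos hT
  have hlog : 0 < Real.log T := Real.log_pos (by linarith)
  have hpi := Real.pi_pos
  unfold P
  rw [N2_splitU T (by positivity)]
  have := Npos_nonneg T (2 * Real.pi * u / Real.log T)
  apply div_le_div_of_nonneg_right _ hX.le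
  linarith

/-- the reflected zero -/
lemma mu_symm {s : ℂ} (hs : 0 < s.im) : mu (1 - (starRingEnd ℂ) s) = mu s := by
  have h := H370.DL.L_symm (χ := (1 : DirichletCharacter ℂ 1))
    DirichletCharacter.isPrimitive_one_level_one (s := s) hs.ne'
  rw [DirichletCharacter.LFunction_modOne_eq] at h
  unfold mu analyticOrderNatAt
  rw [h]

lemma refl_mem {T : ℝ} {s : ℂ} (hs : s ∈ ZT T) : (1 - (starRingEnd ℂ) s) ∈ ZT T := by
  have h1 := mu_symm (s := s) (mem_ZT.1 hs).2.2.2.1
  have h2 := mu_pos (mem_ZT.1 hs)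
  obtain ⟨a0, a1, a2, a3, a4⟩ := mem_ZT.1 hs
  rw [mem_ZT]
  refine ⟨?_, by simp; linarith, by simp; linarith, by simpa using a3, by simpa using a4⟩
  by_contra hne
  have h3 : mu (1 - (starRingEnd ℂ) s) = 0 := by
    unfold mu analyticOrderNatAt
    have hana : AnalyticAt ℂ riemannZeta (1 - (starRingEnd ℂ) s) := by
      apply H370.good_zeta.an; simpa using a3
    rw [hana.analyticOrderAt_eq_zero.2 hne]
    rfl
  omega

open Classical in
/-- the row sums -/
lemma row_ge {T : ℝ} {s : ℂ} (hs : s ∈ ZT T) :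
    mz s ^ 2 + (if s.re ≠ 1 / 2 then mz s ^ 2 else 0) ≤
      ∑ s' ∈ ZT T, if s'.im = s.im then mz s * mz s' else 0 := by
  have hnn : ∀ s' ∈ ZT T, 0 ≤ (if s'.im = s.im then mz s * mz s' else 0) := by
    intro s' _
    split_ifs
    · exact mul_nonneg (mz_nonneg _) (mz_nonneg _)
    · exact le_rfl
  by_cases h : s.re ≠ 1 / 2
  · rw [if_pos h]
    set s1 := 1 - (starRingEnd ℂ) s with hs1
    have hne : s ≠ s1 := by
      intro e
      apply h
      have := congrArg Complex.re e
      rw [hs1] at this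
      simp at this
      linarith
    have hs1m : s1 ∈ ZT T := refl_mem hs
    have him : s1.im = s.im := by rw [hs1]; simp
    have hmz : mz s1 = mz s := by
      rw [mz_eq, mz_eq, hs1, mu_symm (mem_ZT.1 hs).2.2.2.1]
    have hsub : ({s, s1} : Finset ℂ) ⊆ ZT T := by
      intro x hx
      rw [Finset.mem_insert, Finset.mem_singleton] at hx
      rcases hx with rfl | rfl
      · exact hs
      · exact hs1m
    refine le_trans (le_of_eq ?_) (Finset.sum_le_sum_of_subset_of_nonneg hsub fun x hx _ => hnn x hx)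
    rw [Finset.sum_pair hne, if_pos rfl, if_pos him, hmz]
    ring
  · rw [if_neg h, add_zero]
    have h1 := Finset.single_le_sum hnn hs
    rw [if_pos rfl] at h1
    rw [sq]
    exact h1

lemma mz_ge {T : ℝ} {s : ℂ} (hs : s ∈ ZT T) : 1 ≤ mz s := by
  rw [mz_eq]; exact_mod_cast mu_pos (mem_ZT.1 hs)

lemma Neu_ge1 (T : ℝ) : (Nal T : ℝ) + Nof T ≤ Neu T := by
  classical
  rw [Neu_eq, Nal_eq, Nof_eq, Finset.sum_filter, ← Finset.sum_add_distrib]
  refine Finset.sum_le_sum fun s hs => le_trans ?_ (row_ge hs)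
  have h1 := mz_ge hs
  have h2 : mz s ≤ mz s ^ 2 := by nlinarith
  split_ifs <;> linarith

lemma Neu_ge2 (T : ℝ) : 2 * (Nal T : ℝ) - Nso T ≤ Neu T := by
  classical
  rw [Neu_eq, Nal_eq, Nso_eq, Finset.mul_sum, ← Finset.sum_sub_distrib]
  refine Finset.sum_le_sum fun s hs => le_trans ?_ (row_ge hs)
  have h1 := mz_ge hs
  have h2 : mz s ≤ mz s ^ 2 := by nlinarith
  by_cases h : s.re ≠ 1 / 2
  · rw [if_pos h, if_neg (fun e => h e.1)]
    linarith
  · rw [if_neg h]
    have h' : s.re = 1 / 2 := not_not.1 h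
    by_cases h3 : mu s = 1
    · rw [if_pos ⟨h', h3⟩]
      nlinarith
    · rw [if_neg (fun e => h3 e.2)]
      have h4 : 2 ≤ mu s := by
        have := mu_pos (mem_ZT.1 hs)
        omega
      have h5 : (2 : ℝ) ≤ mz s := by rw [mz_eq]; exact_mod_cast h4
      nlinarith

lemma Nso_le (T : ℝ) : (Nso T : ℝ) + Nof T ≤ Nal T := by
  classical
  rw [Nso_eq, Nal_eq, Nof_eq, Finset.sum_filter, ← Finset.sum_add_distrib]
  refine Finset.sum_le_sum fun s hs => ?_
  have h1 := mz_ge hs
  by_cases h : s.re ≠ 1 / 2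
  · rw [if_pos h, if_neg (fun e => h e.1)]
    linarith
  · rw [if_neg h]
    split_ifs <;> linarith

end W207.PU
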