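import Pool.Agent.W207.PU.SpecB

/-! The pair sum of a long block, two-sided, unconditional (after H321PC.det_pair, W201FW.det_psi). -/

open Complex Filter Topology Set MeasureTheory
open scoped BigOperators ComplexConjugate

namespace W207.PU

open H370 H370.A2 H370.A3 H370.AS H295SI H321PC

theorem det_pair {R : ℝ → ℝ} (hR : Conv R) (μ η : ℝ) (hμ : 0 < μ)
    (hμ1 : μ < 1) (hη : 0 < η) :
    ∃ T0 : ℝ, 10 ≤ T0 ∧ ∀ T : ℝ, T0 ≤ T →
      |PS R riemannZeta (T + 1) (2 * T - 1) (μ * Real.log T) -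
        ((2 * T - 1 - (T + 1)) * Real.log T / (2 * Real.pi)) * cR R μ| ≤
      η * ((2 * T - 1 - (T + 1)) * Real.log T / (2 * Real.pi)) := by
  set κ : ℝ := (1 - μ) / 8 with hκ
  have hκ0 : 0 < κ := by rw [hκ]; linarith
  have hκ1 : μ = 1 - 8 * κ := by rw [hκ]; ring
  obtain ⟨θ, hθ0, hθ1, T2, hT2, hm⟩ := pair_two hR good_zeta (a := lamC) lamC_norm
    (fun s hs _ => ld_zeta s hs) (show (0 : ℝ) ≤ 1 / 2 by norm_num) (1 - 2 * κ) μ (μ + κ) κ η
    (by linarith) (by linarith) hμ (by linarith) (by linarith) (by linarith) hκ0 hη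
  have hR0 : 0 ≤ R 0 := hR.nonneg 0
  have hc0 : 0 < (θ / 4) ^ 2 / 16 := by positivity
  -- eventual facts
  have ev3 : ∀ᶠ T : ℝ in atTop,
      Real.sqrt 2 * Real.exp (-((θ / 4) ^ 2 / 16 * T ^ (2 * κ))) ≤ θ / (1 + θ) := by
    have h1 : Tendsto (fun T : ℝ => Real.sqrt 2 * Real.exp (-((θ / 4) ^ 2 / 16 * T ^ (2 * κ))))
        atTop (𝓝 (Real.sqrt 2 * 0)) := by
      apply Tendsto.const_mul
      apply Real.tendsto_exp_atBot.comp
      have h2 : Tendsto (fun T : ℝ => (θ / 4) ^ 2 / 16 * T ^ (2 * κ)) atTop atTop :=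
        (tendsto_rpow_atTop (by positivity)).const_mul_atTop (by positivity)
      exact tendsto_neg_atTop_atBot.comp h2
    rw [mul_zero] at h1
    exact h1.eventually (ge_mem_nhds (by positivity))
  have ev6 : ∀ (c d e : ℝ), 0 < c → 0 < d → 0 < e → ∀ᶠ T : ℝ in atTop,
      d * Real.log T ≤ c * T ^ e := by
    intro c d e hc hd he
    have h1 := (isLittleO_log_rpow_atTop he).bound (show (0 : ℝ) < c / d by positivity)
    filter_upwards [h1, eventually_ge_atTop 1] with T hT hT1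
    have hl : 0 ≤ Real.log T := Real.log_nonneg hT1
    rw [Real.norm_of_nonneg hl, Real.norm_of_nonneg (by positivity)] at hT
    calc d * Real.log T ≤ d * (c / d * T ^ e) := by gcongr
      _ = _ := by field_simp
  have ev7 : ∀ᶠ T : ℝ in atTop, 2 * (R 0 + 1) ≤ T :=
    eventually_ge_atTop _
  have ev8 : ∀ᶠ T : ℝ in atTop, (4 : ℝ) ≤ T ^ (2 * κ) :=
    (tendsto_rpow_atTop (by positivity)).eventually_ge_atTop _
  obtain ⟨T4, hT4⟩ := (((((ev3.and (ev6 ((θ / 4) ^ 2 / 16) 6 (2 * κ) hc0 (by norm_num)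
    (by positivity))).and ev7).and (ev6 1 9 (10 * κ) one_pos (by norm_num)
    (by positivity)))).and ev8).exists_forall_of_atTop
  refine ⟨max 100 (max T2 T4), le_trans (by norm_num) (le_max_left _ _), fun T hT => ?_⟩
  have hT100 : 100 ≤ T := (le_max_left _ _).trans hT
  have hTT2 : T2 ≤ T := ((le_max_left _ _).trans (le_max_right _ _)).trans hT
  obtain ⟨⟨⟨⟨e3, e6⟩, e7⟩, e9⟩, e8⟩ := hT4 T (((le_max_right _ _).trans (le_max_right _ _)).trans hT)
  have hTpos : 0 < T := by linarith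
  have hlogT : 0 < Real.log T := Real.log_pos (by linarith)
  set H : ℝ := 2 * T - 1 - (T + 1) with hH
  have hH2 : H = T - 2 := by rw [hH]; ring
  have hHT : T / 2 ≤ H := by rw [hH2]; linarith
  have hHpos : 0 < H := by linarith
  set X : ℕ := ⌊T ^ (μ + 2 * κ)⌋₊ with hX
  set σ : ℝ := T ^ (1 - κ) with hσ
  have hσ0 : 0 < σ := Real.rpow_pos_of_pos hTpos _
  set w : ℝ := θ / 4 * H with hw
  have hw0 : 0 ≤ w := by positivity
  have hexpo : -w ^ 2 / (4 * σ ^ 2) ≤ -((θ / 4) ^ 2 / 16 * T ^ (2 * κ)) := by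
    have h1 : σ ^ 2 * T ^ (2 * κ) = T ^ 2 := by
      rw [hσ, ← Real.rpow_natCast, ← Real.rpow_mul hTpos.le, ← Real.rpow_add hTpos,
        ← Real.rpow_natCast]
      congr 1
      push_cast; ring
    rw [neg_div, neg_le_neg_iff, le_div_iff₀ (by positivity)]
    have h2 : (θ / 4) ^ 2 / 16 * T ^ (2 * κ) * (4 * σ ^ 2) =
        (θ / 4) ^ 2 / 4 * (σ ^ 2 * T ^ (2 * κ)) := by ring
    rw [h2, h1, hw]
    have h3 : (T / 2) ^ 2 ≤ H ^ 2 := by gcongr
    have h4 : 0 < (θ / 4) ^ 2 := by positivity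
    nlinarith
  have hXle : (X : ℝ) ≤ T ^ (μ + 2 * κ) := Nat.floor_le (by positivity)
  have hmass : Real.sqrt 2 * Real.exp (-w ^ 2 / (4 * σ ^ 2)) ≤ θ / (1 + θ) := by
    refine le_trans ?_ e3
    gcongr
  have hmass2 : (X : ℝ) ^ 4 * (Real.sqrt 2 * Real.exp (-w ^ 2 / (4 * σ ^ 2))) ≤ 1 := by
    have h2 : (X : ℝ) ^ 4 ≤ Real.exp (4 * (μ + 2 * κ) * Real.log T) := by
      calc (X : ℝ) ^ 4 ≤ (T ^ (μ + 2 * κ)) ^ 4 := by gcongr
        _ = Real.exp (4 * (μ + 2 * κ) * Real.log T) := by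
          rw [Real.rpow_def_of_pos hTpos, ← Real.exp_nat_mul]
          congr 1
          push_cast; ring
    have h3 : Real.sqrt 2 ≤ Real.exp (Real.log T) := by
      rw [Real.exp_log hTpos]
      have : Real.sqrt 2 ≤ 2 := by
        rw [Real.sqrt_le_left (by norm_num)]; norm_num
      linarith
    calc (X : ℝ) ^ 4 * (Real.sqrt 2 * Real.exp (-w ^ 2 / (4 * σ ^ 2))) ≤
        Real.exp (4 * (μ + 2 * κ) * Real.log T) * (Real.exp (Real.log T) *
          Real.exp (-((θ / 4) ^ 2 / 16 * T ^ (2 * κ)))) := by gcongr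
      _ = Real.exp (4 * (μ + 2 * κ) * Real.log T + (Real.log T +
          -((θ / 4) ^ 2 / 16 * T ^ (2 * κ)))) := by rw [Real.exp_add, Real.exp_add]
      _ ≤ 1 := by
        rw [Real.exp_le_one_iff]
        have h5 : 4 * (μ + 2 * κ) * Real.log T ≤ 4 * 1 * Real.log T := by
          gcongr
          linarith
        linarith
  have h := hm T hTT2 (Real.log T) (by simp) (T + 1) (2 * T - 1) le_rfl le_rfl ?_ ?_ σ w X hσ0 hw0
    le_rfl hmass hmass2 ?_ ?_
  · exact h.2
  · -- T ^ (1 - 2 κ) ≤ H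
    have h1 : T ^ (1 - 2 * κ) * T ^ (2 * κ) = T := by
      rw [← Real.rpow_add hTpos]
      have : 1 - 2 * κ + 2 * κ = 1 := by ring
      rw [this, Real.rpow_one]
    have h2 : T ^ (1 - 2 * κ) ≤ T / 4 := by
      have := Real.rpow_pos_of_pos hTpos (1 - 2 * κ)
      nlinarith
    show T ^ (1 - 2 * κ) ≤ H
    linarith
  · intro s hs _
    obtain ⟨h1, h2, h3, h4, h5⟩ := hs
    linarith
  · have h1 : T ^ (μ + 2 * κ) ≤ (X : ℝ) + 1 := (Nat.lt_floor_add_one _).le
    have h2 : (μ + 2 * κ) * Real.log T ≤ Real.log (X + 1) := by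
      rw [← Real.log_rpow hTpos]
      exact Real.log_le_log (Real.rpow_pos_of_pos hTpos _) h1
    refine le_trans (le_of_eq ?_) h2
    ring
  · -- the off-diagonal terms
    have ha : ∀ n, ‖lamC n‖ ≤ ArithmeticFunction.vonMangoldt n := fun n => (lamC_norm n).le
    set M : ℝ := (X : ℝ) ^ 4 * Real.exp (-(σ ^ 2 / (X : ℝ) ^ 2) / 2) with hM
    have hM0 : 0 ≤ M := by positivity
    have hQE : ∀ x : ℝ, QE R lamC (μ * Real.log T) X σ x ≤ R 0 * M ^ 2 := by
      intro x
      unfold QE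
      have h1 : ∫ α in (0 : ℝ)..1, R α * ‖EE (bb lamC (μ * Real.log T * α)) X σ x‖ ^ 2 ≤
          ∫ α in (0 : ℝ)..1, R 0 * M ^ 2 := by
        refine intervalIntegral.integral_mono_on zero_le_one ?_
          (intervalIntegrable_const) fun α hα => ?_
        · exact Continuous.intervalIntegrable
            ((QE_aux hR lamC (μ * Real.log T) X σ).comp (continuous_id.prodMk continuous_const)) _ _
        · have h2 := EE_bound ha (μ * Real.log T * α) σ x X
          have h3 : R α ≤ R 0 := H613SI.conv_le hR α hα.1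
          have h4 : 0 ≤ R α := hR.nonneg α
          have h5 : ‖EE (bb lamC (μ * Real.log T * α)) X σ x‖ ^ 2 ≤ M ^ 2 := by gcongr
          gcongr
      refine h1.trans ?_
      rw [intervalIntegral.integral_const]
      simp
    have hX1 : (1 : ℝ) ≤ T ^ (μ + 2 * κ) := Real.one_le_rpow (by linarith) (by linarith)
    have hX0 : 0 < X := Nat.floor_pos.2 hX1
    have hX0' : (0 : ℝ) < X := by exact_mod_cast hX0
    have hE : T ^ (10 * κ) ≤ σ ^ 2 / (X : ℝ) ^ 2 := by
      rw [le_div_iff₀ (by positivity)]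
      calc T ^ (10 * κ) * (X : ℝ) ^ 2 ≤ T ^ (10 * κ) * (T ^ (μ + 2 * κ)) ^ 2 := by gcongr
        _ = σ ^ 2 := by
          rw [hσ, ← Real.rpow_natCast, ← Real.rpow_natCast, ← Real.rpow_mul hTpos.le,
            ← Real.rpow_mul hTpos.le, ← Real.rpow_add hTpos]
          congr 1
          push_cast
          rw [hκ1]
          ring
    have hM2 : 2 * (R 0 + 1) * M ^ 2 ≤ 1 := by
      have h1 : (X : ℝ) ^ 8 ≤ Real.exp (8 * (μ + 2 * κ) * Real.log T) := by
        calc (X : ℝ) ^ 8 ≤ (T ^ (μ + 2 * κ)) ^ 8 := by gcongr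
          _ = Real.exp (8 * (μ + 2 * κ) * Real.log T) := by
            rw [Real.rpow_def_of_pos hTpos, ← Real.exp_nat_mul]
            congr 1
            push_cast; ring
      have h2 : M ^ 2 = (X : ℝ) ^ 8 * Real.exp (-(σ ^ 2 / (X : ℝ) ^ 2)) := by
        rw [hM, mul_pow, ← Real.exp_nat_mul]
        congr 1
        · ring
        · congr 1
          push_cast; ring
      have h3 : 2 * (R 0 + 1) ≤ Real.exp (Real.log T) := by
        rw [Real.exp_log hTpos]; exact e7
      calc 2 * (R 0 + 1) * M ^ 2 ≤ Real.exp (Real.log T) *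
          (Real.exp (8 * (μ + 2 * κ) * Real.log T) * Real.exp (-(T ^ (10 * κ)))) := by
            rw [h2]
            gcongr
        _ = Real.exp (Real.log T + (8 * (μ + 2 * κ) * Real.log T + -(T ^ (10 * κ)))) := by
            rw [Real.exp_add, Real.exp_add]
        _ ≤ 1 := by
            rw [Real.exp_le_one_iff]
            have h5 : 8 * (μ + 2 * κ) * Real.log T ≤ 8 * 1 * Real.log T := by
              gcongr
              linarith
            linarith
    have hint : ∫ x in (T + 1 - w)..(2 * T - 1 + w), QE R lamC (μ * Real.log T) X σ x ≤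
        ∫ x in (T + 1 - w)..(2 * T - 1 + w), R 0 * M ^ 2 := by
      refine intervalIntegral.integral_mono_on (by linarith) ?_ (intervalIntegrable_const)
        fun x _ => hQE x
      exact (QE_cont hR _ _ _ _).intervalIntegrable _ _
    refine hint.trans ?_
    rw [intervalIntegral.integral_const, smul_eq_mul]
    have h6 : 2 * T - 1 + w - (T + 1 - w) = H + 2 * w := by rw [hH]; ring
    rw [h6]
    have h7 : 2 * w ≤ H := by rw [hw]; nlinarith
    have h8 : 0 ≤ R 0 * M ^ 2 := by positivity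
    have h9 : 2 * (R 0 * M ^ 2) ≤ 1 := by nlinarith [sq_nonneg M]
    calc (H + 2 * w) * (R 0 * M ^ 2) ≤ (2 * H) * (R 0 * M ^ 2) := by
          gcongr
          linarith
      _ = H * (2 * (R 0 * M ^ 2)) := by ring
      _ ≤ H * 1 := by gcongr
      _ = H := mul_one _

/-- the pair sum against a Lipschitz function of bandwidth less than one -/
theorem det_psi (μ ε : ℝ) (hμ : 0 < μ) (hμ1 : μ < 1) (hε : 0 < ε)
    (ψ : ℝ → ℝ) (K : ℝ) (hlip : ∀ x y, |ψ x - ψ y| ≤ K * |x - y|)
    (hz : ∀ x, μ ≤ |x| → ψ x = 0) :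
    ∃ T0 : ℝ, 10 ≤ T0 ∧ ∀ T : ℝ, T0 ≤ T →
      |(∫ α in (-μ)..μ, ψ α * JN riemannZeta (T + 1) (2 * T - 1) (α * Real.log T)) -
        ((2 * T - 1 - (T + 1)) * Real.log T / (2 * Real.pi)) *
          (ψ 0 + ∫ α in (-μ)..μ, |α| * ψ α)| ≤
      ε * ((2 * T - 1 - (T + 1)) * Real.log T / (2 * Real.pi)) := by
  have hK : 0 ≤ K := by
    have h1 := hlip 1 0
    have h2 := abs_nonneg (ψ 1 - ψ 0)
    simp at h1
    linarith
  have hψc : Continuous ψ := by
    have : LipschitzWith K.toNNReal ψ := by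
      refine LipschitzWith.of_dist_le_mul fun x y => ?_
      rw [Real.dist_eq, Real.dist_eq, Real.coe_toNNReal _ hK]
      exact hlip x y
    exact this.continuous
  set φ : ℝ → ℝ := fun β => μ * ((ψ (μ * β) + ψ (-(μ * β))) / 2) with hφ
  set K2 : ℝ := K * μ ^ 2 + 1 with hK2
  have hK20 : 0 < K2 := by positivity
  have hφlip : ∀ x y, |φ x - φ y| ≤ (K * μ ^ 2) * |x - y| := by
    intro x y
    have h1 := hlip (μ * x) (μ * y)
    have h2 := hlip (-(μ * x)) (-(μ * y))
    have e1 : |μ * x - μ * y| = μ * |x - y| := by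
      rw [← mul_sub, abs_mul, abs_of_pos hμ]
    have e2 : |-(μ * x) - -(μ * y)| = μ * |x - y| := by
      rw [neg_sub_neg, ← mul_sub, abs_mul, abs_of_pos hμ, abs_sub_comm]
    rw [e1] at h1
    rw [e2] at h2
    have e3 : φ x - φ y = μ / 2 * ((ψ (μ * x) - ψ (μ * y)) + (ψ (-(μ * x)) - ψ (-(μ * y)))) := by
      simp only [hφ]; ring
    rw [e3, abs_mul, abs_of_pos (by positivity : 0 < μ / 2)]
    calc μ / 2 * |(ψ (μ * x) - ψ (μ * y)) + (ψ (-(μ * x)) - ψ (-(μ * y)))| ≤
        μ / 2 * (|ψ (μ * x) - ψ (μ * y)| + |ψ (-(μ * x)) - ψ (-(μ * y))|) := by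
          gcongr; exact abs_add_le _ _
      _ ≤ μ / 2 * (K * (μ * |x - y|) + K * (μ * |x - y|)) := by gcongr
      _ = _ := by ring
  have hφe : ∀ x, φ (-x) = φ x := by
    intro x
    simp only [hφ]
    rw [mul_neg, neg_neg]
    ring
  have hφz : ∀ x, 1 ≤ |x| → φ x = 0 := by
    intro x hx
    simp only [hφ]
    have h1 : μ ≤ |μ * x| := by
      rw [abs_mul, abs_of_pos hμ]
      nlinarith
    rw [hz _ h1, hz (-(μ * x)) (by rw [abs_neg]; exact h1)]
    ring
  have hc1 := conv_add (by positivity) (by rw [hK2]; linarith : K * μ ^ 2 ≤ K2) hK20 hφlip hφe hφz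
  have hc2 : Conv (fun β => (fun _ => (0 : ℝ)) β + K2 * hatf β) :=
    conv_add (K := 0) le_rfl hK20.le hK20 (by intro x y; simp) (by intro x; rfl) (by intro x _; rfl)
  set R1 : ℝ → ℝ := fun β => φ β + K2 * hatf β with hR1
  set R2 : ℝ → ℝ := fun β => (fun _ => (0 : ℝ)) β + K2 * hatf β with hR2
  obtain ⟨T1, hT1, h1⟩ := det_pair hc1 μ (ε / 2) hμ hμ1 (by positivity)
  obtain ⟨T2, hT2, h2⟩ := det_pair hc2 μ (ε / 2) hμ hμ1 (by positivity)
  refine ⟨max T1 T2, hT1.trans (le_max_left _ _), fun T hT => ?_⟩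
  have hTT1 : T1 ≤ T := (le_max_left _ _).trans hT
  have hTT2 : T2 ≤ T := (le_max_right _ _).trans hT
  have hT10 : 10 ≤ T := hT1.trans hTT1
  have hTpos : 0 < T := by linarith
  have hLpos : 0 < Real.log T := Real.log_pos (by linarith)
  -- the constants
  have hconst : cR R1 μ - cR R2 μ = ψ 0 + ∫ α in (-μ)..μ, |α| * ψ α := by
    have hφc : Continuous φ := by simp only [hφ]; fun_prop
    have hhc : Continuous hatf := by unfold hatf; fun_prop
    have e1 : ∫ α in (0 : ℝ)..1, α * R1 α = (∫ α in (0 : ℝ)..1, α * φ α) +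
        ∫ α in (0 : ℝ)..1, α * (K2 * hatf α) := by
      have q1 : Continuous fun α : ℝ => α * φ α := continuous_id.mul hφc
      have q2 : Continuous fun α : ℝ => α * (K2 * hatf α) :=
        continuous_id.mul (continuous_const.mul hhc)
      rw [← intervalIntegral.integral_add (q1.intervalIntegrable _ _)
        (q2.intervalIntegrable _ _)]
      refine intervalIntegral.integral_congr fun α _ => ?_
      simp only [hR1]
      ring
    have e2 : ∫ α in (0 : ℝ)..1, α * R2 α = ∫ α in (0 : ℝ)..1, α * (K2 * hatf α) := by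
      refine intervalIntegral.integral_congr fun α _ => ?_
      simp only [hR2]
      ring
    have e3 : ∫ α in (-μ)..μ, |α| * ψ α = 2 * μ * ∫ α in (0 : ℝ)..1, α * φ α := by
      have h3 := int_even hψc continuous_abs (fun x => abs_neg x) μ
      have h4 : ∫ α in (-μ)..μ, |α| * ψ α = ∫ α in (-μ)..μ, ψ α * |α| :=
        intervalIntegral.integral_congr fun α _ => mul_comm _ _
      rw [h4, h3, mul_assoc, ← intervalIntegral.integral_const_mul (μ : ℝ)]
      congr 1
      refine intervalIntegral.integral_congr fun β hβ => ?_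
      rw [Set.uIcc_of_le zero_le_one] at hβ
      simp only [hφ]
      rw [abs_mul, abs_of_pos hμ, abs_of_nonneg hβ.1]
      ring
    have e4 : R1 0 - R2 0 = μ * ψ 0 := by
      simp only [hR1, hR2, hφ]
      rw [mul_zero, neg_zero]
      ring
    unfold cR
    rw [e1, e2, e3]
    have e5 : R1 0 = R2 0 + μ * ψ 0 := by linarith
    rw [e5]
    have e6 : (R2 0 + μ * ψ 0) / μ = R2 0 / μ + ψ 0 := by field_simp
    rw [e6]
    ring
  have g1 := h1 T hTT1
  have g2 := h2 T hTT2
  have hU : 1 ≤ T + 1 := by linarith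
  have hJc := JJ_cont good_zeta (U2 := 2 * T - 1) hU
  have hkey : ∫ α in (-μ)..μ, ψ α * JN riemannZeta (T + 1) (2 * T - 1) (α * Real.log T) =
      PS R1 riemannZeta (T + 1) (2 * T - 1) (μ * Real.log T) -
        PS R2 riemannZeta (T + 1) (2 * T - 1) (μ * Real.log T) := by
    have hfc : Continuous fun α : ℝ =>
        JN riemannZeta (T + 1) (2 * T - 1) (α * Real.log T) := by
      unfold JN
      exact (hJc.comp (by fun_prop)).div_const _
    have hfe : ∀ α : ℝ, JN riemannZeta (T + 1) (2 * T - 1) (-α * Real.log T) =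
        JN riemannZeta (T + 1) (2 * T - 1) (α * Real.log T) := by
      intro α
      unfold JN
      rw [neg_mul, JJ_even good_zeta hU]
    rw [int_even hψc hfc hfe μ]
    have hi1 : IntervalIntegrable (fun α : ℝ => R1 α *
        JJ riemannZeta (T + 1) (2 * T - 1) (μ * Real.log T * α)) volume 0 1 :=
      ((H613SI.conv_cont hc1).mul (hJc.comp (by fun_prop))).intervalIntegrable _ _
    have hi2 : IntervalIntegrable (fun α : ℝ => R2 α *
        JJ riemannZeta (T + 1) (2 * T - 1) (μ * Real.log T * α)) volume 0 1 :=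
      ((H613SI.conv_cont hc2).mul (hJc.comp (by fun_prop))).intervalIntegrable _ _
    unfold PS
    rw [← mul_sub, ← intervalIntegral.integral_sub hi1 hi2]
    have h5 : (2 : ℝ) / Real.sqrt Real.pi = 2 * (1 / Real.sqrt Real.pi) := by ring
    rw [h5, mul_assoc, ← intervalIntegral.integral_const_mul (1 / Real.sqrt Real.pi)]
    congr 1
    refine intervalIntegral.integral_congr fun β _ => ?_
    simp only [hR1, hR2, hφ, JN]
    have h6 : μ * Real.log T * β = μ * β * Real.log T := by ring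
    rw [h6]
    ring
  rw [hkey, ← hconst]
  set M' : ℝ := (2 * T - 1 - (T + 1)) * Real.log T / (2 * Real.pi) with hM'
  have h7 : PS R1 riemannZeta (T + 1) (2 * T - 1) (μ * Real.log T) -
      PS R2 riemannZeta (T + 1) (2 * T - 1) (μ * Real.log T) - M' * (cR R1 μ - cR R2 μ) =
      (PS R1 riemannZeta (T + 1) (2 * T - 1) (μ * Real.log T) - M' * cR R1 μ) -
      (PS R2 riemannZeta (T + 1) (2 * T - 1) (μ * Real.log T) - M' * cR R2 μ) := by
    ring
  rw [h7]
  refine (abs_sub_le_add _ _).trans ?_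
  linarith


end W207.PU
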