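import Pool.Agent.W207.PU.AbsG
import Pool.Agent.W605.PR.Mono

/-! # Few coincident ordinates, abstract form -/

open Filter Topology Set MeasureTheory
open scoped BigOperators

namespace W207.PU

open W207.PR

/-- the limit function, without orthogonality -/
lemma limit0 (hHELLY : S_HELLY) (hDEC : S_DEC) {F : ℕ → ℝ → ℝ} {C0 : ℝ}
    (hmono : ∀ j, Monotone (F j)) (hbd : ∀ j u, |F j u| ≤ C0 * (1 + |u|)) :
    ∃ (φ : ℕ → ℕ) (Q : ℝ → ℝ), StrictMono φ ∧ Monotone Q ∧
      (∀ u, ContinuousAt Q u → Tendsto (fun j => F (φ j) u) atTop (𝓝 (Q u))) ∧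
      ∀ ψ, Tst ψ → IntegrableOn (fun u => dt ψ u * Q u) (Ioi 0) ∧
        Tendsto (fun j => ∫ u in Ioi (0 : ℝ), dt ψ u * F (φ j) u) atTop
        (𝓝 (∫ u in Ioi (0 : ℝ), dt ψ u * Q u)) := by
  obtain ⟨φ, Q, hφ, hQ, hlim⟩ := hHELLY F (fun u => C0 * (1 + |u|)) hmono hbd
  have hcnt : Set.Countable {u | ¬ ContinuousAt Q u} := hQ.countable_not_continuousAt
  have hae : ∀ᵐ u ∂(volume.restrict (Ioi (0 : ℝ))), ContinuousAt Q u :=
    ae_restrict_of_ae (by
      rw [ae_iff]
      exact hcnt.measure_zero _)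
  have hpos : ∀ᵐ u ∂(volume.restrict (Ioi (0 : ℝ))), 0 < u := ae_restrict_mem measurableSet_Ioi
  have hQb : ∀ u, ContinuousAt Q u → |Q u| ≤ C0 * (1 + |u|) := by
    intro u hu
    exact le_of_tendsto (hlim u hu).abs (Filter.Eventually.of_forall fun j => hbd _ _)
  refine ⟨φ, Q, hφ, hQ, hlim, ?_⟩
  intro ψ hψ
  obtain ⟨hder, hcont, hdec⟩ := hDEC ψ hψ
  obtain ⟨K, hK, hKb⟩ := hdec 3
  have hC0 : 0 ≤ C0 := by
    have := hbd 0 0
    simp at this
    exact (abs_nonneg _).trans this
  -- dominating function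
  have hdom : ∀ u : ℝ, 0 < u →
      |dt ψ u| * (C0 * (1 + |u|)) ≤ K * C0 * (1 + u) ^ (-2 : ℝ) := by
    intro u hu
    have h1 := (hKb u).2
    rw [abs_of_pos hu] at h1 ⊢
    have h2 : 0 < 1 + u := by linarith
    have h3 : (1 + u) ^ (-2 : ℝ) = ((1 + u) ^ 2)⁻¹ := by
      rw [Real.rpow_neg h2.le]; norm_cast
    rw [h3, ← div_eq_mul_inv, le_div_iff₀ (by positivity)]
    calc |dt ψ u| * (C0 * (1 + u)) * (1 + u) ^ 2 = (|dt ψ u| * (1 + u) ^ 3) * C0 := by ring
      _ ≤ K * C0 := mul_le_mul_of_nonneg_right h1 hC0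
  have hint : IntegrableOn (fun u : ℝ => K * C0 * (1 + u) ^ (-2 : ℝ)) (Ioi 0) := by
    apply Integrable.const_mul
    have h1 := integrableOn_Ioi_rpow_of_lt (a := -2) (by norm_num) (show (0 : ℝ) < 1 by norm_num)
    have h2 : (fun u : ℝ => (1 + u) ^ (-2 : ℝ)) = fun u => (fun x : ℝ => x ^ (-2 : ℝ)) (u + 1) := by
      ext u; rw [add_comm]
    rw [h2]
    have h3 := (measurePreserving_add_right volume (1 : ℝ)).integrableOn_comp_preimage
      (MeasurableEquiv.addRight (1 : ℝ)).measurableEmbedding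
      (f := fun x : ℝ => x ^ (-2 : ℝ)) (s := Ioi 1)
    have h4 : (fun x : ℝ => x + 1) ⁻¹' Ioi 1 = Ioi 0 := by
      ext x; simp
    rw [h4] at h3
    exact h3.2 h1
  constructor
  · refine Integrable.mono' hint (hcont.measurable.mul hQ.measurable).aestronglyMeasurable ?_
    filter_upwards [hpos, hae] with u hu hu2
    rw [norm_mul, Real.norm_eq_abs, Real.norm_eq_abs]
    exact (mul_le_mul_of_nonneg_left (hQb u hu2) (abs_nonneg _)).trans (hdom u hu)
  · refine tendsto_integral_of_dominated_convergence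
      (fun u => K * C0 * (1 + u) ^ (-2 : ℝ)) ?_ hint ?_ ?_
    · intro j
      exact (hcont.measurable.mul (hmono _).measurable).aestronglyMeasurable
    · intro j
      filter_upwards [hpos] with u hu
      rw [norm_mul, Real.norm_eq_abs, Real.norm_eq_abs]
      refine le_trans ?_ (hdom u hu)
      exact mul_le_mul_of_nonneg_left (hbd _ _) (abs_nonneg _)
    · filter_upwards [hae] with u hu
      exact (hlim u hu).const_mul _

/-- the scaled test function -/
noncomputable def scl (R : ℝ) (ψ : ℝ → ℝ) : ℝ → ℝ := fun a => R * ψ (R * a)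

theorem diag_abs (hHELLY : S_HELLY) (hDEC : S_DEC) (hIBG : S_IBG) (hTEST : S_TEST)
    {F : ℕ → ℝ → ℝ} {C0 : ℝ} (hmono : ∀ j, Monotone (F j))
    (hbd : ∀ j u, |F j u| ≤ C0 * (1 + |u|)) (ν : ℕ → ℝ) (C c : ℝ) (hc : 0 < c)
    (hlow : ∀ u : ℝ, 0 < u → ∀ ε : ℝ, 0 < ε → ∀ᶠ j in atTop,
      ν j + 2 * G u - (C * Real.exp (-(c * u)) + ε) ≤ F j u)
    (hR : ∀ ψ, Tst ψ → ∃ C' R0 : ℝ, ∀ R : ℝ, R0 ≤ R → ∀ᶠ j in atTop,
      |(∫ u in Ioi (0 : ℝ), dt (scl R ψ) u * F j u) -
        ∫ u in Ioi (0 : ℝ), dt (scl R ψ) u * (1 + 2 * G u)| ≤ C' / R) :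
    ∀ ε : ℝ, 0 < ε → ∀ᶠ j in atTop, ν j ≤ 1 + ε := by
  intro ε hε
  by_contra hcon
  have hfreq : ∃ᶠ j in atTop, 1 + ε < ν j := by
    intro h
    apply hcon
    filter_upwards [h] with j hj
    exact not_lt.1 hj
  obtain ⟨ns, hns, hns2⟩ := Filter.extraction_of_frequently_atTop hfreq
  obtain ⟨h, hhc, h01, hU, hdech, hpsi⟩ := hTEST 1 one_pos
  obtain ⟨ψ, hψ, hψd⟩ := hpsi 0
  simp only [mul_zero, zero_add, pow_one] at hψd
  obtain ⟨C', R0, hR⟩ := hR ψ hψ
  obtain ⟨φ, Q, hφ, hQ, hlim, hlimI⟩ := limit0 hHELLY hDEC (F := fun j => F (ns j))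
    (fun j => hmono _) (fun j u => hbd _ _)
  have hcnt : Set.Countable {u | ¬ ContinuousAt Q u} := hQ.countable_not_continuousAt
  have hae : ∀ᵐ u ∂(volume.restrict (Ioi (0 : ℝ))), ContinuousAt Q u :=
    ae_restrict_of_ae (by
      rw [ae_iff]
      exact hcnt.measure_zero _)
  have hpos : ∀ᵐ u ∂(volume.restrict (Ioi (0 : ℝ))), 0 < u := ae_restrict_mem measurableSet_Ioi
  -- the lower bound for the limit
  have hQlow : ∀ᵐ u ∂(volume.restrict (Ioi (0 : ℝ))),
      ε - |C| * Real.exp (-(c * u)) ≤ Q u - (1 + 2 * G u) := by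
    filter_upwards [hae, hpos] with u h1 h2
    have h4 : ∀ η : ℝ, 0 < η → 1 + ε + 2 * G u - (C * Real.exp (-(c * u)) + η) ≤ Q u := by
      intro η hη
      refine ge_of_tendsto (hlim u h1) ?_
      have h5 : ∀ᶠ j in atTop, ν (ns (φ j)) + 2 * G u - (C * Real.exp (-(c * u)) + η) ≤
          F (ns (φ j)) u := (hns.tendsto_atTop.comp hφ.tendsto_atTop).eventually (hlow u h2 η hη)
      filter_upwards [h5] with j hj
      have := hns2 (φ j)
      linarith
    have h6 : 1 + ε + 2 * G u - C * Real.exp (-(c * u)) ≤ Q u := by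
      apply le_of_forall_pos_sub_le
      intro η hη
      have := h4 η hη
      linarith
    have h7 : C * Real.exp (-(c * u)) ≤ |C| * Real.exp (-(c * u)) :=
      mul_le_mul_of_nonneg_right (le_abs_self C) (Real.exp_pos _).le
    linarith
  -- the inequality for every `R`
  have hkey : ∀ R : ℝ, max R0 1 ≤ R → ε / 8 ≤ C' / R + |C| / c ^ 2 / R ^ 2 := by
    intro R hRR
    have hR0 : R0 ≤ R := (le_max_left _ _).trans hRR
    have hR1 : 1 ≤ R := (le_max_right _ _).trans hRR
    have hRpos : 0 < R := by linarith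
    have hψR : Tst (scl R ψ) := Pool.Agent.W605.PR.tst_scale hψ hR1
    have hdt : ∀ u, dt (scl R ψ) u = -(R⁻¹ ^ 2 * (u * h (u / R))) := by
      intro u
      have := Pool.Agent.W605.PR.dt_scale (ψ := ψ) hR1 u
      unfold scl
      rw [this, hψd]
      ring
    obtain ⟨hi1, hlim1⟩ := hlimI (scl R ψ) hψR
    obtain ⟨hi2, -⟩ := hIBG hDEC (scl R ψ) hψR
    have h1 : ∀ᶠ j in atTop, |(∫ u in Ioi (0 : ℝ), dt (scl R ψ) u * F (ns (φ j)) u) -
        ∫ u in Ioi (0 : ℝ), dt (scl R ψ) u * (1 + 2 * G u)| ≤ C' / R :=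
      (hns.tendsto_atTop.comp hφ.tendsto_atTop).eventually (hR R hR0)
    have h2 : |(∫ u in Ioi (0 : ℝ), dt (scl R ψ) u * Q u) -
        ∫ u in Ioi (0 : ℝ), dt (scl R ψ) u * (1 + 2 * G u)| ≤ C' / R :=
      le_of_tendsto (hlim1.sub_const _).abs h1
    rw [← integral_sub hi1 hi2] at h2
    have h3 : ∫ u in Ioi (0 : ℝ), (-(dt (scl R ψ) u)) * (Q u - (1 + 2 * G u)) ≤ C' / R := by
      have e : ∀ u, (-(dt (scl R ψ) u)) * (Q u - (1 + 2 * G u)) =
          -(dt (scl R ψ) u * Q u - dt (scl R ψ) u * (1 + 2 * G u)) := by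
        intro u; ring
      simp_rw [e]
      rw [integral_neg]
      exact (neg_le_abs _).trans h2
    have hi3 : IntegrableOn (fun u => (-(dt (scl R ψ) u)) * (Q u - (1 + 2 * G u))) (Ioi 0) := by
      have e : (fun u => (-(dt (scl R ψ) u)) * (Q u - (1 + 2 * G u))) = fun u =>
          -(dt (scl R ψ) u * Q u - dt (scl R ψ) u * (1 + 2 * G u)) := by
        ext u; ring
      rw [e]
      exact (hi1.sub hi2).neg
    -- the two comparison functions
    have hexp : IntegrableOn (fun u : ℝ => u * Real.exp (-(c * u))) (Ioi 0) ∧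
        ∫ u in Ioi (0 : ℝ), u * Real.exp (-(c * u)) = 1 / c ^ 2 := by
      have e1 : ∀ u : ℝ, u ^ ((2 : ℝ) - 1) * Real.exp (-(c * u)) = u * Real.exp (-(c * u)) := by
        intro u
        norm_num
      constructor
      · have := Real.integral_rpow_mul_exp_neg_mul_Ioi (a := 2) (r := c) (by norm_num) hc
        by_contra hni
        have h0 : ∫ u in Ioi (0 : ℝ), u ^ ((2 : ℝ) - 1) * Real.exp (-(c * u)) = 0 := by
          apply integral_undef
          intro hI
          apply hni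
          simp_rw [e1] at hI
          exact hI
        rw [h0] at this
        have hp : 0 < (1 / c) ^ (2 : ℝ) * Real.Gamma 2 := by
          have : 0 < Real.Gamma 2 := Real.Gamma_pos_of_pos (by norm_num)
          positivity
        linarith
      · have := Real.integral_rpow_mul_exp_neg_mul_Ioi (a := 2) (r := c) (by norm_num) hc
        simp_rw [e1] at this
        rw [this, Real.Gamma_two, mul_one]
        norm_num
    have hind : IntegrableOn (fun u : ℝ => (Ioc (0 : ℝ) R).indicator (fun u => u / 4) u) (Ioi 0) := by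
      apply IntegrableOn.integrable_indicator _ measurableSet_Ioc |>.integrableOn
      exact (Continuous.integrableOn_Icc (by fun_prop)).mono_set Ioc_subset_Icc_self
    have hindI : ∫ u in Ioi (0 : ℝ), (Ioc (0 : ℝ) R).indicator (fun u => u / 4) u = R ^ 2 / 8 := by
      rw [setIntegral_indicator measurableSet_Ioc]
      have : Ioi (0 : ℝ) ∩ Ioc 0 R = Ioc 0 R := by
        apply inter_eq_right.2
        intro x hx; exact hx.1
      rw [this, ← intervalIntegral.integral_of_le hRpos.le, intervalIntegral.integral_div,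
        integral_id]
      ring
    have hlowI : ∫ u in Ioi (0 : ℝ), (R⁻¹ ^ 2 * (ε * (Ioc (0 : ℝ) R).indicator (fun u => u / 4) u -
        |C| * (u * Real.exp (-(c * u))))) ≤
        ∫ u in Ioi (0 : ℝ), (-(dt (scl R ψ) u)) * (Q u - (1 + 2 * G u)) := by
      refine setIntegral_mono_ae_restrict
        (((hind.const_mul ε).sub (hexp.1.const_mul |C|)).const_mul _) hi3 ?_
      filter_upwards [hQlow, hpos] with u g1 g2
      rw [hdt, neg_neg]
      have g3 := h01 (u / R)
      have g4 : (Ioc (0 : ℝ) R).indicator (fun u => u / 4) u ≤ u * h (u / R) := by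
        by_cases hu : u ∈ Ioc (0 : ℝ) R
        · rw [indicator_of_mem hu]
          have : 1 / 4 ≤ h (u / R) := by
            apply hU
            rw [abs_of_pos (by positivity), div_le_one hRpos]
            exact hu.2
          nlinarith
        · rw [indicator_of_notMem hu]
          exact mul_nonneg g2.le g3.1
      have g5 : 0 ≤ u * h (u / R) := mul_nonneg g2.le g3.1
      have g6 : u * h (u / R) * (|C| * Real.exp (-(c * u))) ≤ |C| * (u * Real.exp (-(c * u))) := by
        have : u * h (u / R) ≤ u := by nlinarith [g3.2]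
        calc u * h (u / R) * (|C| * Real.exp (-(c * u))) ≤ u * (|C| * Real.exp (-(c * u))) :=
              mul_le_mul_of_nonneg_right this (by positivity)
          _ = _ := by ring
      have g7 : u * h (u / R) * (ε - |C| * Real.exp (-(c * u))) ≤
          u * h (u / R) * (Q u - (1 + 2 * G u)) := mul_le_mul_of_nonneg_left g1 g5
      have g8 : ε * (Ioc (0 : ℝ) R).indicator (fun u => u / 4) u ≤ ε * (u * h (u / R)) :=
        mul_le_mul_of_nonneg_left g4 hε.le
      rw [mul_assoc]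
      apply mul_le_mul_of_nonneg_left _ (by positivity)
      nlinarith
    rw [integral_const_mul, integral_sub (hind.const_mul ε) (hexp.1.const_mul |C|),
      integral_const_mul, integral_const_mul, hindI, hexp.2] at hlowI
    have h5 := hlowI.trans h3
    have h6 : R⁻¹ ^ 2 * (ε * (R ^ 2 / 8) - |C| * (1 / c ^ 2)) = ε / 8 - |C| / c ^ 2 / R ^ 2 := by
      field_simp
    rw [h6] at h5
    linarith
  -- let `R` tend to infinity
  have hlimR : Tendsto (fun R : ℝ => C' / R + |C| / c ^ 2 / R ^ 2) atTop (𝓝 (0 + 0)) := by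
    refine Tendsto.add (tendsto_const_nhds.div_atTop tendsto_id) ?_
    exact tendsto_const_nhds.div_atTop (tendsto_pow_atTop (by norm_num))
  have h1 : ε / 8 ≤ 0 + 0 := ge_of_tendsto hlimR (by
    filter_upwards [eventually_ge_atTop (max R0 1)] with R hR
    exact hkey R hR)
  linarith

end W207.PU
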