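import Pool.Agent.W207.PU.ZetaU

/-! # The unconditional equivalences -/

open Complex Filter Topology Set MeasureTheory
open scoped BigOperators

namespace W207.PU

open W207.PR

/-- the inputs -/
structure Inp : Prop where
  cell : S_CELL
  ubu : UBU
  dec : S_DEC
  ibp : S_IBP
  ibg : S_IBG
  helly : S_HELLY
  test : S_TEST
  det : S_DET
  uniq : S_UNIQ
  blk1 : BLK1
  blk2 : BLK2

/-- the sequence of pair counts, from some point on -/
lemma shift_seq (I : Inp) {t : ℕ → ℝ} (ht : Tendsto t atTop atTop) :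
    ∃ (j0 : ℕ) (C0 : ℝ), (∀ j, Monotone (P (t (j + j0)))) ∧
      (∀ j u, |P (t (j + j0)) u| ≤ C0 * (1 + |u|)) ∧ ∀ j, 10 ≤ t (j + j0) := by
  obtain ⟨C, T0, hC, hT0, hub⟩ := I.ubu
  obtain ⟨j0, hj0⟩ := eventually_atTop.1 (ht.eventually_ge_atTop T0)
  refine ⟨j0, C, fun j => P_mono (hT0.trans (hj0 _ (by omega))), fun j u => ?_,
    fun j => hT0.trans (hj0 _ (by omega))⟩
  have hTj : T0 ≤ t (j + j0) := hj0 _ (by omega)
  have h10 := hT0.trans hTj
  rcases lt_or_ge u 0 with h | h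
  · rw [P_neg h10 h, abs_zero]
    positivity
  · rw [abs_of_nonneg (P_nonneg h10 u), abs_of_nonneg h]
    exact hub _ hTj u h

/-- one-sided bounds along a sequence with few zeros off the line -/
theorem core_seq (I : Inp) {t : ℕ → ℝ} (ht : Tendsto t atTop atTop)
    (hoff : Tendsto (fun j => (Nof (t j) : ℝ) / X (t j)) atTop (𝓝 0)) (σ : ℝ)
    (hσ : σ = 1 ∨ σ = -1) (C c : ℝ) (hc : 0 < c)
    (hlow : ∀ u : ℝ, 0 < u → ∀ ε : ℝ, 0 < ε → ∀ᶠ j in atTop,
      -(C * Real.exp (-(c * u)) + ε) ≤ σ * D (t j) u) :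
    ∀ u : ℝ, 0 < u → Tendsto (fun j => P (t j) u) atTop (𝓝 (1 + 2 * G u)) := by
  obtain ⟨j0, C0, hmono, hbd, -⟩ := shift_seq I ht
  obtain ⟨μ, hμ0, hμ1, horth⟩ := orth_seq I.cell I.ubu I.dec I.ibp I.ibg I.blk2
    (ht.comp (tendsto_add_atTop_nat j0)) (hoff.comp (tendsto_add_atTop_nat j0))
  obtain ⟨hMT, hS⟩ := scale_seq hμ0 hμ1 (F := fun j => P (t (j + j0))) hmono hbd horth
  have h := coreG I.helly I.dec I.test I.det I.uniq hMT hS σ hσ C (c / μ) (by positivity) (by
    intro v hv ε hε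
    have h1 := (tendsto_add_atTop_nat j0).eventually (hlow (v / μ) (by positivity) ε hε)
    filter_upwards [h1] with j hj
    have e : c / μ * v = c * (v / μ) := by ring
    rw [e]
    exact hj)
  intro u hu
  have h2 := h (μ * u) (by positivity)
  simp only [mul_div_cancel_left₀ _ hμ0.ne'] at h2
  exact (tendsto_add_atTop_iff_nat j0).1 h2

/-- the diagonal -/
theorem diag_seq (I : Inp) {t : ℕ → ℝ} (ht : Tendsto t atTop atTop) (C c : ℝ) (hc : 0 < c)
    (hlow : ∀ u : ℝ, 0 < u → ∀ ε : ℝ, 0 < ε → ∀ᶠ j in atTop,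
      Neu (t j) / X (t j) + 2 * G u - (C * Real.exp (-(c * u)) + ε) ≤ P (t j) u) :
    ∀ ε : ℝ, 0 < ε → ∀ᶠ j in atTop, Neu (t j) / X (t j) ≤ 1 + ε := by
  obtain ⟨j0, C0, hmono, hbd, -⟩ := shift_seq I ht
  have h := diag_abs I.helly I.dec I.ibg I.test (F := fun j => P (t (j + j0))) hmono hbd
    (fun j => Neu (t (j + j0)) / X (t (j + j0))) C c hc (by
      intro u hu ε hε
      exact (tendsto_add_atTop_nat j0).eventually (hlow u hu ε hε)) (by
      intro ψ hψ
      exact approx_seq I.cell I.ubu I.dec I.ibp I.ibg I.blk1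
        (ht.comp (tendsto_add_atTop_nat j0)) ψ hψ)
  intro ε hε
  obtain ⟨N, hN⟩ := eventually_atTop.1 (h ε hε)
  filter_upwards [eventually_ge_atTop (N + j0)] with j hj
  have := hN (j - j0) (by omega)
  rwa [Nat.sub_add_cancel (by omega)] at this

/-- almost all zeros are on the critical line -/
def AL (l : Filter ℝ) : Prop := Tendsto (fun T => (Nof T : ℝ) / Nal T) l (𝓝 0)

/-- upper bound up to an exponentially small loss -/
def UpperU (l : Filter ℝ) : Prop := ∃ C c : ℝ, 0 < c ∧ ∀ a : ℝ, 0 < a → ∀ ε : ℝ, 0 < ε →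
  ∀ᶠ T in l, (Nst T a : ℝ) + Neu T / 2 ≤
    (gg a + 1 / (4 * Real.pi) + C * Real.exp (-(c * a)) + ε) * (T * Real.log T)

lemma Nal_le_Neu (T : ℝ) : (Nal T : ℝ) ≤ Neu T := by
  have := Neu_ge1 T
  have : (0 : ℝ) ≤ Nof T := Nat.cast_nonneg _
  linarith

lemma Neu_lower (ε : ℝ) (hε : 0 < ε) : ∀ᶠ T in atTop, 1 - ε ≤ Neu T / X T := by
  filter_upwards [Nal_lower ε hε, eventually_ge_atTop (10 : ℝ)] with T h1 h2
  exact h1.trans (div_le_div_of_nonneg_right (Nal_le_Neu T) (W207.PR.X_pos h2).le)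

/-- from `/ N(T)` to `/ X` -/
lemma AL_X (I : Inp) {l : Filter ℝ} (hl : l ≤ atTop) (h : AL l) :
    Tendsto (fun T => (Nof T : ℝ) / X T) l (𝓝 0) := by
  obtain ⟨C, T0, hC, hT0, hub⟩ := I.ubu
  have h1 : Tendsto (fun T => C * ((Nof T : ℝ) / Nal T)) l (𝓝 (C * 0)) := h.const_mul C
  rw [mul_zero] at h1
  refine tendsto_of_tendsto_of_tendsto_of_le_of_le' tendsto_const_nhds h1 ?_ ?_
  · filter_upwards [hl (eventually_ge_atTop (10 : ℝ))] with T hT
    have := W207.PR.X_pos hT
    positivity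
  · filter_upwards [hl (eventually_ge_atTop T0)] with T hT
    have hT10 := hT0.trans hT
    have hX := W207.PR.X_pos hT10
    have h2 := Neu_le_P hT10 le_rfl
    have h3 := hub T hT 0 le_rfl
    rw [add_zero, mul_one] at h3
    have h4 : (Nal T : ℝ) ≤ C * X T := by
      have := h2.trans h3
      rw [div_le_iff₀ hX] at this
      exact (Nal_le_Neu T).trans this
    have h5 : (Nof T : ℝ) ≤ Nal T := by
      have := Nso_le T
      have : (0 : ℝ) ≤ Nso T := Nat.cast_nonneg _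
      linarith
    rcases (Nat.cast_nonneg (α := ℝ) (Nal T)).eq_or_lt with h0 | h0
    · have h6 : (Nof T : ℝ) = 0 := le_antisymm (by linarith) (Nat.cast_nonneg _)
      rw [h6]; simp
    · rw [← mul_div_assoc, div_le_div_iff₀ hX h0]
      have : (0 : ℝ) ≤ Nof T := Nat.cast_nonneg _
      nlinarith

/-- few coincidences -/
lemma PP_Neu {l : Filter ℝ} (hl : l ≤ atTop) (h : PP l) :
    Tendsto (fun T => (Neu T : ℝ) / X T) l (𝓝 1) := by
  rw [Metric.tendsto_nhds]
  intro ε hε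
  set u : ℝ := ε / 8 with hu
  have hu0 : 0 < u := by positivity
  have h1 := h u hu0
  have h2 : ∀ᶠ T in l, P T u < 1 + 2 * G u + ε / 4 := h1.eventually (gt_mem_nhds (by linarith))
  have h4 := hl (Neu_lower (ε / 2) (by positivity))
  have h5 : G u ≤ u := G_le hu0.le
  filter_upwards [h2, h4, hl (eventually_ge_atTop (10 : ℝ))] with T g2 g4 g5
  have g3 := Neu_le_P g5 hu0.le
  rw [Real.dist_eq, abs_lt]
  constructor <;> linarith

lemma PP_NstU {l : Filter ℝ} (hl : l ≤ atTop) (h : PP l) (u : ℝ)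
    (hu : 0 < u) : Tendsto (fun T => (Nst T u : ℝ) / X T) l (𝓝 (G u)) := by
  have h1 := h u hu
  have h2 := (L1U u hu).mono_left hl
  have h3 := PP_Neu hl h
  have h4 := ((h1.sub h2).sub h3).div_const 2
  have e : (1 + 2 * G u - 0 - 1) / 2 = G u := by ring
  rw [e] at h4
  refine h4.congr fun T => ?_
  ring

lemma PP_PCCU {l : Filter ℝ} (hl : l ≤ atTop) (h : PP l) : PCC l := by
  intro a ha
  have h1 := (PP_NstU hl h a ha).div_const (2 * Real.pi)
  rw [gg_eq]
  refine h1.congr fun T => ?_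
  rw [XT, div_div, mul_comm (X T)]

/-- `N_=(T) ~ X` gives simple zeros on the line -/
lemma of_Neu {l : Filter ℝ} (hl : l ≤ atTop)
    (h : ∀ ε : ℝ, 0 < ε → ∀ᶠ T in l, (Neu T / X T : ℝ) ≤ 1 + ε) :
    AL l ∧ Tendsto (fun T => (Nof T : ℝ) / X T) l (𝓝 0) ∧
      Tendsto (fun T => (Nso T : ℝ) / Nal T) l (𝓝 1) := by
  have h2 : Tendsto (fun T => (Nal T : ℝ) / X T) l (𝓝 1) := by
    rw [Metric.tendsto_nhds]
    intro ε hε
    filter_upwards [h (ε / 2) (by positivity), hl (Nal_lower (ε / 2) (by positivity)),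
      hl (eventually_ge_atTop (10 : ℝ))] with T g1 g2 g3
    have hX := W207.PR.X_pos g3
    have g4 : (Nal T / X T : ℝ) ≤ Neu T / X T :=
      div_le_div_of_nonneg_right (Nal_le_Neu T) hX.le
    rw [Real.dist_eq, abs_lt]
    constructor <;> linarith
  have h1 : Tendsto (fun T => (Neu T : ℝ) / X T) l (𝓝 1) := by
    rw [Metric.tendsto_nhds]
    intro ε hε
    filter_upwards [h (ε / 2) (by positivity), hl (Neu_lower (ε / 2) (by positivity))] with T g1 g2
    rw [Real.dist_eq, abs_lt]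
    constructor <;> linarith
  have h3 : Tendsto (fun T => (Nof T : ℝ) / X T) l (𝓝 0) := by
    have h4 := h1.sub h2
    rw [sub_self] at h4
    refine tendsto_of_tendsto_of_tendsto_of_le_of_le' tendsto_const_nhds h4 ?_ ?_
    · filter_upwards [hl (eventually_ge_atTop (10 : ℝ))] with T hT
      have := W207.PR.X_pos hT
      positivity
    · filter_upwards [hl (eventually_ge_atTop (10 : ℝ))] with T hT
      rw [← sub_div]
      apply div_le_div_of_nonneg_right _ (W207.PR.X_pos hT).le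
      have := Neu_ge1 T
      linarith
  have hcan : ∀ (f : ℝ → ℝ) (x : ℝ), Tendsto (fun T => f T / X T) l (𝓝 x) →
      Tendsto (fun T => f T / Nal T) l (𝓝 x) := by
    intro f x hf
    have h4 := hf.div h2 one_ne_zero
    rw [div_one] at h4
    refine h4.congr' ?_
    filter_upwards [hl (eventually_ge_atTop (10 : ℝ))] with T g
    have hX := W207.PR.X_pos g
    show f T / X T / (Nal T / X T) = _
    rw [div_div_div_cancel_right₀ hX.ne']
  refine ⟨hcan _ _ h3, h3, hcan _ _ ?_⟩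
  have h4 := (h2.const_mul 2).sub h1
  have e : (2 : ℝ) * 1 - 1 = 1 := by norm_num
  rw [e] at h4
  refine tendsto_of_tendsto_of_tendsto_of_le_of_le' h4 h2 ?_ ?_
  · filter_upwards [hl (eventually_ge_atTop (10 : ℝ))] with T g
    have hX := W207.PR.X_pos g
    have h5 : 2 * (Nal T / X T : ℝ) - Neu T / X T = (2 * Nal T - Neu T) / X T := by ring
    rw [h5]
    apply div_le_div_of_nonneg_right _ hX.le
    have := Neu_ge2 T
    linarith
  · filter_upwards [hl (eventually_ge_atTop (10 : ℝ))] with T g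
    apply div_le_div_of_nonneg_right _ (W207.PR.X_pos g).le
    have := Nso_le T
    have : (0 : ℝ) ≤ Nof T := Nat.cast_nonneg _
    linarith

/-- from the lower bound, along a sequence -/
lemma seq_Lower (I : Inp) {t : ℕ → ℝ} (ht : Tendsto t atTop atTop) (C c : ℝ) (hc : 0 < c)
    (h : ∀ a : ℝ, 0 < a → ∀ ε : ℝ, 0 < ε → ∀ᶠ j in atTop,
      (gg a - C * Real.exp (-(c * a)) - ε) * (t j * Real.log (t j)) ≤ Nst (t j) a) :
    ∀ u : ℝ, 0 < u → Tendsto (fun j => P (t j) u) atTop (𝓝 (1 + 2 * G u)) := by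
  have hpi := Real.pi_pos
  have hN : ∀ u : ℝ, 0 < u → ∀ ε : ℝ, 0 < ε → ∀ᶠ j in atTop,
      Neu (t j) / X (t j) + 2 * G u - (4 * Real.pi * C * Real.exp (-(c * u)) + ε) ≤ P (t j) u := by
    intro u hu ε hε
    have g1 := h u hu (ε / (16 * Real.pi)) (by positivity)
    have g2 : ∀ᶠ j in atTop, -(ε / 4) < P (t j) u -
        (Neu (t j) / X (t j) + 2 * (Nst (t j) u / X (t j))) :=
      ((L1U u hu).comp ht).eventually (lt_mem_nhds (by linarith))
    filter_upwards [g1, g2, ht.eventually_ge_atTop (10 : ℝ)] with j g1 g2 g4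
    have hX := W207.PR.X_pos g4
    rw [XT, gg_eq] at g1
    have g5 : (G u - 2 * Real.pi * C * Real.exp (-(c * u)) - ε / 8) ≤
        Nst (t j) u / X (t j) := by
      rw [le_div_iff₀ hX]
      refine le_trans (le_of_eq ?_) g1
      field_simp
      ring
    linarith
  have hdiag := diag_seq I ht (4 * Real.pi * C) c hc hN
  have hof := of_Neu (l := map t atTop) (by rwa [← Tendsto]) (by
    intro ε hε
    rw [eventually_map]
    exact hdiag ε hε)
  have hoff := hof.2.1
  rw [tendsto_map'_iff] at hoff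
  apply core_seq I ht hoff 1 (Or.inl rfl) (4 * Real.pi * C) c hc
  intro u hu ε hε
  filter_upwards [hN u hu (ε / 2) (by positivity),
    ht.eventually (Neu_lower (ε / 2) (by positivity))] with j g1 g2
  unfold D
  linarith

/-- from the lower bound -/
lemma of_LowerU (I : Inp) {l : Filter ℝ} [l.IsCountablyGenerated] (hl : l ≤ atTop)
    (h : Lower l) : PP l := by
  obtain ⟨C, c, hc, h⟩ := h
  exact seq_form fun t ht => seq_Lower I (ht.mono_right hl) C c hc fun a ha ε hε =>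
    ht.eventually (h a ha ε hε)

/-- from the upper bound -/
lemma of_UpperU (I : Inp) {l : Filter ℝ} [l.IsCountablyGenerated] (hl : l ≤ atTop)
    (hAL : AL l) (h : UpperU l) : PP l := by
  obtain ⟨C, c, hc, h⟩ := h
  have hpi := Real.pi_pos
  have hoff := AL_X I hl hAL
  refine seq_form fun t ht => ?_
  apply core_seq I (ht.mono_right hl) (hoff.comp ht) (-1) (Or.inr rfl) (4 * Real.pi * C) c hc
  intro u hu ε hε
  have h1 : ∀ᶠ T in l, -(4 * Real.pi * C * Real.exp (-(c * u)) + ε) ≤ -1 * D T u := by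
    have g1 := h u hu (ε / (16 * Real.pi)) (by positivity)
    have g2 : ∀ᶠ T in l, P T u - (Neu T / X T + 2 * (Nst T u / X T)) < ε / 4 :=
      ((L1U u hu).mono_left hl).eventually (gt_mem_nhds (by linarith))
    filter_upwards [g1, g2, hl (eventually_ge_atTop (10 : ℝ))] with T g1 g2 g4
    have hX := W207.PR.X_pos g4
    rw [XT, gg_eq] at g1
    have g5 : (Nst T u / X T : ℝ) + Neu T / X T / 2 ≤
        (G u + 1 / 2 + 2 * Real.pi * C * Real.exp (-(c * u)) + ε / 8) := by
      have e1 : (Nst T u / X T : ℝ) + Neu T / X T / 2 = (Nst T u + Neu T / 2) / X T := by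
        field_simp
      rw [e1, div_le_iff₀ hX]
      refine g1.trans (le_of_eq ?_)
      field_simp
      ring
    unfold D
    linarith
  exact ht.eventually h1

lemma PP_UpperU {l : Filter ℝ} (hl : l ≤ atTop) (h : PP l) : UpperU l := by
  refine ⟨0, 1, one_pos, fun a ha ε hε => ?_⟩
  have hpi := Real.pi_pos
  have h1 := PP_NstU hl h a ha
  have h2 := PP_Neu hl h
  have h3 := h1.add (h2.div_const 2)
  have h4 : ∀ᶠ T in l, (Nst T a / X T : ℝ) + Neu T / X T / 2 < G a + 1 / 2 + 2 * Real.pi * ε :=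
    h3.eventually (gt_mem_nhds (by
      have : 0 < 2 * Real.pi * ε := by positivity
      linarith))
  filter_upwards [h4, hl (eventually_ge_atTop (10 : ℝ))] with T g1 g2
  have hX := W207.PR.X_pos g2
  have e1 : (Nst T a / X T : ℝ) + Neu T / X T / 2 = (Nst T a + Neu T / 2) / X T := by
    field_simp
  rw [e1, div_lt_iff₀ hX] at g1
  refine g1.le.trans (le_of_eq ?_)
  rw [XT, gg_eq]
  field_simp
  ring

/-- **The unconditional equivalences** -/
theorem finalU (I : Inp) (l : Filter ℝ) [l.IsCountablyGenerated] (hl : l ≤ atTop) :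
    (PCC l ↔ Lower l) ∧ (PCC l ↔ (AL l ∧ UpperU l)) ∧
    (PCC l → Tendsto (fun T => (Nso T : ℝ) / Nal T) l (𝓝 1)) := by
  have hP : PCC l → PP l := fun h => of_LowerU I hl (PCC_Lower hl h)
  have hN : PP l → AL l ∧ Tendsto (fun T => (Nof T : ℝ) / X T) l (𝓝 0) ∧
      Tendsto (fun T => (Nso T : ℝ) / Nal T) l (𝓝 1) := fun h => of_Neu hl fun ε hε =>
    ((PP_Neu hl h).eventually (gt_mem_nhds (show (1 : ℝ) < 1 + ε by linarith))).mono
      fun _ g => g.le
  refine ⟨⟨PCC_Lower hl, fun h => PP_PCCU hl (of_LowerU I hl h)⟩,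
    ⟨fun h => ⟨(hN (hP h)).1, PP_UpperU hl (hP h)⟩,
      fun h => PP_PCCU hl (of_UpperU I hl h.1 h.2)⟩, fun h => (hN (hP h)).2.2⟩

end W207.PU
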