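import Pool.Agent.W207.PU.SpecB
import Pool.Agent.W338.PR.Sum

/-! From the blocks to the pair sum up to height `T` (local form). -/

open Complex Filter Topology Set MeasureTheory
open scoped BigOperators

namespace W207.PU

open W207.PR (Tst ct dt MM G X P D SP)
open Pool.Agent.W338.PR (X_pos key geo)

theorem suml : S_SUML := by
  intro hCELL hUBU hDEC ψ hψ η ε hη hε
  obtain ⟨C, T0, hC, hT0, hUB⟩ := hUBU
  obtain ⟨hder, -, hdec⟩ := hDEC ψ hψ
  obtain ⟨K, hK, hKK⟩ := hdec 5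
  have hkey := key hC hT0 hUB hder hK (fun x => (hKK x).1) (fun x => (hKK x).2)
  have hpi := Real.pi_pos
  obtain ⟨J, hJ⟩ : ∃ J : ℕ, (32 * K * C + |MM ψ|) * (1 / 2 : ℝ) ^ J < ε / 4 := by
    have hA : 0 < 32 * K * C + |MM ψ| := by
      have := abs_nonneg (MM ψ)
      positivity
    obtain ⟨J, hJ⟩ := exists_pow_lt_of_lt_one
      (show (0 : ℝ) < ε / 4 / (32 * K * C + |MM ψ|) by positivity)
      (show (1 / 2 : ℝ) < 1 by norm_num)
    refine ⟨J, ?_⟩
    rw [lt_div_iff₀ hA] at hJ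
    linarith
  obtain ⟨B, hBk⟩ := hkey J
  -- the ratio of the main terms
  have hrat : ∀ k : ℕ, Tendsto (fun T : ℝ => X (T / 2 ^ (k + 1)) / X T) atTop
      (𝓝 (1 / 2 ^ (k + 1))) := by
    intro k
    have h3 : Tendsto (fun T : ℝ => 1 / 2 ^ (k + 1) *
        (1 - (((k : ℝ) + 1) * Real.log 2) * (Real.log T)⁻¹)) atTop
        (𝓝 (1 / 2 ^ (k + 1) * (1 - (((k : ℝ) + 1) * Real.log 2) * 0))) := by
      refine Tendsto.const_mul _ (Tendsto.const_sub _ (Tendsto.const_mul _ ?_))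
      exact tendsto_inv_atTop_zero.comp Real.tendsto_log_atTop
    rw [mul_zero, sub_zero, mul_one] at h3
    refine h3.congr' ?_
    filter_upwards [eventually_ge_atTop 10] with T hT
    have hTpos : 0 < T := by linarith
    have hL : 0 < Real.log T := Real.log_pos (by linarith)
    unfold X
    rw [Real.log_div hTpos.ne' (by positivity), Real.log_pow]
    push_cast
    field_simp
  have hsumr : Tendsto (fun T : ℝ => ∑ k ∈ Finset.range J, X (T / 2 ^ (k + 1)) / X T) atTop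
        (𝓝 (∑ k ∈ Finset.range J, 1 / 2 ^ (k + 1))) :=
    tendsto_finsetSum _ fun k _ => hrat k
  rw [geo] at hsumr
  have hBL : Tendsto (fun T : ℝ => B * (Real.log T)⁻¹) atTop (𝓝 (B * 0)) :=
    Tendsto.const_mul _ (tendsto_inv_atTop_zero.comp Real.tendsto_log_atTop)
  rw [mul_zero] at hBL
  rw [Metric.tendsto_nhds] at hsumr hBL
  set ε2 : ℝ := ε / (4 * (|MM ψ| + η + 1)) with hε2
  have hM0 := abs_nonneg (MM ψ)
  have hε20 : 0 < ε2 := by positivity
  have hε2' : (|MM ψ| + η) * ε2 ≤ ε / 4 := by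
    rw [hε2, mul_div_assoc', div_le_div_iff₀ (by positivity) (by norm_num)]
    nlinarith
  have hbig := ((hsumr ε2 hε20).and (hBL (ε / 4) (by positivity))).and
    (hBk.and (eventually_ge_atTop ((10 : ℝ) * 2 ^ (J + 1))))
  obtain ⟨T1, hT1⟩ := eventually_atTop.1 hbig
  refine ⟨1 / 2 ^ J, max T1 10, by positivity, le_max_right _ _, fun T hT hloc => ?_⟩
  obtain ⟨⟨h1, h2⟩, h3, h4⟩ := hT1 T ((le_max_left _ _).trans hT)
  have hT10 : 10 ≤ T := (le_max_right _ _).trans hT
  have hX := X_pos hT10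
  rw [Real.dist_eq] at h1 h2
  rw [sub_zero] at h2
  set Sk := ∑ k ∈ Finset.range J, W201FW.SS (ct ψ) (T / 2 ^ (k + 1) + 1)
        (2 * (T / 2 ^ (k + 1)) - 1) (Real.log (T / 2 ^ (k + 1))) with hSk
  set ρ : ℝ := ∑ k ∈ Finset.range J, X (T / 2 ^ (k + 1)) / X T with hρ
  have hVk : ∀ k ∈ Finset.range J, 10 ≤ T / 2 ^ (k + 1) := by
    intro k hk
    rw [Finset.mem_range] at hk
    rw [le_div_iff₀ (by positivity)]
    have : (2 : ℝ) ^ (k + 1) ≤ 2 ^ (J + 1) := pow_le_pow_right₀ (by norm_num) (by omega)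
    linarith
  have h5 : |SP ψ T / X T - Sk / X T| ≤ 32 * K * C / 2 ^ J + B / Real.log T := by
    rw [← sub_div, abs_div, abs_of_pos hX, div_le_iff₀ hX]
    exact h3
  have h6 : B / Real.log T < ε / 4 := by
    rw [div_eq_mul_inv]
    exact (le_abs_self _).trans_lt h2
  -- the blocks
  have h7 : |Sk / X T - MM ψ * ρ| ≤ η * ρ := by
    have e1 : Sk / X T - MM ψ * ρ = ∑ k ∈ Finset.range J,
        (W201FW.SS (ct ψ) (T / 2 ^ (k + 1) + 1) (2 * (T / 2 ^ (k + 1)) - 1)
          (Real.log (T / 2 ^ (k + 1))) / X (T / 2 ^ (k + 1)) - MM ψ) *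
          (X (T / 2 ^ (k + 1)) / X T) := by
      rw [hSk, hρ, Finset.sum_div, Finset.mul_sum, ← Finset.sum_sub_distrib]
      refine Finset.sum_congr rfl fun k hk => ?_
      have hXk := X_pos (hVk k hk)
      field_simp
    rw [e1, hρ, Finset.mul_sum]
    refine (Finset.abs_sum_le_sum_abs _ _).trans (Finset.sum_le_sum fun k hk => ?_)
    have hXk := X_pos (hVk k hk)
    rw [abs_mul, abs_of_pos (show 0 < X (T / 2 ^ (k + 1)) / X T by positivity)]
    apply mul_le_mul_of_nonneg_right _ (by positivity)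
    apply hloc
    · rw [Finset.mem_range] at hk
      rw [one_div, inv_mul_eq_div]
      apply div_le_div_of_nonneg_left (by linarith) (by positivity)
      exact pow_le_pow_right₀ (by norm_num) (by omega)
    · apply div_le_div_of_nonneg_left (by linarith) (by norm_num)
      calc (2 : ℝ) = 2 ^ 1 := (pow_one _).symm
        _ ≤ 2 ^ (k + 1) := pow_le_pow_right₀ (by norm_num) (by omega)
  have hJ0 : (0 : ℝ) ≤ (1 / 2) ^ J := by positivity
  have h8 : 32 * K * C / 2 ^ J = 32 * K * C * (1 / 2) ^ J := by rw [one_div_pow]; ring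
  have h9 : (1 : ℝ) / 2 ^ J = (1 / 2) ^ J := by rw [one_div_pow]
  rw [h9] at h1
  obtain ⟨g1, g2⟩ := abs_lt.1 h1
  have h10 : |MM ψ * ρ - MM ψ| ≤ |MM ψ| * ((1 / 2) ^ J + ε2) := by
    have : MM ψ * ρ - MM ψ = MM ψ * (ρ - 1) := by ring
    rw [this, abs_mul]
    apply mul_le_mul_of_nonneg_left _ hM0
    rw [abs_le]
    constructor <;> linarith
  have h11 : η * ρ ≤ η + η * ε2 := by
    have : ρ ≤ 1 + ε2 := by linarith
    nlinarith
  calc |SP ψ T / X T - MM ψ| = |(SP ψ T / X T - Sk / X T) +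
        ((Sk / X T - MM ψ * ρ) + (MM ψ * ρ - MM ψ))| := by
          congr 1; ring
    _ ≤ |SP ψ T / X T - Sk / X T| + (|Sk / X T - MM ψ * ρ| + |MM ψ * ρ - MM ψ|) :=
          (abs_add_le _ _).trans (add_le_add le_rfl (abs_add_le _ _))
    _ ≤ η + ε := by
        rw [h8] at h5
        nlinarith

end W207.PU
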