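import Pool.Agent.W207.PU.SpecB
import Pool.Agent.W338.PR.Pairs
import Pool.Agent.W335.PU.SCH

/-! # Pairs of ordinates within one mean spacing, unconditional -/

set_option autoImplicit false

open Complex Filter Topology Set MeasureTheory
open scoped BigOperators

namespace W207.PU

open W207.PR (Tst ct dt MM G X P D SP S_CELL S_DEC)
open Pool.Agent.W338.PR (ps ind mz ZT Bk PR BP_eq N2_eq decomp ps_mono ps_nonneg ind_nonneg)

namespace UB1

/-- the multiplicity is at least one at a zero -/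
lemma mz_ge' {V : ℝ} (hV : 1 ≤ V) {s : ℂ} (hs : s ∈ H332B.Zb V (2 * V)) : 1 ≤ mz s := by
  have h1 := (H332B.Step.mem_Zb V (2 * V) hV s).1 hs
  obtain ⟨h1, h2, h3, h4, h5⟩ := h1
  have h6 : s ∈ H370.Zf riemannZeta V (2 * V) := hs
  have h7 : 1 ≤ H370.mult riemannZeta s := by
    unfold H370.mult
    have hne : s ≠ 1 := by
      intro h
      rw [h] at h2
      simp at h2
    have han : AnalyticAt ℂ riemannZeta s := by
      have hd : DifferentiableOn ℂ riemannZeta {(1 : ℂ)}ᶜ := fun z hz =>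
        (differentiableAt_riemannZeta hz).differentiableWithinAt
      exact hd.analyticAt (isOpen_compl_singleton.mem_nhds hne)
    have hfin : analyticOrderAt riemannZeta s ≠ ⊤ := by
      intro htop
      have h3 := H370.good_zeta
      rw [analyticOrderAt_eq_top] at htop
      have hconn : IsPreconnected ({(1 : ℂ)}ᶜ : Set ℂ) :=
        (isConnected_compl_singleton_of_one_lt_rank (by simp) 1).isPreconnected
      have han2 : AnalyticOnNhd ℂ riemannZeta ({(1 : ℂ)}ᶜ : Set ℂ) := by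
        intro z hz
        have hd : DifferentiableOn ℂ riemannZeta {(1 : ℂ)}ᶜ := fun z hz =>
          (differentiableAt_riemannZeta hz).differentiableWithinAt
        exact hd.analyticAt (isOpen_compl_singleton.mem_nhds hz)
      have h4 := han2.eqOn_zero_of_preconnected_of_eventuallyEq_zero hconn
        (show s ∈ ({(1 : ℂ)}ᶜ : Set ℂ) from hne) htop
      have h5 : riemannZeta 2 = 0 := h4 (show (2 : ℂ) ∈ ({(1 : ℂ)}ᶜ : Set ℂ) by simp)
      exact riemannZeta_ne_zero_of_one_le_re (by simp) h5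
    have hpos : analyticOrderAt riemannZeta s ≠ 0 := by
      intro h0
      rw [han.analyticOrderAt_eq_zero] at h0
      exact h0 h5
    have : analyticOrderNatAt riemannZeta s ≠ 0 := by
      unfold analyticOrderNatAt
      intro h
      rw [ENat.toNat_eq_zero] at h
      rcases h with h | h
      · exact hpos h
      · exact hfin h
    omega
  show (1 : ℝ) ≤ (H370.mult riemannZeta s : ℝ)
  exact_mod_cast h7

/-- one block -/
lemma block (hMB : MB) : ∃ C V0 : ℝ, 0 < C ∧ 10 ≤ V0 ∧ ∀ V : ℝ, V0 ≤ V → ∀ w : ℝ,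
    w * Real.log V ≤ 7 →
    H332B.BP (V + 1) (2 * V - 1) w ≤ C * (V * Real.log V) := by
  classical
  obtain ⟨κ, C, V0, hκ, hC, hV0, hMB⟩ := hMB
  obtain ⟨C1, hC1, hsch⟩ := Pool.W335.PU.sch
  refine ⟨4 * (C1 * 7 * C), V0, by positivity, hV0, fun V hV w hw => ?_⟩
  have hV10 : 10 ≤ V := hV0.trans hV
  have hlog : 0 < Real.log V := Real.log_pos (by linarith)
  set Z := H332B.Zb (V + 1) (2 * V - 1) with hZ
  have hmem : ∀ s ∈ Z, 0 < s.re ∧ s.re < 1 ∧ V + 1 < s.im ∧ s.im ≤ 2 * V - 1 ∧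
      riemannZeta s = 0 := fun s hs =>
    (H332B.Step.mem_Zb (V + 1) (2 * V - 1) (by linarith) s).1 hs
  have hZ' : ∀ s ∈ Z, s ∈ H332B.Zb V (2 * V) := by
    intro s hs
    obtain ⟨h1, h2, h3, h4, h5⟩ := hmem s hs
    rw [H332B.Step.mem_Zb V (2 * V) (by linarith)]
    exact ⟨h1, h2, by linarith, by linarith, h5⟩
  have hone : ∀ s ∈ Z, 1 ≤ mz s := fun s hs => mz_ge' (by linarith) (hZ' s hs)
  have hnn : ∀ s : ℂ, 0 ≤ mz s := fun s => Nat.cast_nonneg _
  have h1 := hsch Z (fun s => s.im * Real.log V) mz hnn 7 (by norm_num)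
  have h2 := hMB V hV Z (fun s hs => by
    obtain ⟨h1, h2, h3, h4, h5⟩ := hmem s hs
    exact ⟨h5, h1, h2, by linarith, by linarith⟩)
  -- the pairs
  have h3 : H332B.BP (V + 1) (2 * V - 1) w ≤ 4 * ∑ s ∈ Z, ∑ s' ∈ Z,
      mz s * mz s' * ((1 + |s.im * Real.log V - s'.im * Real.log V| / 7)⁻¹) ^ 2 := by
    unfold H332B.BP
    rw [Finset.mul_sum]
    refine Finset.sum_le_sum fun s hs => ?_
    rw [Finset.mul_sum]
    refine Finset.sum_le_sum fun s' hs' => ?_
    have hm : 0 ≤ mz s * mz s' := mul_nonneg (hnn _) (hnn _)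
    split_ifs with h
    · have h4 : |s.im * Real.log V - s'.im * Real.log V| ≤ 7 := by
        rw [← sub_mul, abs_mul, abs_of_pos hlog]
        exact (mul_le_mul_of_nonneg_right h hlog.le).trans hw
      have h5 : 1 / 2 ≤ (1 + |s.im * Real.log V - s'.im * Real.log V| / 7)⁻¹ := by
        rw [one_div]
        apply inv_anti₀
        · have := abs_nonneg (s.im * Real.log V - s'.im * Real.log V)
          positivity
        · linarith
      have h6 : 1 / 4 ≤ ((1 + |s.im * Real.log V - s'.im * Real.log V| / 7)⁻¹) ^ 2 := by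
        nlinarith
      show mz s * mz s' ≤ _
      nlinarith
    · positivity
  -- the cells
  have h4 : ∑ k ∈ Z.image (fun s => ⌊s.im * Real.log V⌋),
      (∑ s ∈ Z with ⌊s.im * Real.log V⌋ = k, mz s) ^ 2 ≤
      ∑ k ∈ Z.image (ci V), (∑ s ∈ Z with ci V s = k, wt κ V s) ^ 4 := by
    have hci : (fun s : ℂ => ⌊s.im * Real.log V⌋) = ci V := rfl
    rw [hci]
    refine Finset.sum_le_sum fun k hk => ?_
    obtain ⟨s0, hs0, hk0⟩ := Finset.mem_image.1 hk
    have e : ∀ s : ℂ, (⌊s.im * Real.log V⌋ = k) = (ci V s = k) := fun s => rfl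
    have h5 : 1 ≤ ∑ s ∈ Z with ci V s = k, mz s := by
      have h6 : mz s0 ≤ ∑ s ∈ Z with ci V s = k, mz s :=
        Finset.single_le_sum (fun s _ => hnn s) (Finset.mem_filter.2 ⟨hs0, hk0⟩)
      exact (hone s0 hs0).trans h6
    have h6 : ∑ s ∈ Z with ci V s = k, mz s ≤ ∑ s ∈ Z with ci V s = k, wt κ V s := by
      refine Finset.sum_le_sum fun s _ => ?_
      unfold wt
      have h7 : 1 ≤ Real.exp (κ * |s.re - 1 / 2| * Real.log V) := by
        apply Real.one_le_exp
        have := abs_nonneg (s.re - 1 / 2)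
        positivity
      have h8 : (analyticOrderNatAt riemannZeta s : ℝ) = mz s := rfl
      rw [h8]
      have := hnn s
      nlinarith
    show (∑ s ∈ Z with ci V s = k, mz s) ^ 2 ≤ _
    calc (∑ s ∈ Z with ci V s = k, mz s) ^ 2 ≤ (∑ s ∈ Z with ci V s = k, mz s) ^ 4 :=
          pow_le_pow_right₀ h5 (by norm_num)
      _ ≤ _ := pow_le_pow_left₀ (by linarith) h6 4
  calc H332B.BP (V + 1) (2 * V - 1) w ≤ 4 * ∑ s ∈ Z, ∑ s' ∈ Z,
      mz s * mz s' * ((1 + |s.im * Real.log V - s'.im * Real.log V| / 7)⁻¹) ^ 2 := h3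
    _ ≤ 4 * (C1 * 7 * ∑ k ∈ Z.image (fun s => ⌊s.im * Real.log V⌋),
      (∑ s ∈ Z with ⌊s.im * Real.log V⌋ = k, mz s) ^ 2) := by
        apply mul_le_mul_of_nonneg_left _ (by norm_num)
        exact h1
    _ ≤ 4 * (C1 * 7 * (C * (V * Real.log V))) := by
        gcongr
        exact h4.trans h2
    _ = _ := by ring

/-- crude bound of the number of pairs -/
lemma crude : ∃ C : ℝ, 0 < C ∧ ∀ H w : ℝ, 1 ≤ H → H332B.N2 H w ≤ C * H ^ 4 := by
  classical
  obtain ⟨C, hC, hc⟩ := H343.zeta_count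
  refine ⟨C ^ 2, by positivity, fun H w hH => ?_⟩
  have h := hc H hH
  have hnn : ∀ s : ℂ, 0 ≤ mz s := fun s => Nat.cast_nonneg _
  have h1 : H332B.N2 H w ≤ (∑ s ∈ ZT H, mz s) ^ 2 := by
    unfold H332B.N2
    rw [sq, Finset.sum_mul_sum]
    refine Finset.sum_le_sum fun s _ => Finset.sum_le_sum fun s' _ => ?_
    split_ifs
    · exact le_rfl
    · exact mul_nonneg (hnn _) (hnn _)
  refine h1.trans ?_
  calc (∑ s ∈ ZT H, mz s) ^ 2 ≤ (C * H ^ 2) ^ 2 :=
        pow_le_pow_left₀ (Finset.sum_nonneg fun s _ => hnn s) h 2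
    _ = C ^ 2 * H ^ 4 := by ring

end UB1

open UB1 in
theorem ub1 : S_UB1 := by
  classical
  intro hMB
  obtain ⟨C1, V0, hC1, hV0, hblk⟩ := block hMB
  obtain ⟨C2, hC2, hcr⟩ := crude
  obtain ⟨C3, T0, hC3, hT0, hit⟩ := Pool.Agent.W338.PR.iter_step
  have hpi := Real.pi_pos
  have hpi3 := Real.pi_gt_three
  have hpi4 := Real.pi_lt_d2
  set H0 : ℝ := max (max V0 T0) 40 with hH0
  -- eventually
  have ev1 : ∀ᶠ T : ℝ in atTop, Real.log T ^ (2 : ℕ) ≤ T := by
    have := Real.isLittleO_pow_log_id_atTop (n := 2)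
    have h := this.bound (show (0 : ℝ) < 1 by norm_num)
    filter_upwards [h, eventually_ge_atTop 1] with T hT h1
    rw [one_mul, Real.norm_eq_abs, Real.norm_eq_abs, id, abs_of_nonneg (by linarith : 0 ≤ T)] at hT
    exact (le_abs_self _).trans hT
  have ev2 : ∀ᶠ T : ℝ in atTop, H0 ≤ T ^ (1 / 8 : ℝ) :=
    (tendsto_rpow_atTop (by norm_num)).eventually_ge_atTop _
  obtain ⟨T1, hT1⟩ := eventually_atTop.1 (ev1.and (ev2.and (eventually_ge_atTop (1000 : ℝ))))
  refine ⟨2 * Real.pi * (C1 + 16 * C2 + 4 * C3 ^ 2), max T1 10, by positivity, le_max_right _ _,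
    fun T hT => ?_⟩
  obtain ⟨hl2, hH, hT1000⟩ := hT1 T ((le_max_left _ _).trans hT)
  have hTpos : 0 < T := by linarith
  have hL : 0 < Real.log T := Real.log_pos (by linarith)
  have hL7 : 6.5 ≤ Real.log T := by
    have h1 : Real.exp 1 ≤ 2.7182818286 := Real.exp_one_lt_d9.le
    rw [Real.le_log_iff_exp_le hTpos]
    have h2 : Real.exp 6.5 ≤ 1000 := by
      have h3 : Real.exp 6.5 = Real.exp 1 ^ (6.5 : ℝ) := by
        rw [← Real.exp_mul]; norm_num
      have h4 : Real.exp 6.5 ^ (2 : ℕ) = Real.exp 1 ^ (13 : ℕ) := by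
        rw [← Real.exp_nat_mul, ← Real.exp_nat_mul]; norm_num
      have h5 : Real.exp 1 ^ (13 : ℕ) ≤ (2.7182818286 : ℝ) ^ (13 : ℕ) :=
        pow_le_pow_left₀ (Real.exp_pos _).le h1 13
      have h6 : (2.7182818286 : ℝ) ^ (13 : ℕ) ≤ 1000 ^ 2 := by norm_num
      have h7 := Real.exp_pos 6.5
      nlinarith
    linarith
  set w : ℝ := 2 * Real.pi / Real.log T with hw
  have hw0 : 0 ≤ w := by positivity
  have hw1 : w ≤ 1 := by
    rw [hw, div_le_one hL]
    nlinarith
  -- the number of blocks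
  set J : ℕ := ⌊Real.logb 2 (T ^ (7 / 8 : ℝ))⌋₊ with hJ
  have hT78 : 1 ≤ T ^ (7 / 8 : ℝ) := Real.one_le_rpow (by linarith) (by norm_num)
  have hlb0 : 0 ≤ Real.logb 2 (T ^ (7 / 8 : ℝ)) := Real.logb_nonneg (by norm_num) hT78
  have hJ1 : (2 : ℝ) ^ J ≤ T ^ (7 / 8 : ℝ) := by
    have h1 : (J : ℝ) ≤ Real.logb 2 (T ^ (7 / 8 : ℝ)) := Nat.floor_le hlb0
    rw [Real.le_logb_iff_rpow_le (by norm_num) (by linarith)] at h1
    rwa [Real.rpow_natCast] at h1
  have hJ2 : T ^ (7 / 8 : ℝ) < (2 : ℝ) ^ (J + 1) := by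
    have h1 : Real.logb 2 (T ^ (7 / 8 : ℝ)) < (J : ℝ) + 1 := Nat.lt_floor_add_one _
    rw [Real.logb_lt_iff_lt_rpow (by norm_num) (by linarith)] at h1
    have h2 : ((J : ℝ) + 1) = ((J + 1 : ℕ) : ℝ) := by push_cast; ring
    rwa [h2, Real.rpow_natCast] at h1
  have hJ3 : (J : ℝ) ≤ 2 * Real.log T := by
    have h1 : (J : ℝ) ≤ Real.logb 2 (T ^ (7 / 8 : ℝ)) := Nat.floor_le hlb0
    rw [Real.logb_rpow_eq_mul_logb_of_pos hTpos, Real.logb] at h1
    have h2 : Real.log T / Real.log 2 ≤ Real.log T / (1 / 2) := by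
      apply div_le_div_of_nonneg_left hL.le (by norm_num)
      have := Real.log_two_gt_d9
      linarith
    have h3 : 0 ≤ Real.log T / Real.log 2 := by positivity
    nlinarith
  have hTT : T ^ (7 / 8 : ℝ) * T ^ (1 / 8 : ℝ) = T := by
    rw [← Real.rpow_add hTpos]
    norm_num
  have hV0H : V0 ≤ H0 := (le_max_left _ _).trans (le_max_left _ _)
  have hT0H : T0 ≤ H0 := (le_max_right _ _).trans (le_max_left _ _)
  have h40H : 40 ≤ H0 := le_max_right _ _
  have hpJ : (0 : ℝ) < 2 ^ J := by positivity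
  have hlow : H0 ≤ T / 2 ^ J := by
    rw [le_div_iff₀ hpJ]
    calc H0 * 2 ^ J ≤ T ^ (1 / 8 : ℝ) * T ^ (7 / 8 : ℝ) := by gcongr
      _ = T := by rw [mul_comm]; exact hTT
  have hup : T / 2 ^ J ≤ 2 * T ^ (1 / 8 : ℝ) := by
    rw [div_le_iff₀ hpJ]
    have h1 : 0 < T ^ (1 / 8 : ℝ) := by positivity
    calc T = T ^ (7 / 8 : ℝ) * T ^ (1 / 8 : ℝ) := hTT.symm
      _ ≤ 2 ^ (J + 1) * T ^ (1 / 8 : ℝ) := by gcongr
      _ = 2 * T ^ (1 / 8 : ℝ) * 2 ^ J := by rw [pow_succ]; ring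
  have hlow' : H0 * 2 ^ J ≤ T := by rwa [le_div_iff₀ hpJ] at hlow
  have h1 := hit J T (by linarith) (le_trans (by gcongr) hlow') (le_trans (by gcongr) hlow') w hw0
    hw1
  -- the low part
  have h2 : H332B.N2 (T / 2 ^ J) w ≤ 16 * C2 * (T * Real.log T) := by
    have h3 := hcr (T / 2 ^ J) w (by linarith)
    have h4 : (T / 2 ^ J) ^ 4 ≤ 16 * T := by
      have h5 : (T / 2 ^ J) ^ 4 ≤ (2 * T ^ (1 / 8 : ℝ)) ^ 4 :=
        pow_le_pow_left₀ (by positivity) hup 4
      refine h5.trans ?_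
      rw [mul_pow, ← Real.rpow_natCast (T ^ (1 / 8 : ℝ)) 4, ← Real.rpow_mul hTpos.le]
      have h6 : T ^ ((1 / 8 : ℝ) * ((4 : ℕ) : ℝ)) ≤ T ^ (1 : ℝ) :=
        Real.rpow_le_rpow_of_exponent_le (by linarith) (by norm_num)
      rw [Real.rpow_one] at h6
      norm_num at h6 ⊢
      linarith
    calc H332B.N2 (T / 2 ^ J) w ≤ C2 * (T / 2 ^ J) ^ 4 := h3
      _ ≤ C2 * (16 * T) := by gcongr
      _ ≤ 16 * C2 * (T * Real.log T) := by
        have : T ≤ T * Real.log T := by nlinarith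
        have h7 : C2 * (16 * T) = 16 * C2 * T := by ring
        rw [h7]
        gcongr
  -- the boundary terms
  have h3 : 2 * (J : ℝ) * (C3 * Real.log T) ^ 2 ≤ 4 * C3 ^ 2 * (T * Real.log T) := by
    calc 2 * (J : ℝ) * (C3 * Real.log T) ^ 2 ≤ 2 * (2 * Real.log T) * (C3 * Real.log T) ^ 2 := by
          gcongr
      _ = 4 * C3 ^ 2 * (Real.log T ^ 2 * Real.log T) := by ring
      _ ≤ _ := by gcongr
  -- the blocks
  have h4 : ∀ k ∈ Finset.range J, ps (Bk T k) (ind w) ≤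
      C1 * (T * Real.log T) * (1 / 2 ^ (k + 1)) := by
    intro k hk
    rw [Finset.mem_range] at hk
    have hpk : (0 : ℝ) < 2 ^ (k + 1) := by positivity
    have h5 : H0 ≤ T / 2 ^ (k + 1) := by
      refine hlow.trans ?_
      apply div_le_div_of_nonneg_left hTpos.le hpk
      exact pow_le_pow_right₀ (by norm_num) (by omega)
    set V : ℝ := T / 2 ^ (k + 1) with hV
    have hVT : V ≤ T := div_le_self hTpos.le (one_le_pow₀ (by norm_num))
    have hlV : Real.log V ≤ Real.log T := Real.log_le_log (by linarith) hVT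
    have hlV0 : 0 < Real.log V := Real.log_pos (by linarith)
    have h6 := hblk V (by linarith) w (by
      calc w * Real.log V ≤ w * Real.log T := by gcongr
        _ = 2 * Real.pi := by rw [hw]; field_simp
        _ ≤ 7 := by norm_num at hpi4 ⊢; linarith)
    have h7 : H332B.BP (V + 1) (2 * V - 1) w = ps (Bk T k) (ind w) := by
      rw [BP_eq]
      rfl
    rw [← h7]
    calc H332B.BP (V + 1) (2 * V - 1) w ≤ C1 * (V * Real.log V) := h6
      _ ≤ C1 * (V * Real.log T) := by gcongr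
      _ = _ := by rw [hV]; ring
  have h5 : ∑ k ∈ Finset.range J, ps (Bk T k) (ind w) ≤ C1 * (T * Real.log T) := by
    calc _ ≤ ∑ k ∈ Finset.range J, C1 * (T * Real.log T) * (1 / 2 ^ (k + 1)) :=
          Finset.sum_le_sum h4
      _ = C1 * (T * Real.log T) * ∑ k ∈ Finset.range J, (1 : ℝ) / 2 ^ (k + 1) := by
          rw [Finset.mul_sum]
      _ ≤ C1 * (T * Real.log T) * 1 := by
          apply mul_le_mul_of_nonneg_left _ (by positivity)
          have h6 : ∀ n : ℕ, ∑ k ∈ Finset.range n, (1 : ℝ) / 2 ^ (k + 1) = 1 - 1 / 2 ^ n := by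
            intro n
            induction n with
            | zero => simp
            | succ n ih => rw [Finset.sum_range_succ, ih, pow_succ]; field_simp; ring
          rw [h6]
          have : (0 : ℝ) < 1 / 2 ^ J := by positivity
          linarith
      _ = _ := by ring
  have h6 : H332B.N2 T w ≤ (C1 + 16 * C2 + 4 * C3 ^ 2) * (T * Real.log T) := by
    rw [N2_eq T w, decomp hTpos J]
    calc _ ≤ C1 * (T * Real.log T) + (16 * C2 * (T * Real.log T) +
          4 * C3 ^ 2 * (T * Real.log T)) := by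
          refine add_le_add h5 (h1.trans (add_le_add h2 h3))
      _ = _ := by ring
  unfold P
  rw [mul_one]
  have hX : 0 < X T := by unfold X; positivity
  rw [div_le_iff₀ hX]
  refine h6.trans (le_of_eq ?_)
  unfold X
  field_simp

end W207.PU
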