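import Pool.Agent.W207.PU.FinU
import Pool.Agent.W207.PR.Fin2
import Pool.Agent.W207.PR.Fin3

/-! # Windows and single heights, unconditional -/

open Complex Filter Topology Set MeasureTheory
open scoped BigOperators

namespace W207.PU

open W207.PR

/-- further inputs for the windows -/
structure InpW : Prop where
  teste : S_TESTE
  uniqe : S_UNIQE
  shift : S_SHIFT
  diff : S_DIFF
  dense : S_DENSE

lemma P_diffU {T : ℝ} (hT : 10 ≤ T) {u v : ℝ} (hu : 0 ≤ u) (hv : 0 ≤ v) :
    P T v - P T u = 2 * (Npos T (2 * Real.pi * v / Real.log T) -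
      Npos T (2 * Real.pi * u / Real.log T)) / X T := by
  have hpi := Real.pi_pos
  have hlog : 0 < Real.log T := Real.log_pos (by linarith)
  unfold P
  rw [N2_splitU T (by positivity), N2_splitU T (by positivity), ← sub_div]
  congr 1
  ring

/-- windows from below and above -/
lemma win_boundsU : ∃ K : ℝ, 0 ≤ K ∧ ∀ T α β δ : ℝ, 10 ≤ T → 0 < α →
    α ≤ β → 0 < δ → 2 * Real.pi * β / Real.log T ≤ 1 →
    P T β - P T α ≤ 2 * (NW T α β / X T) ∧
    2 * (NW T α β / X T) ≤ P T β - P T (α - δ) + 2 * K / X T := by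
  obtain ⟨K, hK, h⟩ := NW_CW
  have hpi := Real.pi_pos
  refine ⟨K, hK, fun T α β δ hT hα hαβ hδ hβ => ?_⟩
  have hlog : 0 < Real.log T := Real.log_pos (by linarith)
  have hX := W207.PR.X_pos hT
  obtain ⟨h1, h2⟩ := h T α β hT hα hβ
  constructor
  · rw [P_diffU hT hα.le (hα.le.trans hαβ)]
    have h3 := CW_ge T (w1 := 2 * Real.pi * α / Real.log T) (w2 := 2 * Real.pi * β / Real.log T)
      (by positivity) (by gcongr)
    rw [← mul_div_assoc]
    apply div_le_div_of_nonneg_right _ hX.le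
    linarith
  · set δ' : ℝ := min δ (α / 2) with hδ'
    have hδ'0 : 0 < δ' := lt_min hδ (by positivity)
    have hδ'1 : δ' ≤ δ := min_le_left _ _
    have hδ'2 : δ' ≤ α / 2 := min_le_right _ _
    have hPm : P T (α - δ) ≤ P T (α - δ') := P_mono hT (by linarith)
    have h3 := CW_le T (w0 := 2 * Real.pi * (α - δ') / Real.log T)
      (w1 := 2 * Real.pi * α / Real.log T) (w2 := 2 * Real.pi * β / Real.log T)
      (by
        have : 0 ≤ α - δ' := by linarith
        positivity)
      (by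
        apply div_lt_div_of_pos_right _ hlog
        have : 2 * Real.pi * (α - δ') < 2 * Real.pi * α := by
          apply mul_lt_mul_of_pos_left (by linarith) (by positivity)
        exact this)
    have h4 : min (2 * Real.pi * (α - δ') / Real.log T) (2 * Real.pi * β / Real.log T) =
        2 * Real.pi * (α - δ') / Real.log T := by
      apply min_eq_left
      gcongr
      linarith
    rw [h4] at h3
    have h5 := P_diffU hT (u := α - δ') (v := β) (by linarith) (hα.le.trans hαβ)
    have h6 : 2 * (NW T α β / X T : ℝ) ≤ P T β - P T (α - δ') + 2 * K / X T := by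
      rw [h5, ← mul_div_assoc, ← add_div]
      apply div_le_div_of_nonneg_right _ hX.le
      linarith
    linarith

lemma PP_WCU {l : Filter ℝ} (hl : l ≤ atTop) (h : PP l) : WC l := by
  intro α β hα hαβ
  obtain ⟨K, hK, hb⟩ := win_boundsU
  have hK0 : Tendsto (fun T => 2 * K / X T) l (𝓝 0) :=
    (tendsto_const_nhds.div_atTop X_tendsto).mono_left hl
  rw [Metric.tendsto_nhds]
  intro ε hε
  set δ : ℝ := min (α / 2) (ε / 4) with hδ
  have hδ0 : 0 < δ := lt_min (by positivity) (by positivity)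
  have hδ1 : δ ≤ α / 2 := min_le_left _ _
  have hδ2 : δ ≤ ε / 4 := min_le_right _ _
  have h1 := (h β (by linarith)).sub (h α hα)
  have h2 := (h β (by linarith)).sub (h (α - δ) (by linarith))
  have e1 : ∀ᶠ T in l, 2 * (G β - G α) - ε < P T β - P T α :=
    h1.eventually (lt_mem_nhds (by linarith))
  have e2 : ∀ᶠ T in l, P T β - P T (α - δ) < 2 * (G β - G (α - δ)) + ε / 2 :=
    h2.eventually (gt_mem_nhds (by linarith))
  have e3 : ∀ᶠ T in l, 2 * K / X T < ε / 2 := hK0.eventually (gt_mem_nhds (by positivity))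
  have hG := G_lip (show α - δ ≤ α by linarith)
  filter_upwards [e1, e2, e3, hl (ev_small β), hl (eventually_ge_atTop (10 : ℝ))] with T g1 g2 g3 g4 g5
  obtain ⟨b1, b2⟩ := hb T α β δ g5 hα hαβ.le hδ0 g4
  rw [XT', gw_eq, Real.dist_eq, abs_lt]
  constructor <;> linarith

lemma WC_Lower {l : Filter ℝ} (hl : l ≤ atTop) (h : WC l) : Lower l := by
  obtain ⟨K, hK, hN⟩ := NW_CW
  have hpi := Real.pi_pos
  refine ⟨0, 1, one_pos, fun a ha ε hε => ?_⟩
  set α : ℝ := min (a / 2) (ε / 2) with hα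
  have hα0 : 0 < α := lt_min (by positivity) (by positivity)
  have hα1 : α ≤ a / 2 := min_le_left _ _
  have hα2 : α ≤ ε / 2 := min_le_right _ _
  have hK0 : Tendsto (fun T => K / X T) l (𝓝 0) :=
    (tendsto_const_nhds.div_atTop X_tendsto).mono_left hl
  have h1 : ∀ᶠ T in l, gw α a - ε / 4 < NW T α a / (T * Real.log T / (2 * Real.pi)) :=
    (h α a hα0 (by linarith)).eventually (lt_mem_nhds (by linarith))
  filter_upwards [h1, hl (ev_small a), hl (eventually_ge_atTop (10 : ℝ)),
    hK0.eventually (gt_mem_nhds (show (0 : ℝ) < ε / 4 by positivity))] with T g1 g2 g3 g4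
  have hX := W207.PR.X_pos g3
  have hlog : 0 < Real.log T := Real.log_pos (by linarith)
  rw [XT', gw_eq, lt_div_iff₀ hX] at g1
  rw [div_lt_iff₀ hX] at g4
  obtain ⟨-, h2⟩ := hN T α a g3 hα0 g2
  have h3 := CW_le T (w0 := 0) (w1 := 2 * Real.pi * α / Real.log T)
    (w2 := 2 * Real.pi * a / Real.log T) le_rfl (by positivity)
  have h4 := Npos_nonneg T (min 0 (2 * Real.pi * a / Real.log T))
  have h5 := Nst_split T a
  have h6 := Rem_nonneg T (2 * Real.pi * a / Real.log T)
  have h7 : (G a - ε) * X T ≤ Nst T a := by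
    have h8 : G α ≤ ε / 2 := (G_le hα0.le).trans hα2
    nlinarith
  rw [zero_mul, sub_zero, XT, gg_eq]
  have hπ1 : (1 : ℝ) ≤ 2 * Real.pi := by linarith [Real.pi_gt_three]
  calc (G a / (2 * Real.pi) - ε) * (2 * Real.pi * X T) = (G a - 2 * Real.pi * ε) * X T := by
        field_simp
    _ ≤ (G a - ε) * X T := by
        apply mul_le_mul_of_nonneg_right _ hX.le
        nlinarith
    _ ≤ Nst T a := h7

/-- **windows of fixed lengths, unconditional** -/
theorem finalW (I : Inp) (J : InpW) (l : Filter ℝ) [l.IsCountablyGenerated] (hl : l ≤ atTop)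
    (L : Set ℝ) (hL : ∀ ℓ ∈ L, 0 < ℓ) (hdense : Dense (AddSubgroup.closure L : Set ℝ)) :
    WC l ↔ (AL l ∧ ∀ ℓ ∈ L, WL l ℓ ∨ WU l ℓ) := by
  constructor
  · intro h
    refine ⟨?_, fun ℓ hℓ => ?_⟩
    · have hPCC := ((finalU I l hl).1).2 (WC_Lower hl h)
      exact (((finalU I l hl).2.1).1 hPCC).1
    left
    refine ⟨0, 1, one_pos, fun a ha ε hε => ?_⟩
    have h1 : ∀ᶠ T in l, gw a (a + ℓ) - ε < NW T a (a + ℓ) / (T * Real.log T / (2 * Real.pi)) :=
      (h a (a + ℓ) ha (by linarith [hL ℓ hℓ])).eventually (lt_mem_nhds (by linarith))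
    filter_upwards [h1, hl (eventually_ge_atTop (10 : ℝ))] with T g1 g2
    rw [XT'] at g1 ⊢
    rw [lt_div_iff₀ (W207.PR.X_pos g2)] at g1
    rw [zero_mul, sub_zero]
    exact g1.le
  · rintro ⟨hAL, h⟩
    have hoff := AL_X I hl hAL
    apply PP_WCU hl
    refine seq_form fun t ht => ?_
    have htop := ht.mono_right hl
    obtain ⟨j0, C0, hmono, hbd, -⟩ := shift_seq I htop
    obtain ⟨μ, hμ0, hμ1, horth⟩ := orth_seq I.cell I.ubu I.dec I.ibp I.ibg I.blk2
      (htop.comp (tendsto_add_atTop_nat j0)) ((hoff.comp ht).comp (tendsto_add_atTop_nat j0))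
    obtain ⟨hMT, hS⟩ := scale_seq hμ0 hμ1 (F := fun j => P (t (j + j0))) hmono hbd horth
    obtain ⟨K, hK, hb⟩ := win_boundsU
    have hK0 : Tendsto (fun T => 2 * K / X T) l (𝓝 0) :=
      (tendsto_const_nhds.div_atTop X_tendsto).mono_left hl
    have ht' : Tendsto (fun j => t (j + j0)) atTop l := ht.comp (tendsto_add_atTop_nat j0)
    -- the scaled set of lengths
    set L' : Set ℝ := (fun x => μ * x) '' L with hL'
    have hL'0 : ∀ ℓ ∈ L', 0 < ℓ := by
      rintro _ ⟨ℓ, hℓ, rfl⟩
      exact mul_pos hμ0 (hL ℓ hℓ)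
    have hd' : Dense (AddSubgroup.closure L' : Set ℝ) := by
      have h1 : (AddSubgroup.closure L' : Set ℝ) =
          (fun x => μ * x) '' (AddSubgroup.closure L : Set ℝ) := by
        have h2 := AddMonoidHom.map_closure (AddMonoidHom.mulLeft μ) L
        have h3 : ((AddSubgroup.closure L).map (AddMonoidHom.mulLeft μ) : Set ℝ) =
          (AddSubgroup.closure ((AddMonoidHom.mulLeft μ) '' L) : Set ℝ) := by rw [h2]
        rw [AddSubgroup.coe_map] at h3
        exact h3.symm
      rw [h1]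
      apply DenseRange.dense_image _ (by fun_prop) hdense
      apply Function.Surjective.denseRange
      intro y
      exact ⟨y / μ, by field_simp⟩
    have h := core2G I.helly I.dec J.teste I.det J.uniqe J.shift J.diff J.dense hMT hS L' hL'0 hd' (by
      rintro _ ⟨ℓ, hℓ, rfl⟩
      have hℓ0 := hL ℓ hℓ
      rcases h ℓ hℓ with h1 | h1
      · obtain ⟨C, c, hc, h1⟩ := h1
        refine ⟨1, Or.inl rfl, 2 * C, c / μ, by positivity, limG_lower fun a ha δ hδ ε hε => ?_⟩
        have h2 : ∀ᶠ T in l, 2 * (G (a / μ + ℓ) - G (a / μ)) -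
            (2 * C * Real.exp (-(c * (a / μ))) + ε) ≤ P T (a / μ + ℓ) - P T (a / μ - δ / μ) := by
          have e3 : ∀ᶠ T in l, 2 * K / X T < ε / 2 := hK0.eventually (gt_mem_nhds (by positivity))
          filter_upwards [h1 (a / μ) (by positivity) (ε / 4) (by positivity), e3,
            hl (ev_small (a / μ + ℓ)), hl (eventually_ge_atTop (10 : ℝ))] with T g1 g2 g3 g4
          obtain ⟨b1, b2⟩ := hb T (a / μ) (a / μ + ℓ) (δ / μ) g4 (by positivity) (by linarith)
            (by positivity) g3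
          rw [XT', gw_eq, ← le_div_iff₀ (W207.PR.X_pos g4)] at g1
          linarith
        filter_upwards [ht'.eventually h2] with j hj
        have e1 : (a + μ * ℓ) / μ = a / μ + ℓ := by field_simp
        have e2 : (a - δ) / μ = a / μ - δ / μ := by ring
        have e3 : c / μ * a = c * (a / μ) := by ring
        simp only [e1, e2, e3]
        linarith
      · obtain ⟨C, c, hc, h1⟩ := h1
        refine ⟨-1, Or.inr rfl, 2 * C, c / μ, by positivity, limG_upper fun a ha ε hε => ?_⟩
        have h2 : ∀ᶠ T in l, P T (a / μ + ℓ) - P T (a / μ) ≤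
            2 * (G (a / μ + ℓ) - G (a / μ)) + (2 * C * Real.exp (-(c * (a / μ))) + ε) := by
          filter_upwards [h1 (a / μ) (by positivity) (ε / 4) (by positivity),
            hl (ev_small (a / μ + ℓ)), hl (eventually_ge_atTop (10 : ℝ))] with T g1 g3 g4
          obtain ⟨b1, b2⟩ := hb T (a / μ) (a / μ + ℓ) 1 g4 (by positivity) (by linarith) one_pos g3
          rw [XT', gw_eq, ← div_le_iff₀ (W207.PR.X_pos g4)] at g1
          linarith
        filter_upwards [ht'.eventually h2] with j hj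
        have e1 : (a + μ * ℓ) / μ = a / μ + ℓ := by field_simp
        have e3 : c / μ * a = c * (a / μ) := by ring
        simp only [e1, e3]
        linarith)
    intro u hu
    have h2 := h (μ * u) (by positivity)
    simp only [mul_div_cancel_left₀ _ hμ0.ne'] at h2
    exact (tendsto_add_atTop_iff_nat j0).1 h2

/-- from the statement along sequences to the statement at a single height -/
theorem singleU (h1 : ∀ l : Filter ℝ, l.IsCountablyGenerated → l ≤ atTop → Lower l →
      PCC l ∧ Tendsto (fun T => (Nso T : ℝ) / Nal T) l (𝓝 1))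
    (a₀ A ε : ℝ) (ha₀ : 0 < a₀) (hA : 0 < A) (hε : 0 < ε) :
    ∃ B δ T₀ : ℝ, 0 < δ ∧ ∀ T : ℝ, T₀ ≤ T →
      (∀ a : ℝ, A ≤ a → a ≤ B → (gg a - δ) * (T * Real.log T) ≤ Nst T a) →
      |(Nst T a₀ : ℝ) / (T * Real.log T) - gg a₀| ≤ ε ∧ (1 - ε) * (Nal T : ℝ) ≤ Nso T := by
  by_contra hcon
  push Not at hcon
  have hcon' : ∀ n : ℕ, ∃ T : ℝ, (n : ℝ) + 10 ≤ T ∧
      (∀ a : ℝ, A ≤ a → a ≤ n → (gg a - 1 / ((n : ℝ) + 1)) * (T * Real.log T) ≤ Nst T a) ∧
      ¬ (|(Nst T a₀ : ℝ) / (T * Real.log T) - gg a₀| ≤ ε ∧ (1 - ε) * (Nal T : ℝ) ≤ Nso T) := by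
    intro n
    obtain ⟨T, hT, h2, h3⟩ := hcon n (1 / ((n : ℝ) + 1)) ((n : ℝ) + 10) (by positivity)
    refine ⟨T, hT, h2, ?_⟩
    rintro ⟨g1, g2⟩
    exact absurd g2 (not_le.2 (h3 g1))
  choose t ht1 ht2 ht3 using hcon'
  have htop : Tendsto t atTop atTop :=
    tendsto_atTop_mono (fun n => (by linarith [ht1 n] : (n : ℝ) ≤ t n)) tendsto_natCast_atTop_atTop
  have hXn : ∀ n, 0 ≤ t n * Real.log (t n) := by
    intro n
    have h5 : (10 : ℝ) ≤ t n := by
      have := ht1 n
      have h6 : (0 : ℝ) ≤ n := Nat.cast_nonneg n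
      linarith
    have := Real.log_nonneg (show (1 : ℝ) ≤ t n by linarith)
    have : 0 ≤ t n := by linarith
    positivity
  have hlow : Lower (map t atTop) := by
    refine ⟨A * Real.exp A, 1, one_pos, fun a ha η hη => ?_⟩
    rw [eventually_map]
    rcases lt_or_ge a A with hlt | hge
    · filter_upwards with n
      have h7 : A ≤ A * Real.exp A * Real.exp (-(1 * a)) := by
        rw [mul_assoc, ← Real.exp_add]
        have : (1 : ℝ) ≤ Real.exp (A + -(1 * a)) := Real.one_le_exp (by linarith)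
        nlinarith
      have h8 := gg_le ha.le
      have h9 : gg a - A * Real.exp A * Real.exp (-(1 * a)) - η ≤ 0 := by linarith
      exact (mul_nonpos_of_nonpos_of_nonneg h9 (hXn n)).trans (Nat.cast_nonneg _)
    · obtain ⟨n1, hn1⟩ := exists_nat_ge a
      obtain ⟨n2, hn2⟩ := exists_nat_one_div_lt hη
      filter_upwards [eventually_ge_atTop (max n1 n2)] with n hn
      have hna : a ≤ n := hn1.trans (by exact_mod_cast (le_max_left _ _).trans hn)
      have hnη : 1 / ((n : ℝ) + 1) ≤ η := by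
        refine le_trans ?_ hn2.le
        apply one_div_le_one_div_of_le (by positivity)
        have : ((n2 : ℕ) : ℝ) ≤ n := by exact_mod_cast (le_max_right _ _).trans hn
        linarith
      refine le_trans ?_ (ht2 n a hge hna)
      apply mul_le_mul_of_nonneg_right _ (hXn n)
      have : 0 ≤ A * Real.exp A * Real.exp (-(1 * a)) := by positivity
      linarith
  obtain ⟨g1, g2⟩ := h1 (map t atTop) inferInstance (by rwa [← Tendsto]) hlow
  have g3 : ∀ᶠ n in atTop, |(Nst (t n) a₀ : ℝ) / (t n * Real.log (t n)) - gg a₀| < ε := by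
    have := (g1 a₀ ha₀)
    rw [tendsto_map'_iff] at this
    exact (Metric.tendsto_nhds.1 this ε hε)
  have g4 : ∀ᶠ n in atTop, 1 - ε < (Nso (t n) : ℝ) / Nal (t n) := by
    rw [tendsto_map'_iff] at g2
    exact g2.eventually (lt_mem_nhds (by linarith))
  obtain ⟨n, g5, g6⟩ := (g3.and g4).exists
  apply ht3 n
  refine ⟨g5.le, ?_⟩
  rcases (Nat.cast_nonneg (α := ℝ) (Nal (t n))).eq_or_lt with h0 | h0
  · rw [← h0, mul_zero]
    exact Nat.cast_nonneg _
  · rw [lt_div_iff₀ h0] at g6
    exact g6.le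

end W207.PU
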