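import Pool.Agent.W207.PU.BrU
import Pool.Agent.W207.PU.Diag
import Pool.Agent.W207.PU.Suml

/-! # The unconditional theorem: sequences -/

open Complex Filter Topology Set MeasureTheory
open scoped BigOperators

namespace W207.PU

open W207.PR

/-- conclusion of `S_BLK1` -/
def BLK1 : Prop := ∀ ψ : ℝ → ℝ, Tst ψ → ∃ C R0 : ℝ, 0 < C ∧ 1 ≤ R0 ∧
  ∀ R : ℝ, R0 ≤ R → ∀ᶠ V : ℝ in atTop,
    |W201FW.SS (ct (sc R ψ)) (V + 1) (2 * V - 1) (Real.log V) / X V - MM (sc R ψ)| ≤ C / R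

/-- conclusion of `S_BLK2` -/
def BLK2 : Prop := ∃ μ : ℝ, 0 < μ ∧ μ < 1 ∧ ∀ ψ : ℝ → ℝ, Tst ψ →
  (∀ x, μ ≤ |x| → ψ x = 0) → ∀ ε : ℝ, 0 < ε → ∃ δ V0 : ℝ, 0 < δ ∧ 10 ≤ V0 ∧ ∀ V : ℝ, V0 ≤ V →
    off (V + 1) (2 * V - 1) ≤ δ * X V →
    |W201FW.SS (ct ψ) (V + 1) (2 * V - 1) (Real.log V) / X V - MM ψ| ≤ ε

lemma ubu (hCELL : S_CELL) (h : ∃ C T0 : ℝ, 0 < C ∧ 10 ≤ T0 ∧ ∀ T : ℝ, T0 ≤ T → P T 1 ≤ C) :
    UBU := by
  obtain ⟨C, T0, hC, hT0, h⟩ := h
  have hpi := Real.pi_pos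
  refine ⟨3 * C, T0, by positivity, hT0, fun T hT u hu => ?_⟩
  have hT10 : 10 ≤ T := hT0.trans hT
  have hX := W207.PR.X_pos hT10
  have hlog : 0 < Real.log T := Real.log_pos (by linarith)
  have h1 : H332B.N2 T (2 * Real.pi / Real.log T) ≤ C * X T := by
    have h := h T hT
    unfold P at h
    rw [mul_one, div_le_iff₀ hX] at h
    exact h
  set k : ℕ := ⌈u⌉₊ with hk
  have hk1 : u ≤ k := Nat.le_ceil u
  have hk2 : (k : ℝ) < u + 1 := Nat.ceil_lt_add_one hu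
  have h2 : H332B.N2 T (2 * Real.pi * u / Real.log T) ≤
      H332B.N2 T (k * (2 * Real.pi / Real.log T)) := by
    apply N2_mono
    rw [mul_comm (k : ℝ), div_mul_eq_mul_div]
    gcongr
  have h3 : H332B.N2 T (k * (2 * Real.pi / Real.log T)) ≤
      (2 * k + 1) * H332B.N2 T (2 * Real.pi / Real.log T) := by
    have h := hCELL (ZT T) mz (fun s => s.im) (fun s => mz_nonneg s) (2 * Real.pi / Real.log T)
      (by positivity) k
    unfold H332B.N2
    convert h using 2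
  unfold P
  rw [div_le_iff₀ hX]
  calc H332B.N2 T (2 * Real.pi * u / Real.log T) ≤
      (2 * k + 1) * H332B.N2 T (2 * Real.pi / Real.log T) := h2.trans h3
    _ ≤ (2 * k + 1) * (C * X T) := by gcongr
    _ ≤ (2 * (u + 1) + 1) * (C * X T) := by gcongr
    _ ≤ 3 * C * (1 + u) * X T := by
      have : 0 ≤ C * X T := by positivity
      nlinarith

/-- the zeros off the line in a block are among those up to `T` -/
lemma off_le {T V : ℝ} (hV : 1 ≤ V) (h : V ≤ T / 2) : off (V + 1) (2 * V - 1) ≤ Nof T := by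
  classical
  unfold off
  rw [Nof_eq]
  have h1 : ((H370.Zf riemannZeta (V + 1) (2 * V - 1)).filter (fun s => s.re ≠ 1 / 2)) ⊆
      (ZT T).filter (fun s => s.re ≠ 1 / 2) := by
    intro s hs
    rw [Finset.mem_filter] at hs ⊢
    refine ⟨?_, hs.2⟩
    have := hs.1
    rw [H370.mem_Zf H370.good_zeta (by linarith)] at this
    obtain ⟨h1, h2, h3, h4, h5⟩ := this
    exact mem_ZT.2 ⟨h5, h1, h2, by linarith, by linarith⟩
  have h2 : (((H370.Zf riemannZeta (V + 1) (2 * V - 1)).filter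
      (fun s => s.re ≠ 1 / 2)).card : ℝ) ≤ (((ZT T).filter (fun s => s.re ≠ 1 / 2)).card : ℝ) := by
    exact_mod_cast Finset.card_le_card h1
  refine h2.trans ?_
  rw [Finset.card_eq_sum_ones]
  push_cast
  refine Finset.sum_le_sum fun s hs => ?_
  exact mz_ge (Finset.mem_filter.1 hs).1

/-- `X (δT) ≥ (δ/2) X T` for large `T` -/
lemma X_ratio (δ : ℝ) (hδ : 0 < δ) : ∃ T0 : ℝ, ∀ T : ℝ, T0 ≤ T → ∀ V : ℝ, δ * T ≤ V →
    δ / 2 * X T ≤ X V := by
  have h1 : ∀ᶠ T : ℝ in atTop, 2 * |Real.log δ| ≤ Real.log T :=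
    Real.tendsto_log_atTop.eventually_ge_atTop _
  obtain ⟨T0, hT0⟩ := eventually_atTop.1 (h1.and (eventually_ge_atTop (10 / δ)))
  refine ⟨T0, fun T hT V hV => ?_⟩
  obtain ⟨g1, g2⟩ := hT0 T hT
  have hpi := Real.pi_pos
  have hTpos : 0 < T := lt_of_lt_of_le (by positivity) g2
  have hδT : 10 ≤ δ * T := by
    rw [div_le_iff₀ hδ] at g2
    linarith
  have hlogT : 0 ≤ Real.log T := le_trans (by positivity) g1
  have hlogV : Real.log T / 2 ≤ Real.log V := by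
    have h2 : Real.log (δ * T) ≤ Real.log V := Real.log_le_log (by linarith) hV
    rw [Real.log_mul hδ.ne' hTpos.ne'] at h2
    have h3 := neg_abs_le (Real.log δ)
    linarith
  unfold X
  calc δ / 2 * (T / (2 * Real.pi) * Real.log T) = (δ * T) / (2 * Real.pi) * (Real.log T / 2) := by
        ring
    _ ≤ V / (2 * Real.pi) * Real.log V := by
        apply mul_le_mul _ hlogV (by linarith) _
        · gcongr
        · have : 0 < V := by linarith
          positivity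

/-- **the spectral gap for sequences with few zeros off the line** -/
lemma orth_seq (hCELL : S_CELL) (hUBU : UBU) (hDEC : S_DEC) (hIBP : S_IBP) (hIBG : S_IBG)
    (h2 : BLK2) {t : ℕ → ℝ} (ht : Tendsto t atTop atTop)
    (hoff : Tendsto (fun j => (Nof (t j) : ℝ) / X (t j)) atTop (𝓝 0)) :
    ∃ μ : ℝ, 0 < μ ∧ μ < 1 ∧ ∀ ψ : ℝ → ℝ, Tst ψ → (∀ x, μ ≤ |x| → ψ x = 0) →
      Tendsto (fun j => ∫ u in Ioi (0 : ℝ), dt ψ u * P (t j) u) atTop
        (𝓝 (∫ u in Ioi (0 : ℝ), dt ψ u * (1 + 2 * G u))) := by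
  obtain ⟨μ, hμ0, hμ1, h2⟩ := h2
  refine ⟨μ, hμ0, hμ1, fun ψ hψ hsupp => ?_⟩
  obtain ⟨-, hMM⟩ := hIBG hDEC ψ hψ
  rw [Metric.tendsto_nhds]
  intro ε hε
  obtain ⟨δ2, V0, hδ2, hV0, h2⟩ := h2 ψ hψ hsupp (ε / 4) (by positivity)
  obtain ⟨δ', T0, hδ', hT0, hS⟩ := suml hCELL hUBU hDEC ψ hψ (ε / 4) (ε / 4) (by positivity)
    (by positivity)
  set δ : ℝ := min δ' 1 with hδ
  have hδ0 : 0 < δ := lt_min hδ' one_pos
  obtain ⟨T1, hX1⟩ := X_ratio δ hδ0
  have h3 : ∀ᶠ j in atTop, (Nof (t j) : ℝ) / X (t j) < δ2 * (δ / 2) :=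
    hoff.eventually (gt_mem_nhds (by positivity))
  filter_upwards [h3, ht.eventually_ge_atTop T0, ht.eventually_ge_atTop T1,
    ht.eventually_ge_atTop (V0 / δ)] with j g3 g4 g5 g6
  set T := t j with hT
  have hT10 : 10 ≤ T := hT0.trans g4
  have hX := W207.PR.X_pos hT10
  have h4 := (hIBP hDEC ψ hψ T hT10).2
  have h5 : |SP ψ T / X T - MM ψ| ≤ ε / 4 + ε / 4 := by
    apply hS T g4
    intro V hV1 hV2
    have hV1' : δ * T ≤ V := le_trans (mul_le_mul_of_nonneg_right (min_le_left _ _) (by linarith)) hV1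
    have hVV0 : V0 ≤ V := by
      rw [div_le_iff₀ hδ0] at g6
      linarith
    apply h2 V hVV0
    refine (off_le (by linarith) hV2).trans ?_
    have h6 := hX1 T g5 V hV1'
    rw [div_lt_iff₀ hX] at g3
    calc (Nof T : ℝ) ≤ δ2 * (δ / 2) * X T := g3.le
      _ = δ2 * (δ / 2 * X T) := by ring
      _ ≤ δ2 * X V := mul_le_mul_of_nonneg_left h6 hδ2.le
  rw [Real.dist_eq]
  have h7 : (∫ u in Ioi (0 : ℝ), dt ψ u * P T u) - ∫ u in Ioi (0 : ℝ), dt ψ u * (1 + 2 * G u) =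
      -(SP ψ T / X T - MM ψ) := by
    rw [h4, hMM]
    ring
  rw [h7, abs_neg]
  linarith

/-- the approximate formula for the scaled test functions -/
lemma approx_seq (hCELL : S_CELL) (hUBU : UBU) (hDEC : S_DEC) (hIBP : S_IBP) (hIBG : S_IBG)
    (h1 : BLK1) {t : ℕ → ℝ} (ht : Tendsto t atTop atTop) (ψ : ℝ → ℝ) (hψ : Tst ψ) :
    ∃ C' R0 : ℝ, ∀ R : ℝ, R0 ≤ R → ∀ᶠ j in atTop,
      |(∫ u in Ioi (0 : ℝ), dt (scl R ψ) u * P (t j) u) -
        ∫ u in Ioi (0 : ℝ), dt (scl R ψ) u * (1 + 2 * G u)| ≤ C' / R := by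
  obtain ⟨C, R0, hC, hR0, h1⟩ := h1 ψ hψ
  refine ⟨C + 1, R0, fun R hR => ?_⟩
  have hR1 : 1 ≤ R := hR0.trans hR
  have hψR : Tst (scl R ψ) := Pool.Agent.W605.PR.tst_scale hψ hR1
  obtain ⟨-, hMM⟩ := hIBG hDEC (scl R ψ) hψR
  obtain ⟨V0, hV0⟩ := eventually_atTop.1 (h1 R hR)
  obtain ⟨δ, T0, hδ, hT0, hS⟩ := suml hCELL hUBU hDEC (scl R ψ) hψR (C / R) (1 / R)
    (by positivity) (by positivity)
  filter_upwards [ht.eventually_ge_atTop T0, ht.eventually_ge_atTop (V0 / δ)] with j g4 g6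
  set T := t j with hT
  have hT10 : 10 ≤ T := hT0.trans g4
  have h4 := (hIBP hDEC (scl R ψ) hψR T hT10).2
  have h5 : |SP (scl R ψ) T / X T - MM (scl R ψ)| ≤ C / R + 1 / R := by
    apply hS T g4
    intro V hV1 hV2
    apply hV0 V
    rw [div_le_iff₀ hδ] at g6
    linarith
  have h7 : (∫ u in Ioi (0 : ℝ), dt (scl R ψ) u * P T u) -
      ∫ u in Ioi (0 : ℝ), dt (scl R ψ) u * (1 + 2 * G u) =
      -(SP (scl R ψ) T / X T - MM (scl R ψ)) := by
    rw [h4, hMM]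
    ring
  rw [h7, abs_neg]
  refine h5.trans (le_of_eq ?_)
  ring

/-- scaling: from test functions of small support to all test functions -/
lemma scale_seq {μ : ℝ} (hμ0 : 0 < μ) (hμ1 : μ < 1) {F : ℕ → ℝ → ℝ} {C0 : ℝ}
    (hmono : ∀ j, Monotone (F j)) (hbd : ∀ j u, |F j u| ≤ C0 * (1 + |u|))
    (horth : ∀ ψ : ℝ → ℝ, Tst ψ → (∀ x, μ ≤ |x| → ψ x = 0) →
      Tendsto (fun j => ∫ u in Ioi (0 : ℝ), dt ψ u * F j u) atTop
        (𝓝 (∫ u in Ioi (0 : ℝ), dt ψ u * (1 + 2 * G u)))) :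
    MT (fun v => 1 + 2 * G (v / μ)) (2 / μ) ∧
    SeqG (fun v => 1 + 2 * G (v / μ)) (fun j v => F j (v / μ)) (C0 / μ) := by
  have hC0 : 0 ≤ C0 := by
    have := hbd 0 0
    simp at this
    exact (abs_nonneg _).trans this
  constructor
  · refine ⟨?_, fun u hu => ?_⟩
    · exact continuous_const.add ((G_cont.comp (continuous_id.div_const μ)).const_mul 2)
    · have h1 : 0 ≤ u / μ := by positivity
      have h4 := G_nonneg h1
      have h5 := G_le h1
      show |1 + 2 * G (u / μ)| ≤ _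
      rw [abs_of_nonneg (by linarith)]
      have h6 : (1 : ℝ) ≤ 1 / μ := by rw [le_div_iff₀ hμ0]; linarith
      calc 1 + 2 * G (u / μ) ≤ 1 / μ + 2 * (u / μ) := by linarith
        _ ≤ 2 / μ * (1 + u) := by
          have : 0 ≤ 1 / μ := by positivity
          have e : 2 / μ * (1 + u) = 2 * (1 / μ) + 2 * (u / μ) := by ring
          linarith
  · refine ⟨fun j a b hab => hmono j (by gcongr), fun j u => ?_, fun ψ hψ => ?_⟩
    · refine (hbd j (u / μ)).trans ?_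
      rw [abs_div, abs_of_pos hμ0]
      have h6 : (1 : ℝ) ≤ 1 / μ := by rw [le_div_iff₀ hμ0]; linarith
      calc C0 * (1 + |u| / μ) ≤ C0 * (1 / μ + |u| / μ) := by gcongr
        _ = C0 / μ * (1 + |u|) := by ring
    · have hR1 : 1 ≤ 1 / μ := by rw [le_div_iff₀ hμ0]; linarith
      have hψR : Tst (scl (1 / μ) ψ) := Pool.Agent.W605.PR.tst_scale hψ hR1
      obtain ⟨μ', hμ'0, hμ'1, hsupp⟩ := hψ.supp
      have hsm : ∀ x, μ ≤ |x| → scl (1 / μ) ψ x = 0 := by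
        intro x hx
        unfold scl
        rw [hsupp, mul_zero]
        rw [abs_mul, abs_of_pos (by positivity : 0 < 1 / μ), one_div, inv_mul_eq_div,
          le_div_iff₀ hμ0]
        nlinarith
      have hdt : ∀ u, dt (scl (1 / μ) ψ) u = μ * dt ψ (μ * u) := by
        intro u
        have := Pool.Agent.W605.PR.dt_scale (ψ := ψ) hR1 u
        unfold scl
        rw [this]
        congr 2
        · field_simp
        · field_simp
      have h := horth _ hψR hsm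
      have hint : ∀ f : ℝ → ℝ, ∫ u in Ioi (0 : ℝ), dt (scl (1 / μ) ψ) u * f u =
          ∫ v in Ioi (0 : ℝ), dt ψ v * f (v / μ) := by
        intro f
        have h1 := integral_comp_mul_left_Ioi (fun v => dt ψ v * f (v / μ)) 0 hμ0
        rw [mul_zero, smul_eq_mul] at h1
        have h2 : ∫ u in Ioi (0 : ℝ), dt (scl (1 / μ) ψ) u * f u =
            μ * ∫ u in Ioi (0 : ℝ), dt ψ (μ * u) * f (μ * u / μ) := by
          rw [← integral_const_mul]
          congr 1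
          ext u
          rw [hdt, mul_div_cancel_left₀ _ hμ0.ne']
          ring
        rw [h2, h1, ← mul_assoc, mul_inv_cancel₀ hμ0.ne', one_mul]
      simp_rw [hint] at h
      exact h

end W207.PU
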